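import Pool.Agent.Run7.h962.LF.Pr

/-! # The sharp limit for linear forms (helper962) -/

set_option autoImplicit false

open Finset

namespace Pool.Agent.Run7.h962.LF

open Pool.Agent.N422.NW Pool.Agent.N422.NWS Pool.Agent.N422.SL Pool.Agent.Run7.h962.NW

theorem lin_primes : ∀ ε : ℝ, 0 < ε → ∃ C : ℝ, 0 ≤ C ∧ ∀ (k : ℕ) (B : ℝ), 1 ≤ k → ∃ Q0 : ℕ, ∀ Q : ℕ, Q0 ≤ Q →
    ∀ a b : Fin k → ℤ, (∀ i, a i ≠ 0) → (∀ i, IsCoprime (a i) (b i)) → (∀ i j, i ≠ j → a i * b j ≠ a j * b i) →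
    (∀ i, |(a i : ℝ)| ≤ (Q : ℝ) ^ B) → (∀ i, |(b i : ℝ)| ≤ (Q : ℝ) ^ B) → ∀ c : ℕ → ℕ → ℝ, (∀ n, 0 ≤ wt Q c n) →
    ∑ i, ex Q c (a i) (b i) ≤
      ((1 / 2 + ε) * Real.log k + C) * Real.log Q * ((∑ n ∈ range Q.factorial, wt Q c n) / Q.factorial) := by
  intro ε hε
  set G := Real.exp Real.eulerMascheroniConstant with hG
  have hG0 : 0 < G := Real.exp_pos _
  have hGi : Real.exp (-Real.eulerMascheroniConstant) = G⁻¹ := by rw [Real.exp_neg]
  -- constants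
  set δ1 : ℝ := ε / (8 * (G + 1)) with hδ1
  have hδ1p : 0 < δ1 := by positivity
  set δ2 : ℝ := min 1 (G * (ε / 4)) with hδ2
  have hδ2p : 0 < δ2 := by positivity
  set δ3 : ℝ := min 1 (ε / (1 + ε)) with hδ3
  have hδ3p : 0 < δ3 := by positivity
  obtain ⟨C, hC, h1⟩ := lin_free δ1 hδ1p
  obtain ⟨Q1, h2⟩ := t_VQ.1 δ2 hδ2p
  refine ⟨2 * (C * (G + 1)), by positivity, fun k B hk => ?_⟩
  obtain ⟨Q0, h3⟩ := h1 k B hk
  obtain ⟨T, hT⟩ := exists_nat_ge B
  -- `(1 - T/Q)⁻¹ ≤ 1 + δ3`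
  obtain ⟨Q2, hQ2⟩ := exists_nat_ge ((T : ℝ) * (1 + δ3) / δ3 + 1)
  refine ⟨max (max Q0 Q2) (max Q1 2), fun Q hQ a b ha hab hdet haB hbB c hc => ?_⟩
  have hQ0 : Q0 ≤ Q := le_trans ((le_max_left _ _).trans (le_max_left _ _)) hQ
  have hQ2' : Q2 ≤ Q := le_trans ((le_max_right _ _).trans (le_max_left _ _)) hQ
  have hQ1 : Q1 ≤ Q := le_trans ((le_max_left _ _).trans (le_max_right _ _)) hQ
  have hQ3 : 2 ≤ Q := le_trans ((le_max_right _ _).trans (le_max_right _ _)) hQ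
  have hQr : (0 : ℝ) < Q := by exact_mod_cast (by omega : 0 < Q)
  have h4 := h3 Q hQ0 a b ha hdet haB hbB c hc
  have h5 := h2 Q hQ1
  set V := ∏ p ∈ (Icc 1 Q).filter Nat.Prime, (1 - 1 / (p : ℝ)) with hV
  have hVp : 0 < V := by
    rw [hV]
    apply Finset.prod_pos
    intro p hp
    rw [mem_filter] at hp
    have hp1 : (1 : ℝ) < p := by exact_mod_cast hp.2.one_lt
    have : 1 / (p : ℝ) < 1 := by rw [div_lt_one (by linarith)]; exact hp1
    linarith
  set M := ∑ n ∈ range Q.factorial, wt Q c n with hM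
  have hM0 : 0 ≤ M := Finset.sum_nonneg (fun n _ => hc n)
  have hfac : (0 : ℝ) < Q.factorial := by exact_mod_cast Q.factorial_pos
  -- the factor for the large primes dividing the slopes
  have hTQ : 1 ≤ (1 + δ3) * (1 - (T : ℝ) / Q) := by
    have h6 : (T : ℝ) * (1 + δ3) / δ3 ≤ Q := by
      have : (Q2 : ℝ) ≤ Q := by exact_mod_cast hQ2'
      linarith
    rw [div_le_iff₀ hδ3p] at h6
    have h7 : (T : ℝ) / Q * (1 + δ3) ≤ δ3 := by
      rw [div_mul_eq_mul_div, div_le_iff₀ hQr]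
      linarith
    nlinarith
  -- the sums over the survivors
  set S : Fin k → ℝ := fun i => ∑ n ∈ (range Q.factorial).filter
    (fun n : ℕ => ∀ p ∈ range (Q + 1), p.Prime → ¬ (p : ℤ) ∣ a i * n + b i), wt Q c n with hS
  have hS0 : ∀ i, 0 ≤ S i := fun i => Finset.sum_nonneg (fun n _ => hc n)
  have hES : ∀ i, ex Q c (a i) (b i) ≤ (1 + δ3) * V⁻¹ * (S i / Q.factorial) := by
    intro i
    have hA : 0 < (a i).natAbs := Int.natAbs_pos.2 (ha i)
    have hAr : (0 : ℝ) < (a i).natAbs := by exact_mod_cast hA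
    have h6 := surv_lin Q c (a i) (b i) (ha i) (hab i)
    have h7 := tot_lower Q (a i).natAbs B hQ3 hA (by
      rw [Nat.cast_natAbs]
      exact_mod_cast haB i) T hT
    have htp : (0 : ℝ) < Nat.totient ((a i).natAbs * Q.factorial) := by
      exact_mod_cast Nat.totient_pos.2 (Nat.mul_pos hA Q.factorial_pos)
    have h8 : ex Q c (a i) (b i) = S i * ((a i).natAbs / Nat.totient ((a i).natAbs * Q.factorial)) := by
      change _ = (∑ n ∈ _, wt Q c n) * _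
      rw [h6]
      field_simp
    rw [h8]
    have h9 : ((a i).natAbs : ℝ) / Nat.totient ((a i).natAbs * Q.factorial) ≤ (1 + δ3) * V⁻¹ / Q.factorial := by
      rw [div_le_div_iff₀ htp hfac]
      have h10 : (1 + δ3) * V⁻¹ * (((a i).natAbs * Q.factorial : ℝ) * (V * (1 - T / Q))) ≤
          (1 + δ3) * V⁻¹ * Nat.totient ((a i).natAbs * Q.factorial) :=
        mul_le_mul_of_nonneg_left h7 (by positivity)
      refine le_trans ?_ h10
      have h11 : (1 + δ3) * V⁻¹ * (((a i).natAbs * Q.factorial : ℝ) * (V * (1 - T / Q))) =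
          ((1 + δ3) * (1 - T / Q)) * ((a i).natAbs * Q.factorial) := by
        field_simp
      rw [h11]
      have : 0 ≤ ((a i).natAbs : ℝ) * Q.factorial := by positivity
      nlinarith
    calc S i * (((a i).natAbs : ℝ) / Nat.totient ((a i).natAbs * Q.factorial))
        ≤ S i * ((1 + δ3) * V⁻¹ / Q.factorial) := mul_le_mul_of_nonneg_left h9 (hS0 i)
      _ = _ := by ring
  have h6 : ∑ n ∈ range Q.factorial, wt Q c n *
      ((univ.filter (fun i => ∀ p ∈ range (Q + 1), p.Prime → ¬ (p : ℤ) ∣ a i * n + b i)).card : ℝ) = ∑ i, S i := by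
    have e2 : ∀ i, S i =
        ∑ n ∈ range Q.factorial, wt Q c n *
          (if ∀ p ∈ range (Q + 1), p.Prime → ¬ (p : ℤ) ∣ a i * n + b i then 1 else 0) := by
      intro i
      rw [hS]
      dsimp only
      rw [Finset.sum_filter]
      apply Finset.sum_congr rfl
      intro n _
      split_ifs <;> simp
    rw [Finset.sum_congr rfl (fun i _ => e2 i), Finset.sum_comm]
    apply Finset.sum_congr rfl
    intro n _
    rw [← Finset.mul_sum, Finset.card_filter]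
    push_cast
    rfl
  rw [h6, hGi] at h4
  have hlogk : 0 ≤ Real.log k := Real.log_nonneg (by exact_mod_cast hk)
  have hlogQ : 0 ≤ Real.log Q := Real.log_natCast_nonneg Q
  have h7 : ∑ i, ex Q c (a i) (b i) ≤ (1 + δ3) * (V⁻¹ * (((G⁻¹ / 2 + δ1) * Real.log k + C) * (M / Q.factorial))) := by
    refine (Finset.sum_le_sum fun i _ => hES i).trans ?_
    rw [← Finset.mul_sum, ← Finset.sum_div]
    have : (∑ i, S i) / Q.factorial ≤ (((G⁻¹ / 2 + δ1) * Real.log k + C) * M) / Q.factorial :=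
      div_le_div_of_nonneg_right h4 hfac.le
    calc (1 + δ3) * V⁻¹ * ((∑ i, S i) / Q.factorial)
        ≤ (1 + δ3) * V⁻¹ * ((((G⁻¹ / 2 + δ1) * Real.log k + C) * M) / Q.factorial) :=
          mul_le_mul_of_nonneg_left this (by positivity)
      _ = _ := by ring
  refine h7.trans ?_
  have hX : 0 ≤ (((G⁻¹ / 2 + δ1) * Real.log k + C) * (M / Q.factorial)) := by positivity
  have h7' : (1 + δ3) * (V⁻¹ * (((G⁻¹ / 2 + δ1) * Real.log k + C) * (M / Q.factorial))) ≤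
      (1 + δ3) * ((G + δ2) * Real.log Q * (((G⁻¹ / 2 + δ1) * Real.log k + C) * (M / Q.factorial))) :=
    mul_le_mul_of_nonneg_left (mul_le_mul_of_nonneg_right h5 hX) (by positivity)
  refine h7'.trans ?_
  have hd2 : δ2 ≤ 1 := min_le_left _ _
  have hd3 : δ3 ≤ 1 := min_le_left _ _
  have h9 : (G + δ2) * (G⁻¹ / 2 + δ1) ≤ 1 / 2 + ε / 2 := by
    have h10 : (G + δ2) * δ1 ≤ ε / 8 := by
      have : (G + δ2) * δ1 ≤ (G + 1) * δ1 := by
        apply mul_le_mul_of_nonneg_right _ hδ1p.le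
        linarith
      refine this.trans (le_of_eq ?_)
      rw [hδ1]
      field_simp
    have h11 : δ2 * (G⁻¹ / 2) ≤ ε / 8 := by
      have : δ2 * (G⁻¹ / 2) ≤ (G * (ε / 4)) * (G⁻¹ / 2) :=
        mul_le_mul_of_nonneg_right (min_le_right _ _) (by positivity)
      refine this.trans (le_of_eq ?_)
      field_simp
      norm_num
    have h12 : G * (G⁻¹ / 2) = 1 / 2 := by field_simp
    calc (G + δ2) * (G⁻¹ / 2 + δ1) = G * (G⁻¹ / 2) + δ2 * (G⁻¹ / 2) + (G + δ2) * δ1 := by ring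
      _ ≤ 1 / 2 + ε / 8 + ε / 8 := by linarith
      _ ≤ 1 / 2 + ε / 2 := by linarith
  have h9' : (1 + δ3) * (1 / 2 + ε / 2) ≤ 1 / 2 + ε := by
    have h13 : δ3 ≤ ε / (1 + ε) := min_le_right _ _
    have h14 : δ3 * (1 / 2 + ε / 2) ≤ ε / (1 + ε) * (1 / 2 + ε / 2) :=
      mul_le_mul_of_nonneg_right h13 (by positivity)
    have h15 : ε / (1 + ε) * (1 / 2 + ε / 2) = ε / 2 := by field_simp
    linarith
  have h8 : (1 + δ3) * ((G + δ2) * ((G⁻¹ / 2 + δ1) * Real.log k + C)) ≤ (1 / 2 + ε) * Real.log k + 2 * (C * (G + 1)) := by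
    have h13 : (1 + δ3) * ((G + δ2) * C) ≤ 2 * (C * (G + 1)) := by
      have h14 : (G + δ2) * C ≤ C * (G + 1) := by
        rw [mul_comm]
        exact mul_le_mul_of_nonneg_left (by linarith) hC
      exact mul_le_mul (by linarith) h14 (by positivity) (by norm_num)
    have h16 : (1 + δ3) * ((G + δ2) * (G⁻¹ / 2 + δ1)) ≤ 1 / 2 + ε :=
      (mul_le_mul_of_nonneg_left h9 (by positivity)).trans h9'
    calc _ = (1 + δ3) * ((G + δ2) * (G⁻¹ / 2 + δ1)) * Real.log k + (1 + δ3) * ((G + δ2) * C) := by ring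
      _ ≤ _ := add_le_add (mul_le_mul_of_nonneg_right h16 hlogk) h13
  calc _ = ((1 + δ3) * ((G + δ2) * ((G⁻¹ / 2 + δ1) * Real.log k + C))) * (Real.log Q * (M / Q.factorial)) := by ring
    _ ≤ ((1 / 2 + ε) * Real.log k + 2 * (C * (G + 1))) * (Real.log Q * (M / Q.factorial)) :=
        mul_le_mul_of_nonneg_right h8 (by positivity)
    _ = _ := by ring

/-- both parts with one constant -/
theorem lin_both : ∀ ε : ℝ, 0 < ε → ∃ C : ℝ, ∀ (k : ℕ) (B : ℝ), 1 ≤ k → ∃ Q0 : ℕ, ∀ Q : ℕ, Q0 ≤ Q →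
    ∀ a b : Fin k → ℤ, (∀ i, a i ≠ 0) → (∀ i, IsCoprime (a i) (b i)) → (∀ i j, i ≠ j → a i * b j ≠ a j * b i) →
    (∀ i, |(a i : ℝ)| ≤ (Q : ℝ) ^ B) → (∀ i, |(b i : ℝ)| ≤ (Q : ℝ) ^ B) → ∀ c : ℕ → ℕ → ℝ, (∀ n, 0 ≤ wt Q c n) →
    (∑ n ∈ range Q.factorial, wt Q c n *
      ((univ.filter (fun i => ∀ p ∈ Icc 1 Q, p.Prime → ¬ (p : ℤ) ∣ a i * n + b i)).card : ℝ)) / Q.factorial ≤
      ((Real.exp (-Real.eulerMascheroniConstant) / 2 + ε) * Real.log k + C) *
        ((∑ n ∈ range Q.factorial, wt Q c n) / Q.factorial) ∧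
    ∑ i, ex Q c (a i) (b i) ≤
      ((1 / 2 + ε) * Real.log k + C) * Real.log Q * ((∑ n ∈ range Q.factorial, wt Q c n) / Q.factorial) := by
  intro ε hε
  obtain ⟨C₁, hC₁, h1⟩ := lin_free ε hε
  obtain ⟨C₂, hC₂, h2⟩ := lin_primes ε hε
  refine ⟨max C₁ C₂, fun k B hk => ?_⟩
  obtain ⟨Q₁, h1⟩ := h1 k B hk
  obtain ⟨Q₂, h2⟩ := h2 k B hk
  refine ⟨max Q₁ Q₂, fun Q hQ a b ha hab hdet haB hbB c hc => ?_⟩
  have hfac : (0 : ℝ) < Q.factorial := by exact_mod_cast Q.factorial_pos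
  have hM : 0 ≤ ∑ n ∈ range Q.factorial, wt Q c n := Finset.sum_nonneg (fun n _ => hc n)
  constructor
  · have h3 := h1 Q ((le_max_left _ _).trans hQ) a b ha hdet haB hbB c hc
    have hfree : ∀ n : ℕ, (univ.filter (fun i => ∀ p ∈ Icc 1 Q, p.Prime → ¬ (p : ℤ) ∣ a i * n + b i)).card =
        (univ.filter (fun i => ∀ p ∈ range (Q + 1), p.Prime → ¬ (p : ℤ) ∣ a i * n + b i)).card := by
      intro n
      congr 1
      apply Finset.filter_congr
      intro i _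
      constructor
      · intro h4 p hp hpp
        rw [mem_range] at hp
        exact h4 p (mem_Icc.2 ⟨hpp.one_lt.le, by omega⟩) hpp
      · intro h4 p hp hpp
        rw [mem_Icc] at hp
        exact h4 p (mem_range.2 (by omega)) hpp
    rw [← mul_div_assoc]
    apply div_le_div_of_nonneg_right _ hfac.le
    calc _ ≤ ((Real.exp (-Real.eulerMascheroniConstant) / 2 + ε) * Real.log k + C₁) *
          ∑ n ∈ range Q.factorial, wt Q c n := by
          refine le_trans (le_of_eq ?_) h3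
          apply Finset.sum_congr rfl
          intro n _
          rw [hfree]
      _ ≤ _ := by
          apply mul_le_mul_of_nonneg_right _ hM
          linarith [le_max_left C₁ C₂]
  · refine (h2 Q ((le_max_right _ _).trans hQ) a b ha hab hdet haB hbB c hc).trans ?_
    apply mul_le_mul_of_nonneg_right _ (div_nonneg hM hfac.le)
    apply mul_le_mul_of_nonneg_right _ (Real.log_natCast_nonneg Q)
    linarith [le_max_right C₁ C₂]

/-- the forms indexed by a finite set of natural numbers -/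
theorem lin_set : ∀ ε : ℝ, 0 < ε → ∃ C : ℝ, ∀ (k : ℕ) (B : ℝ), 1 ≤ k → ∃ Q0 : ℕ, ∀ Q : ℕ, Q0 ≤ Q →
    ∀ (T : Finset ℕ) (a b : ℕ → ℤ), T.card = k → (∀ i ∈ T, a i ≠ 0) → (∀ i ∈ T, IsCoprime (a i) (b i)) →
    (∀ i ∈ T, ∀ j ∈ T, i ≠ j → a i * b j ≠ a j * b i) →
    (∀ i ∈ T, |(a i : ℝ)| ≤ (Q : ℝ) ^ B) → (∀ i ∈ T, |(b i : ℝ)| ≤ (Q : ℝ) ^ B) →
    ∀ c : ℕ → ℕ → ℝ, (∀ n, 0 ≤ wt Q c n) →
    (∑ n ∈ range Q.factorial, wt Q c n *
      ((T.filter (fun i => ∀ p ∈ Icc 1 Q, p.Prime → ¬ (p : ℤ) ∣ a i * n + b i)).card : ℝ)) / Q.factorial ≤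
      ((Real.exp (-Real.eulerMascheroniConstant) / 2 + ε) * Real.log k + C) *
        ((∑ n ∈ range Q.factorial, wt Q c n) / Q.factorial) ∧
    ∑ i ∈ T, ex Q c (a i) (b i) ≤
      ((1 / 2 + ε) * Real.log k + C) * Real.log Q * ((∑ n ∈ range Q.factorial, wt Q c n) / Q.factorial) := by
  classical
  intro ε hε
  obtain ⟨C, h1⟩ := lin_both ε hε
  refine ⟨C, fun k B hk => ?_⟩
  obtain ⟨Q0, h1⟩ := h1 k B hk
  refine ⟨Q0, fun Q hQ T a b hT ha hab hdet haB hbB c hc => ?_⟩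
  obtain ⟨e, he⟩ : ∃ e : Fin k ↪o ℕ, e = T.orderEmbOfFin hT := ⟨_, rfl⟩
  have hmem : ∀ i, e i ∈ T := fun i => by rw [he]; exact T.orderEmbOfFin_mem hT i
  have himg : T = univ.image e := by
    rw [he]
    exact (Finset.image_orderEmbOfFin_univ T hT).symm
  have h2 := h1 Q hQ (fun i => a (e i)) (fun i => b (e i)) (fun i => ha _ (hmem i)) (fun i => hab _ (hmem i))
    (fun i j hij => hdet _ (hmem i) _ (hmem j) (fun h => hij (e.injective h)))
    (fun i => haB _ (hmem i)) (fun i => hbB _ (hmem i)) c hc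
  have e1 : ∀ n : ℕ, (T.filter (fun i => ∀ p ∈ Icc 1 Q, p.Prime → ¬ (p : ℤ) ∣ a i * n + b i)).card =
      (univ.filter (fun i : Fin k => ∀ p ∈ Icc 1 Q, p.Prime → ¬ (p : ℤ) ∣ a (e i) * n + b (e i))).card := by
    intro n
    have : T.filter (fun i => ∀ p ∈ Icc 1 Q, p.Prime → ¬ (p : ℤ) ∣ a i * n + b i) =
        (univ.filter (fun i : Fin k => ∀ p ∈ Icc 1 Q, p.Prime → ¬ (p : ℤ) ∣ a (e i) * n + b (e i))).image e := by
      conv_lhs => rw [himg]
      rw [filter_image]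
    rw [this, card_image_of_injective _ e.injective]
  have e2 : ∑ i ∈ T, ex Q c (a i) (b i) = ∑ i : Fin k, ex Q c (a (e i)) (b (e i)) := by
    conv_lhs => rw [himg]
    rw [sum_image (fun x _ y _ h => e.injective h)]
  rw [e2]
  refine ⟨?_, h2.2⟩
  simp only [e1]
  exact h2.1

end Pool.Agent.Run7.h962.LF
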