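import Pool.Agent.Run7.h962.LF.Gen
import Pool.Agent.Run7.h962.LF.Fin

/-! # Windows: the sharp limit of nonnegative sieve weights for the primes in `(n, n + y]` (helper962) -/

set_option autoImplicit false

open Finset

namespace Pool.Agent.Run7.h962.LF.Win

open Pool.Agent.N422.NW Pool.Agent.N422.NWS Pool.Agent.N422.SL Pool.Agent.Run7.h962.NW

/-- the number of the integers in `(n, n + y]` without prime factors `≤ Q` -/
def cnt (Q y n : ℕ) : ℕ :=
  ((Ioc n (n + y)).filter (fun m : ℕ => ∀ p ∈ Icc (1 : ℕ) Q, Nat.Prime p → ¬ p ∣ m)).card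

theorem cnt_eq (Q y n : ℕ) :
    (univ.filter (fun i : Fin y => ∀ p ∈ Icc 1 Q, p.Prime → ¬ (p : ℤ) ∣ 1 * (n : ℤ) + ((i : ℕ) + 1 : ℤ))).card =
      cnt Q y n := by
  classical
  unfold cnt
  apply Finset.card_bij (fun (i : Fin y) _ => n + ((i : ℕ) + 1))
  · intro i hi
    rw [mem_filter] at hi
    rw [mem_filter, mem_Ioc]
    refine ⟨⟨by omega, by have := i.2; omega⟩, ?_⟩
    intro p hp hpp hd
    apply hi.2 p hp hpp
    have h : ((n + ((i : ℕ) + 1) : ℕ) : ℤ) = 1 * (n : ℤ) + ((i : ℕ) + 1 : ℤ) := by push_cast; ring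
    rw [← h]
    exact_mod_cast hd
  · intro i _ j _ hij
    apply Fin.ext
    omega
  · intro m hm
    rw [mem_filter, mem_Ioc] at hm
    refine ⟨⟨m - n - 1, by omega⟩, ?_, ?_⟩
    · rw [mem_filter]
      refine ⟨mem_univ _, ?_⟩
      intro p hp hpp hd
      apply hm.2 p hp hpp
      have h : (m : ℤ) = 1 * (n : ℤ) + (((m - n - 1 : ℕ) : ℤ) + 1 : ℤ) := by
        have : n + 1 ≤ m := hm.1.1
        omega
      have h2 : (p : ℤ) ∣ (m : ℤ) := by rw [h]; exact hd
      exact_mod_cast h2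
    · simp only
      have : n + 1 ≤ m := hm.1.1
      omega

/-- the forms `x + 1, ..., x + y` -/
theorem win : ∀ ε : ℝ, 0 < ε → ∃ C : ℝ, 0 ≤ C ∧ ∀ (y g : ℕ) (B : ℝ), 1 ≤ y → ∃ Q0 : ℕ, ∀ Q : ℕ, Q0 ≤ Q →
    ∀ P : Polynomial ℤ, P.natDegree ≤ g → (∀ j, |(P.coeff j : ℝ)| ≤ (Q : ℝ) ^ B) →
    (∀ h ∈ Icc 1 y, P.eval (-(h : ℤ)) ≠ 0) →
    ∀ c : ℕ → ℕ → ℝ, (∀ n : ℕ, Int.gcd (P.eval (n : ℤ)) Q.factorial = 1 → 0 ≤ wt Q c n) →
    (∑ n ∈ (range Q.factorial).filter (fun n : ℕ => Int.gcd (P.eval (n : ℤ)) Q.factorial = 1), wt Q c n *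
      (cnt Q y n : ℝ)) /
        ((range Q.factorial).filter (fun n : ℕ => Int.gcd (P.eval (n : ℤ)) Q.factorial = 1)).card ≤
      ((Real.exp (-Real.eulerMascheroniConstant) / 2 + ε) * Real.log y + C) *
        ((∑ n ∈ (range Q.factorial).filter (fun n : ℕ => Int.gcd (P.eval (n : ℤ)) Q.factorial = 1), wt Q c n) /
          ((range Q.factorial).filter (fun n : ℕ => Int.gcd (P.eval (n : ℤ)) Q.factorial = 1)).card) ∧
    (∏ p ∈ (Icc 1 Q).filter Nat.Prime, (1 - 1 / (p : ℝ)))⁻¹ *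
      ((∑ n ∈ (range Q.factorial).filter (fun n : ℕ => Int.gcd (P.eval (n : ℤ)) Q.factorial = 1), wt Q c n *
        (cnt Q y n : ℝ)) /
          ((range Q.factorial).filter (fun n : ℕ => Int.gcd (P.eval (n : ℤ)) Q.factorial = 1)).card) ≤
      ((1 / 2 + ε) * Real.log y + C) * Real.log Q *
        ((∑ n ∈ (range Q.factorial).filter (fun n : ℕ => Int.gcd (P.eval (n : ℤ)) Q.factorial = 1), wt Q c n) /
          ((range Q.factorial).filter (fun n : ℕ => Int.gcd (P.eval (n : ℤ)) Q.factorial = 1)).card) := by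
  intro ε hε
  obtain ⟨C, h1⟩ := Pool.Agent.Run7.h962.LP.poly_both ε hε
  refine ⟨max C 0, le_max_right _ _, fun y g B hy => ?_⟩
  obtain ⟨Q1, h2⟩ := h1 y g (max B 1) hy
  refine ⟨max Q1 (y + 1), fun Q hQ P hPd hPB hb c hc => ?_⟩
  have hQ1 : Q1 ≤ Q := (le_max_left _ _).trans hQ
  have hQy : y + 1 ≤ Q := (le_max_right _ _).trans hQ
  have hQr : (1 : ℝ) ≤ Q := by exact_mod_cast (by omega : 1 ≤ Q)
  have hQB : (Q : ℝ) ≤ (Q : ℝ) ^ (max B 1) := by
    calc (Q : ℝ) = (Q : ℝ) ^ (1 : ℝ) := (Real.rpow_one _).symm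
      _ ≤ _ := Real.rpow_le_rpow_of_exponent_le hQr (le_max_right _ _)
  have h3 := h2 Q hQ1 P hPd
    (fun j => (hPB j).trans (Real.rpow_le_rpow_of_exponent_le hQr (le_max_left _ _)))
    (fun _ => 1) (fun i : Fin y => ((i : ℕ) + 1 : ℤ)) (fun _ => one_ne_zero) ?_ ?_ ?_ ?_ c hc
  · simp only [cnt_eq] at h3
    have hM : 0 ≤ (∑ n ∈ (range Q.factorial).filter (fun n : ℕ => Int.gcd (P.eval (n : ℤ)) Q.factorial = 1), wt Q c n) /
          (((range Q.factorial).filter (fun n : ℕ => Int.gcd (P.eval (n : ℤ)) Q.factorial = 1)).card : ℝ) := by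
      apply div_nonneg _ (Nat.cast_nonneg _)
      apply Finset.sum_nonneg
      intro n hn
      exact hc n (mem_filter.1 hn).2
    have hl : 0 ≤ Real.log Q := Real.log_natCast_nonneg Q
    refine ⟨le_trans h3.1 ?_, le_trans h3.2 ?_⟩
    · exact mul_le_mul_of_nonneg_right (by linarith [le_max_left C 0]) hM
    · rw [mul_assoc, mul_assoc]
      exact mul_le_mul_of_nonneg_right (by linarith [le_max_left C 0]) (mul_nonneg hl hM)
  · intro i h0
    have h4 := hb ((i : ℕ) + 1) (by rw [mem_Icc]; have := i.2; omega)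
    apply h4
    have h5 : Polynomial.aeval (-(((((i : ℕ) + 1 : ℤ)) : ℤ) : ℚ) / ((1 : ℤ) : ℚ)) P =
        ((P.eval (-((((i : ℕ) + 1 : ℕ)) : ℤ)) : ℤ) : ℚ) := by
      have h6 : (-(((((i : ℕ) + 1 : ℤ)) : ℤ) : ℚ) / ((1 : ℤ) : ℚ)) =
          algebraMap ℤ ℚ (-((((i : ℕ) + 1 : ℕ)) : ℤ)) := by
        simp
      rw [h6, Polynomial.aeval_algebraMap_apply]
      simp
    rw [h5] at h0
    exact_mod_cast h0
  · intro i j hij h0
    apply hij
    apply Fin.ext
    simp only [one_mul] at h0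
    omega
  · intro _
    simp only [Int.cast_one, abs_one]
    exact hQr.trans hQB
  · intro i
    have h5 : |((((i : ℕ) + 1 : ℤ) : ℤ) : ℝ)| = ((i : ℕ) : ℝ) + 1 := by
      push_cast
      rw [abs_of_nonneg (by positivity)]
    rw [h5]
    have h6 : ((i : ℕ) : ℝ) + 1 ≤ Q := by
      have := i.2
      exact_mod_cast (by omega : (i : ℕ) + 1 ≤ Q)
    exact h6.trans hQB


lemma logsq (D : ℝ) : ∃ k₀ : ℕ, 3 ≤ k₀ ∧ ∀ k : ℕ, k₀ ≤ k → D * (1 + Real.log k) ^ 2 ≤ k := by
  have h1 := (Real.isLittleO_pow_log_id_atTop (n := 2)).bound (c := 1 / (4 * (|D| + 1))) (by positivity)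
  have h2 := tendsto_natCast_atTop_atTop (R := ℝ) |>.eventually h1
  obtain ⟨k1, h3⟩ := Filter.eventually_atTop.1 h2
  refine ⟨max k1 3, le_max_right _ _, fun k hk => ?_⟩
  have h4 := h3 k ((le_max_left _ _).trans hk)
  have hk3 : 3 ≤ k := (le_max_right _ _).trans hk
  have hk3r : (3 : ℝ) ≤ k := by exact_mod_cast hk3
  have hl1 : 1 ≤ Real.log k := by
    rw [Real.le_log_iff_exp_le (by linarith)]
    exact Real.exp_one_lt_d9.le.trans (by linarith)
  simp only [id, Real.norm_eq_abs, abs_pow, Nat.abs_cast] at h4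
  rw [abs_of_nonneg (by linarith : (0 : ℝ) ≤ Real.log k)] at h4
  have h5 : (1 + Real.log k) ^ 2 ≤ 4 * Real.log k ^ 2 := by nlinarith
  have hD : D ≤ |D| + 1 := by linarith [le_abs_self D]
  have h6 : 0 < |D| + 1 := by positivity
  calc D * (1 + Real.log k) ^ 2 ≤ (|D| + 1) * (4 * Real.log k ^ 2) :=
        mul_le_mul hD h5 (by positivity) h6.le
    _ ≤ (|D| + 1) * (4 * (1 / (4 * (|D| + 1)) * k)) := by
        apply mul_le_mul_of_nonneg_left _ h6.le
        apply mul_le_mul_of_nonneg_left h4 (by norm_num)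
    _ = k := by field_simp

lemma cnt_sum (k m : ℕ) : (cnt k k m : ℝ) =
    ∑ j ∈ Icc 1 k, if Nat.Coprime k.factorial (m + j) then (1 : ℝ) else 0 := by
  classical
  have h1 : ∀ t : ℕ, (∀ p ∈ Icc (1 : ℕ) k, Nat.Prime p → ¬ p ∣ t) ↔ Nat.Coprime k.factorial t := by
    intro t
    rw [Nat.coprime_comm, cop_iff]
    constructor
    · intro h p hp hpp
      rw [mem_range] at hp
      exact h p (mem_Icc.2 ⟨hpp.one_lt.le, by omega⟩) hpp
    · intro h p hp hpp
      rw [mem_Icc] at hp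
      exact h p (mem_range.2 (by omega)) hpp
  have h2 : cnt k k m = ((Ioc m (m + k)).filter (fun t : ℕ => Nat.Coprime k.factorial t)).card := by
    unfold cnt
    congr 1
    apply Finset.filter_congr
    intro t _
    exact h1 t
  have h3 : Ioc m (m + k) = (Icc 1 k).image (fun j => m + j) := by
    ext t
    rw [mem_Ioc, mem_image]
    constructor
    · intro h
      exact ⟨t - m, by rw [mem_Icc]; omega, by omega⟩
    · rintro ⟨j, hj, rfl⟩
      rw [mem_Icc] at hj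
      omega
  rw [h2, Finset.card_filter, h3, Finset.sum_image (by intro a _ b _ h; simpa using h)]
  push_cast
  rfl

lemma exists_window (k : ℕ) :
    ∃ m : ℕ, (k : ℝ) * ∏ p ∈ (Icc 1 k).filter Nat.Prime, (1 - 1 / (p : ℝ)) ≤ cnt k k m := by
  by_contra hcon
  push Not at hcon
  have hM : 0 < k.factorial := k.factorial_pos
  have h1 : ∑ m ∈ range k.factorial, (cnt k k m : ℝ) = k * (Nat.totient k.factorial : ℝ) := by
    simp only [cnt_sum]
    rw [Finset.sum_comm]
    have h2 : ∀ j ∈ Icc 1 k, ∑ m ∈ range k.factorial, (if Nat.Coprime k.factorial (m + j) then (1 : ℝ) else 0) =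
        Nat.totient k.factorial := by
      intro j _
      have h3 := Nat.filter_coprime_Ico_eq_totient k.factorial j
      rw [← h3, Finset.card_filter]
      have h4 : Ico j (j + k.factorial) = (range k.factorial).image (fun m => m + j) := by
        ext t
        rw [mem_Ico, mem_image]
        constructor
        · intro h
          exact ⟨t - j, by rw [mem_range]; omega, by omega⟩
        · rintro ⟨m, hm, rfl⟩
          rw [mem_range] at hm
          omega
      rw [h4, Finset.sum_image (by intro a _ b _ h; simpa using h)]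
      push_cast
      rfl
    rw [Finset.sum_congr rfl h2, Finset.sum_const, Nat.card_Icc, nsmul_eq_mul]
    congr 2
  have h2 : ∑ m ∈ range k.factorial, (cnt k k m : ℝ) <
      ∑ m ∈ range k.factorial, (k : ℝ) * ∏ p ∈ (Icc 1 k).filter Nat.Prime, (1 - 1 / (p : ℝ)) :=
    Finset.sum_lt_sum_of_nonempty ⟨0, mem_range.2 hM⟩ (fun m _ => hcon m)
  rw [h1, Finset.sum_const, card_range, nsmul_eq_mul, tot_fact] at h2
  apply lt_irrefl _ (lt_of_le_of_lt (le_of_eq ?_) h2)
  ring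

/-- the conjectured value of the maximal number of primes is much larger than `log k` -/
theorem grow (A C δ : ℝ) (hδ : 0 < δ) : ∃ k₀ : ℕ, 1 ≤ k₀ ∧ ∀ k : ℕ, k₀ ≤ k → ∃ m : ℕ,
    A * Real.log k + C ≤ δ * cnt k k m := by
  obtain ⟨C', hC', h1⟩ := t_VQ.2
  obtain ⟨k₀, h3, h2⟩ := logsq ((|A| + |C|) * C' / δ)
  refine ⟨k₀, by omega, fun k hk => ?_⟩
  obtain ⟨m, hm⟩ := exists_window k
  refine ⟨m, ?_⟩
  have h4 := h2 k hk
  have hk1 : 1 ≤ k := by omega
  have h5 := h1 k hk1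
  set V := ∏ p ∈ (Icc 1 k).filter Nat.Prime, (1 - 1 / (p : ℝ)) with hV
  have hVp : 0 < V := Pool.Agent.Run7.h962.LP.euler_pos k
  have hl : 0 ≤ Real.log k := Real.log_natCast_nonneg k
  have hk0 : (0 : ℝ) < k := by exact_mod_cast hk1
  have h6 : A * Real.log k + C ≤ (|A| + |C|) * (1 + Real.log k) := by
    nlinarith [le_abs_self A, le_abs_self C, abs_nonneg A, abs_nonneg C, mul_nonneg (abs_nonneg C) hl,
      mul_nonneg (sub_nonneg.2 (le_abs_self A)) hl]
  have h7 : 1 ≤ V * (C' * (1 + Real.log k)) := by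
    have := mul_le_mul_of_nonneg_left h5 hVp.le
    rwa [mul_inv_cancel₀ hVp.ne'] at this
  have h8 : (|A| + |C|) * (1 + Real.log k) ≤ δ * (k * V) := by
    have h9 : (|A| + |C|) * C' * (1 + Real.log k) ^ 2 ≤ δ * k := by
      have h10 := mul_le_mul_of_nonneg_left h4 hδ.le
      calc (|A| + |C|) * C' * (1 + Real.log k) ^ 2 = δ * ((|A| + |C|) * C' / δ * (1 + Real.log k) ^ 2) := by
            field_simp
        _ ≤ _ := h10
    calc (|A| + |C|) * (1 + Real.log k) ≤ (|A| + |C|) * (1 + Real.log k) * (V * (C' * (1 + Real.log k))) :=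
          le_mul_of_one_le_right (by positivity) h7
      _ = ((|A| + |C|) * C' * (1 + Real.log k) ^ 2) * V := by ring
      _ ≤ (δ * k) * V := mul_le_mul_of_nonneg_right h9 hVp.le
      _ = δ * (k * V) := by ring
  calc A * Real.log k + C ≤ (|A| + |C|) * (1 + Real.log k) := h6
    _ ≤ δ * (k * V) := h8
    _ ≤ δ * cnt k k m := mul_le_mul_of_nonneg_left hm hδ.le

/-- the number of the primes up to `k` is much larger than `log k` -/
theorem grow_pi (A C : ℝ) : ∃ k₀ : ℕ, 1 ≤ k₀ ∧ ∀ k : ℕ, k₀ ≤ k → A * Real.log k + C ≤ Nat.primeCounting k := by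
  obtain ⟨k₀, h3, h2⟩ := logsq (2 * (|A| + |C| + 1))
  refine ⟨k₀, by omega, fun k hk => ?_⟩
  have h4 := h2 k hk
  have hk1 : 3 ≤ k := by omega
  have hk3r : (3 : ℝ) ≤ k := by exact_mod_cast hk1
  have hl1 : 1 ≤ Real.log k := by
    rw [Real.le_log_iff_exp_le (by linarith)]
    exact Real.exp_one_lt_d9.le.trans (by linarith)
  have hpi := Chebyshev.pi_ge k
  refine le_trans ?_ hpi
  rw [le_div_iff₀ (by linarith)]
  have h5 : Real.log ((k : ℝ) + 1) ≤ 1 + Real.log k := by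
    have h6 : Real.log ((k : ℝ) + 1) ≤ Real.log (k * Real.exp 1) := by
      apply Real.log_le_log (by linarith)
      have : (2 : ℝ) ≤ Real.exp 1 := by
        have := Real.add_one_le_exp (1 : ℝ)
        linarith
      nlinarith
    rw [Real.log_mul (by linarith) (Real.exp_ne_zero 1), Real.log_exp] at h6
    linarith
  have h6 : A * Real.log k + C ≤ (|A| + |C|) * (1 + Real.log k) := by
    nlinarith [le_abs_self A, le_abs_self C, abs_nonneg A, abs_nonneg C,
      mul_nonneg (abs_nonneg C) (by linarith : (0 : ℝ) ≤ Real.log k),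
      mul_nonneg (sub_nonneg.2 (le_abs_self A)) (by linarith : (0 : ℝ) ≤ Real.log k)]
  have h7 : (A * Real.log k + C) * Real.log k ≤ (|A| + |C|) * (1 + Real.log k) ^ 2 := by
    have h8 := mul_le_mul_of_nonneg_right h6 (by linarith : (0 : ℝ) ≤ Real.log k)
    have h9 : (|A| + |C|) * (1 + Real.log k) * Real.log k ≤ (|A| + |C|) * (1 + Real.log k) ^ 2 := by
      have : 0 ≤ (|A| + |C|) * (1 + Real.log k) := by positivity
      nlinarith
    linarith
  have h8 : 1 + Real.log k ≤ (1 + Real.log k) ^ 2 := by nlinarith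
  have h9 : Real.log 2 ≥ 1 / 2 := by linarith [Real.log_two_gt_d9]
  nlinarith

end Pool.Agent.Run7.h962.LF.Win
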