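import Pool.Agent.Run7.h962.LF.Poi

/-! # Consequences of the bound for all factorial moments (helper962) -/

set_option autoImplicit false

open Finset

namespace Pool.Agent.Run7.h962.LP

open Pool.Agent.N422.NW Pool.Agent.N422.NWS Pool.Agent.N422.SL Pool.Agent.Run7.h962.NW Pool.Agent.Run7.h962.LF

/-- the number of forms without prime factors up to `Q` at `n` -/
def frn (Q : ℕ) {k : ℕ} (a b : Fin k → ℤ) (n : ℕ) : ℕ :=
  (univ.filter (fun i => ∀ p ∈ Icc 1 Q, p.Prime → ¬ (p : ℤ) ∣ a i * n + b i)).card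

theorem fr_card (Q : ℕ) {k : ℕ} (a b : Fin k → ℤ) (n : ℕ) : (fr Q a b n).card = frn Q a b n := by
  unfold fr frn
  congr 1
  apply Finset.filter_congr
  intro i _
  constructor
  · intro h4 p hp hpp
    rw [mem_Icc] at hp
    exact h4 p (mem_range.2 (by omega)) hpp
  · intro h4 p hp hpp
    rw [mem_range] at hp
    exact h4 p (mem_Icc.2 ⟨hpp.one_lt.le, by omega⟩) hpp

theorem frn_le (Q : ℕ) {k : ℕ} (a b : Fin k → ℤ) (n : ℕ) : frn Q a b n ≤ k := by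
  unfold frn
  refine (Finset.card_le_univ _).trans ?_
  simp

/-- the `n` modulo `Q!` with `P(n)` prime to `Q!` -/
def sif (Q : ℕ) (P : Polynomial ℤ) : Finset ℕ :=
  (range Q.factorial).filter (fun n : ℕ => Int.gcd (P.eval (n : ℤ)) Q.factorial = 1)

theorem cop_sum (Q : ℕ) (P : Polynomial ℤ) (G : ℕ → ℝ) :
    ∑ n ∈ range Q.factorial, cop P Q.factorial n * G n = ∑ n ∈ sif Q P, G n := by
  unfold sif
  rw [Finset.sum_filter]
  apply Finset.sum_congr rfl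
  intro n _
  unfold cop
  split_ifs <;> simp

/-- the abstract consequences of a bound for the factorial moments -/
theorem moments {S : Finset ℕ} {w : ℕ → ℝ} {X : ℕ → ℕ} {L : ℝ} (hL : 0 ≤ L)
    (h : ∀ r : ℕ, ((r : ℝ) + 1) * ∑ n ∈ S, w n * ((X n).choose (r + 1) : ℝ) ≤ L * ∑ n ∈ S, w n * ((X n).choose r : ℝ)) :
    ∀ r : ℕ, (r.factorial : ℝ) * ∑ n ∈ S, w n * ((X n).choose r : ℝ) ≤ L ^ r * ∑ n ∈ S, w n := by
  intro r
  induction r with
  | zero => simp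
  | succ r ih =>
    have h1 := h r
    have h2 : (0 : ℝ) ≤ r.factorial := Nat.cast_nonneg _
    calc (((r + 1).factorial : ℕ) : ℝ) * ∑ n ∈ S, w n * ((X n).choose (r + 1) : ℝ)
        = (r.factorial : ℝ) * (((r : ℝ) + 1) * ∑ n ∈ S, w n * ((X n).choose (r + 1) : ℝ)) := by
          rw [Nat.factorial_succ]; push_cast; ring
      _ ≤ (r.factorial : ℝ) * (L * ∑ n ∈ S, w n * ((X n).choose r : ℝ)) := mul_le_mul_of_nonneg_left h1 h2
      _ = L * ((r.factorial : ℝ) * ∑ n ∈ S, w n * ((X n).choose r : ℝ)) := by ring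
      _ ≤ L * (L ^ r * ∑ n ∈ S, w n) := mul_le_mul_of_nonneg_left ih hL
      _ = _ := by ring

theorem pow_eq_sum (t : ℝ) (x k : ℕ) (hx : x ≤ k) :
    (1 + t) ^ x = ∑ r ∈ range (k + 1), (x.choose r : ℝ) * t ^ r := by
  rw [add_comm, add_pow]
  simp only [one_pow, mul_one]
  have hsub : range (x + 1) ⊆ range (k + 1) := by
    intro i hi
    rw [mem_range] at hi ⊢
    omega
  rw [← Finset.sum_subset hsub]
  · apply Finset.sum_congr rfl
    intro r _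
    ring
  · intro r _ hr
    rw [mem_range, not_lt] at hr
    rw [Nat.choose_eq_zero_of_lt (by omega)]
    simp

theorem expMoment {S : Finset ℕ} {w : ℕ → ℝ} {X : ℕ → ℕ} {L : ℝ} (hL : 0 ≤ L) {k : ℕ} (hX : ∀ n, X n ≤ k)
    (hw : 0 ≤ ∑ n ∈ S, w n)
    (h : ∀ r : ℕ, (r.factorial : ℝ) * ∑ n ∈ S, w n * ((X n).choose r : ℝ) ≤ L ^ r * ∑ n ∈ S, w n) (t : ℝ) (ht : 0 ≤ t) :
    ∑ n ∈ S, w n * (1 + t) ^ (X n) ≤ Real.exp (t * L) * ∑ n ∈ S, w n := by
  have h1 : ∑ n ∈ S, w n * (1 + t) ^ (X n) = ∑ r ∈ range (k + 1), t ^ r * ∑ n ∈ S, w n * ((X n).choose r : ℝ) := by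
    simp only [Finset.mul_sum]
    rw [Finset.sum_comm]
    apply Finset.sum_congr rfl
    intro n _
    rw [pow_eq_sum t (X n) k (hX n), Finset.mul_sum]
    apply Finset.sum_congr rfl
    intro r _
    ring
  rw [h1]
  have h2 : ∀ r ∈ range (k + 1), t ^ r * ∑ n ∈ S, w n * ((X n).choose r : ℝ) ≤
      ((t * L) ^ r / (r.factorial : ℝ)) * ∑ n ∈ S, w n := by
    intro r _
    have h3 : (0 : ℝ) < r.factorial := by exact_mod_cast Nat.factorial_pos r
    have h4 : ∑ n ∈ S, w n * ((X n).choose r : ℝ) ≤ (L ^ r * ∑ n ∈ S, w n) / r.factorial := by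
      rw [le_div_iff₀ h3, mul_comm]
      exact h r
    calc t ^ r * ∑ n ∈ S, w n * ((X n).choose r : ℝ) ≤ t ^ r * ((L ^ r * ∑ n ∈ S, w n) / r.factorial) :=
          mul_le_mul_of_nonneg_left h4 (by positivity)
      _ = _ := by rw [mul_pow]; ring
  refine (Finset.sum_le_sum h2).trans ?_
  rw [← Finset.sum_mul]
  exact mul_le_mul_of_nonneg_right (Real.sum_le_exp_of_nonneg (mul_nonneg ht hL) _) hw

theorem tail {S : Finset ℕ} {w : ℕ → ℝ} {X : ℕ → ℕ} {L : ℝ} (hL : 0 < L) {k : ℕ} (hX : ∀ n, X n ≤ k)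
    (hw : ∀ n ∈ S, 0 ≤ w n)
    (h : ∀ r : ℕ, (r.factorial : ℝ) * ∑ n ∈ S, w n * ((X n).choose r : ℝ) ≤ L ^ r * ∑ n ∈ S, w n) (m : ℕ)
    (hm : L ≤ m) :
    ∑ n ∈ S.filter (fun n => m ≤ X n), w n ≤ (Real.exp (m - L) * (L / m) ^ m) * ∑ n ∈ S, w n := by
  have hm0 : (0 : ℝ) < m := lt_of_lt_of_le hL hm
  have hS : 0 ≤ ∑ n ∈ S, w n := Finset.sum_nonneg hw
  have ht : 0 ≤ (m : ℝ) / L - 1 := by
    rw [sub_nonneg, le_div_iff₀ hL, one_mul]
    exact hm
  have h1 := expMoment hL.le hX hS h ((m : ℝ) / L - 1) ht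
  have e1 : 1 + ((m : ℝ) / L - 1) = m / L := by ring
  have e2 : ((m : ℝ) / L - 1) * L = m - L := by field_simp
  rw [e1, e2] at h1
  have hb : 1 ≤ (m : ℝ) / L := by linarith
  have h2 : (∑ n ∈ S.filter (fun n => m ≤ X n), w n) * ((m : ℝ) / L) ^ m ≤ ∑ n ∈ S, w n * ((m : ℝ) / L) ^ (X n) := by
    rw [Finset.sum_mul, Finset.sum_filter]
    apply Finset.sum_le_sum
    intro n hn
    split_ifs with h3
    · exact mul_le_mul_of_nonneg_left (pow_le_pow_right₀ hb h3) (hw n hn)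
    · exact mul_nonneg (hw n hn) (by positivity)
  have h3 : (L / m) ^ m * ((m : ℝ) / L) ^ m = 1 := by
    rw [← mul_pow]
    have : L / m * (m / L) = 1 := by field_simp
    rw [this, one_pow]
  have h4 := mul_le_mul_of_nonneg_left (h2.trans h1) (show 0 ≤ (L / m) ^ m by positivity)
  calc ∑ n ∈ S.filter (fun n => m ≤ X n), w n
      = (L / m) ^ m * ((∑ n ∈ S.filter (fun n => m ≤ X n), w n) * ((m : ℝ) / L) ^ m) := by
        rw [mul_comm (∑ n ∈ S.filter (fun n => m ≤ X n), w n), ← mul_assoc, h3, one_mul]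
    _ ≤ (L / m) ^ m * (Real.exp (m - L) * ∑ n ∈ S, w n) := h4
    _ = _ := by ring

/-- near-extremal weights concentrate -/
theorem concentration {S : Finset ℕ} {w : ℕ → ℝ} {X : ℕ → ℕ} {L : ℝ} (hL : 0 ≤ L)
    (h : ∀ r : ℕ, (r.factorial : ℝ) * ∑ n ∈ S, w n * ((X n).choose r : ℝ) ≤ L ^ r * ∑ n ∈ S, w n) (η : ℝ)
    (hη : (1 - η) * L * ∑ n ∈ S, w n ≤ ∑ n ∈ S, w n * (X n : ℝ)) :
    ∑ n ∈ S, w n * ((X n : ℝ) - L) ^ 2 ≤ (2 * η * L ^ 2 + L) * ∑ n ∈ S, w n := by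
  have h1 := h 1
  have h2 := h 2
  simp only [Nat.factorial_one, Nat.cast_one, one_mul, Nat.choose_one_right, pow_one, Nat.factorial_two,
    Nat.cast_ofNat] at h1 h2
  have e : ∑ n ∈ S, w n * ((X n : ℝ) - L) ^ 2 = 2 * ∑ n ∈ S, w n * ((X n).choose 2 : ℝ) +
      (1 - 2 * L) * ∑ n ∈ S, w n * (X n : ℝ) + L ^ 2 * ∑ n ∈ S, w n := by
    rw [Finset.mul_sum, Finset.mul_sum, Finset.mul_sum, ← Finset.sum_add_distrib, ← Finset.sum_add_distrib]
    apply Finset.sum_congr rfl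
    intro n _
    have h3 : ((X n).choose 2 : ℝ) = (X n : ℝ) * ((X n : ℝ) - 1) / 2 := Nat.cast_choose_two ℝ (X n)
    rw [h3]
    ring
  rw [e]
  nlinarith [mul_le_mul_of_nonneg_left hη (mul_nonneg (zero_le_two (α := ℝ)) hL)]

/-- **the final form** -/
theorem poisson_all : ∀ ε : ℝ, 0 < ε → ∃ C : ℝ, 0 < C ∧ ∀ (k g : ℕ) (B : ℝ), 1 ≤ k → ∃ Q0 : ℕ, ∀ Q : ℕ, Q0 ≤ Q →
    ∀ P : Polynomial ℤ, P.natDegree ≤ g → (∀ j, |(P.coeff j : ℝ)| ≤ (Q : ℝ) ^ B) →
    ∀ a b : Fin k → ℤ, (∀ i, a i ≠ 0) → (∀ i, Polynomial.aeval (-(b i : ℚ) / a i) P ≠ 0) →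
    (∀ i j, i ≠ j → a i * b j ≠ a j * b i) →
    (∀ i, |(a i : ℝ)| ≤ (Q : ℝ) ^ B) → (∀ i, |(b i : ℝ)| ≤ (Q : ℝ) ^ B) →
    ∀ c : ℕ → ℕ → ℝ, (∀ n : ℕ, Int.gcd (P.eval (n : ℤ)) Q.factorial = 1 → 0 ≤ wt Q c n) →
    (∀ r : ℕ, (r.factorial : ℝ) * ∑ n ∈ sif Q P, wt Q c n * ((frn Q a b n).choose r : ℝ) ≤
      ((Real.exp (-Real.eulerMascheroniConstant) / 2 + ε) * Real.log k + C) ^ r * ∑ n ∈ sif Q P, wt Q c n) ∧
    (∀ r : ℕ, (r.factorial : ℝ) * ((∏ p ∈ (Icc 1 Q).filter Nat.Prime, (1 - 1 / (p : ℝ)))⁻¹ ^ r *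
      ∑ n ∈ sif Q P, wt Q c n * ((frn Q a b n).choose r : ℝ)) ≤
      (((1 / 2 + ε) * Real.log k + C) * Real.log Q) ^ r * ∑ n ∈ sif Q P, wt Q c n) := by
  intro ε hε
  set G := Real.exp Real.eulerMascheroniConstant with hG
  have hG0 : 0 < G := Real.exp_pos _
  have hGi : Real.exp (-Real.eulerMascheroniConstant) = G⁻¹ := by rw [Real.exp_neg]
  set δ1 : ℝ := min ε (ε / (2 * (G + 1))) with hδ1
  have hδ1p : 0 < δ1 := by positivity
  set δ2 : ℝ := min 1 (G * ε) with hδ2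
  have hδ2p : 0 < δ2 := by positivity
  obtain ⟨C, hC, h1⟩ := poisson δ1 hδ1p
  obtain ⟨Q1, h2⟩ := t_VQ.1 δ2 hδ2p
  refine ⟨C * (G + 1) + 1, by positivity, fun k g B hk => ?_⟩
  obtain ⟨Q0, h3⟩ := h1 k g B
  refine ⟨max Q0 Q1, fun Q hQ P hPd hPB a b ha hb hab haB hbB c hc => ?_⟩
  have hQ0 : Q0 ≤ Q := le_trans (le_max_left _ _) hQ
  have hQ1 : Q1 ≤ Q := le_trans (le_max_right _ _) hQ
  have h4 := h3 Q hQ0 P hPd hPB a b ha hb hab haB hbB c hc
  have h5 := h2 Q hQ1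
  have hlogk : 0 ≤ Real.log k := Real.log_nonneg (by exact_mod_cast hk)
  have hlogQ : 0 ≤ Real.log Q := Real.log_natCast_nonneg Q
  have hS : 0 ≤ ∑ n ∈ sif Q P, wt Q c n := by
    apply Finset.sum_nonneg
    intro n hn
    exact hc n (mem_filter.1 hn).2
  have hL : 0 ≤ (Real.exp (-Real.eulerMascheroniConstant) / 2 + δ1) * Real.log k + C := by positivity
  have h6 : ∀ r : ℕ, ((r : ℝ) + 1) * ∑ n ∈ sif Q P, wt Q c n * ((frn Q a b n).choose (r + 1) : ℝ) ≤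
      ((Real.exp (-Real.eulerMascheroniConstant) / 2 + δ1) * Real.log k + C) *
        ∑ n ∈ sif Q P, wt Q c n * ((frn Q a b n).choose r : ℝ) := by
    intro r
    have h7 := h4 r
    rw [cop_sum Q P (fun n => wt Q c n * ((fr Q a b n).card.choose (r + 1) : ℝ)),
      cop_sum Q P (fun n => wt Q c n * ((fr Q a b n).card.choose r : ℝ))] at h7
    simp only [fr_card] at h7
    exact h7
  have h7 := moments hL h6
  set V := ∏ p ∈ (Icc 1 Q).filter Nat.Prime, (1 - 1 / (p : ℝ)) with hV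
  have hVp : 0 < V := euler_pos Q
  constructor
  · intro r
    refine (h7 r).trans (mul_le_mul_of_nonneg_right (pow_le_pow_left₀ hL ?_ r) hS)
    have h8 : (Real.exp (-Real.eulerMascheroniConstant) / 2 + δ1) * Real.log k ≤
        (Real.exp (-Real.eulerMascheroniConstant) / 2 + ε) * Real.log k :=
      mul_le_mul_of_nonneg_right (by linarith [min_le_left ε (ε / (2 * (G + 1)))]) hlogk
    have h9 : C ≤ C * (G + 1) := by nlinarith
    linarith
  · intro r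
    have h10 : V⁻¹ * ((Real.exp (-Real.eulerMascheroniConstant) / 2 + δ1) * Real.log k + C) ≤
        ((1 / 2 + ε) * Real.log k + (C * (G + 1) + 1)) * Real.log Q := by
      refine (mul_le_mul_of_nonneg_right h5 hL).trans ?_
      rw [hGi]
      have h8 : (G + δ2) * ((G⁻¹ / 2 + δ1) * Real.log k + C) ≤ (1 / 2 + ε) * Real.log k + C * (G + 1) := by
        have h9 : (G + δ2) * (G⁻¹ / 2 + δ1) ≤ 1 / 2 + ε := by
          have h10 : (G + δ2) * δ1 ≤ ε / 2 := by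
            have : (G + δ2) * δ1 ≤ (G + 1) * (ε / (2 * (G + 1))) := by
              apply mul_le_mul _ (min_le_right _ _) hδ1p.le (by positivity)
              have := min_le_left 1 (G * ε)
              linarith
            refine this.trans (le_of_eq ?_)
            field_simp
          have h11 : δ2 * (G⁻¹ / 2) ≤ ε / 2 := by
            have : δ2 * (G⁻¹ / 2) ≤ (G * ε) * (G⁻¹ / 2) :=
              mul_le_mul_of_nonneg_right (min_le_right _ _) (by positivity)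
            refine this.trans (le_of_eq ?_)
            field_simp
          have h12 : G * (G⁻¹ / 2) = 1 / 2 := by field_simp
          calc (G + δ2) * (G⁻¹ / 2 + δ1) = G * (G⁻¹ / 2) + δ2 * (G⁻¹ / 2) + (G + δ2) * δ1 := by ring
            _ ≤ 1 / 2 + ε / 2 + ε / 2 := by linarith
            _ = 1 / 2 + ε := by ring
        have h13 : (G + δ2) * C ≤ C * (G + 1) := by
          have := min_le_left 1 (G * ε)
          nlinarith
        calc (G + δ2) * ((G⁻¹ / 2 + δ1) * Real.log k + C)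
            = ((G + δ2) * (G⁻¹ / 2 + δ1)) * Real.log k + (G + δ2) * C := by ring
          _ ≤ (1 / 2 + ε) * Real.log k + C * (G + 1) := add_le_add (mul_le_mul_of_nonneg_right h9 hlogk) h13
      calc (G + δ2) * Real.log Q * ((G⁻¹ / 2 + δ1) * Real.log k + C)
          = ((G + δ2) * ((G⁻¹ / 2 + δ1) * Real.log k + C)) * Real.log Q := by ring
        _ ≤ ((1 / 2 + ε) * Real.log k + C * (G + 1)) * Real.log Q := mul_le_mul_of_nonneg_right h8 hlogQ
        _ ≤ _ := mul_le_mul_of_nonneg_right (by linarith) hlogQ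
    have h11 : 0 ≤ V⁻¹ * ((Real.exp (-Real.eulerMascheroniConstant) / 2 + δ1) * Real.log k + C) :=
      mul_nonneg (inv_pos.2 hVp).le hL
    calc (r.factorial : ℝ) * (V⁻¹ ^ r * ∑ n ∈ sif Q P, wt Q c n * ((frn Q a b n).choose r : ℝ))
        = V⁻¹ ^ r * ((r.factorial : ℝ) * ∑ n ∈ sif Q P, wt Q c n * ((frn Q a b n).choose r : ℝ)) := by ring
      _ ≤ V⁻¹ ^ r * (((Real.exp (-Real.eulerMascheroniConstant) / 2 + δ1) * Real.log k + C) ^ r *
          ∑ n ∈ sif Q P, wt Q c n) := mul_le_mul_of_nonneg_left (h7 r) (by positivity)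
      _ = (V⁻¹ * ((Real.exp (-Real.eulerMascheroniConstant) / 2 + δ1) * Real.log k + C)) ^ r *
          ∑ n ∈ sif Q P, wt Q c n := by rw [mul_pow]; ring
      _ ≤ _ := mul_le_mul_of_nonneg_right (pow_le_pow_left₀ h11 h10 r) hS

end Pool.Agent.Run7.h962.LP
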