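import Pool.Agent.Run7.h962.LF.PoiFin

/-! # The bound for all factorial moments, for shifts (helper962) -/

set_option autoImplicit false

open Finset

namespace Pool.Agent.Run7.h962.LP

open Pool.Agent.N422.NW Pool.Agent.N422.NWS Pool.Agent.N422.SL Pool.Agent.Run7.h962.NW Pool.Agent.Run7.h962.LF

/-- the `h ∈ H` for which `n + h` has no prime factor `≤ Q` -/
def frH (Q : ℕ) (H : Finset ℕ) (n : ℕ) : Finset ℕ :=
  H.filter (fun h => ∀ p ∈ Icc 1 Q, p.Prime → ¬ p ∣ n + h)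

theorem frn_frH (Q : ℕ) (H : Finset ℕ) {k : ℕ} (hk : H.card = k) (n : ℕ) :
    frn Q (fun _ : Fin k => (1 : ℤ)) (fun i => ((H.orderEmbOfFin hk i : ℕ) : ℤ)) n = (frH Q H n).card := by
  classical
  unfold frn frH
  apply Finset.card_bij (fun i _ => H.orderEmbOfFin hk i)
  · intro i hi
    rw [mem_filter] at hi ⊢
    refine ⟨H.orderEmbOfFin_mem hk i, fun p hp hpp hd => hi.2 p hp hpp ?_⟩
    rw [one_mul]
    show (p : ℤ) ∣ (n : ℤ) + ((H.orderEmbOfFin hk i : ℕ) : ℤ)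
    exact_mod_cast hd
  · intro i _ j _ hij
    exact (H.orderEmbOfFin hk).injective hij
  · intro h hh
    rw [mem_filter] at hh
    have h1 : h ∈ Set.range (H.orderEmbOfFin hk) := by
      rw [Finset.range_orderEmbOfFin]
      exact hh.1
    obtain ⟨i, hi⟩ := h1
    refine ⟨i, ?_, hi⟩
    rw [mem_filter]
    refine ⟨mem_univ _, fun p hp hpp hd => hh.2 p hp hpp ?_⟩
    rw [one_mul] at hd
    have hd' : (p : ℤ) ∣ (n : ℤ) + ((H.orderEmbOfFin hk i : ℕ) : ℤ) := hd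
    rw [hi] at hd'
    exact_mod_cast hd'

/-- the polynomial of the prescribed shifts -/
noncomputable def PA (A : Finset ℕ) : Polynomial ℤ :=
  ∏ a ∈ A, (Polynomial.X + Polynomial.C (a : ℤ))

theorem PA_eval (A : Finset ℕ) (x : ℤ) : (PA A).eval x = ∏ a ∈ A, (x + a) := by
  unfold PA
  rw [Polynomial.eval_prod]
  apply Finset.prod_congr rfl
  intro a _
  simp

theorem PA_eq (A : Finset ℕ) : PA A = PR (1 : Polynomial ℤ) (fun _ : Fin A.card => (1 : ℤ))
    (fun i => ((A.orderEmbOfFin rfl i : ℕ) : ℤ)) univ := by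
  unfold PA PR
  rw [one_mul]
  have h1 : A = univ.map (A.orderEmbOfFin rfl).toEmbedding := by
    ext x
    rw [mem_map]
    constructor
    · intro hx
      have h1 : x ∈ Set.range (A.orderEmbOfFin rfl) := by
        rw [Finset.range_orderEmbOfFin]
        exact hx
      obtain ⟨i, hi⟩ := h1
      exact ⟨i, mem_univ _, hi⟩
    · rintro ⟨i, _, hi⟩
      rw [← hi]
      exact A.orderEmbOfFin_mem rfl i
  conv_lhs => rw [h1]
  rw [Finset.prod_map]
  apply Finset.prod_congr rfl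
  intro i _
  simp

theorem PA_gcd (A : Finset ℕ) (Q n : ℕ) :
    Int.gcd ((PA A).eval (n : ℤ)) Q.factorial = 1 ↔ frH Q A n = A := by
  classical
  rw [PA_eval]
  have key : ∀ T : Finset ℕ, Int.gcd (∏ a ∈ T, ((n : ℤ) + a)) (Q.factorial : ℕ) = 1 ↔
      ∀ a ∈ T, ∀ p ∈ Icc 1 Q, p.Prime → ¬ p ∣ n + a := by
    intro T
    induction T using Finset.induction_on with
    | empty => simp
    | insert a T ha ih =>
      rw [Finset.prod_insert ha, gcd_mul_iff, ih, Finset.forall_mem_insert, gcd_iff]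
      constructor
      · rintro ⟨h1, h2⟩
        refine ⟨fun p hp hpp hd => h1 p ?_ hpp ?_, h2⟩
        · rw [mem_Icc] at hp
          rw [mem_range]
          omega
        · exact_mod_cast hd
      · rintro ⟨h1, h2⟩
        refine ⟨fun p hp hpp hd => h1 p ?_ hpp ?_, h2⟩
        · rw [mem_range] at hp
          exact mem_Icc.2 ⟨hpp.one_lt.le, by omega⟩
        · exact_mod_cast hd
  rw [key A]
  unfold frH
  rw [Finset.filter_eq_self]

theorem sif_PA (A : Finset ℕ) (Q : ℕ) : sif Q (PA A) = (range Q.factorial).filter (fun n => frH Q A n = A) := by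
  unfold sif
  apply Finset.filter_congr
  intro n _
  exact PA_gcd A Q n

/-- **all factorial moments for shifts**, at the `n` with `n + a` free for the prescribed `a ∈ A` -/
theorem shifts_all : ∀ ε : ℝ, 0 < ε → ∃ C : ℝ, 0 < C ∧ ∀ (k g : ℕ) (B : ℝ), 1 ≤ k → ∃ Q0 : ℕ, ∀ Q : ℕ, Q0 ≤ Q →
    ∀ A H : Finset ℕ, A.card ≤ g → H.card = k → Disjoint A H → (∀ h ∈ A ∪ H, (h : ℝ) ≤ (Q : ℝ) ^ B) →
    ∀ c : ℕ → ℕ → ℝ, (∀ n : ℕ, frH Q A n = A → 0 ≤ wt Q c n) →
    (∀ r : ℕ, (r.factorial : ℝ) * ∑ n ∈ (range Q.factorial).filter (fun n => frH Q A n = A),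
        wt Q c n * ((frH Q H n).card.choose r : ℝ) ≤
      ((Real.exp (-Real.eulerMascheroniConstant) / 2 + ε) * Real.log k + C) ^ r *
        ∑ n ∈ (range Q.factorial).filter (fun n => frH Q A n = A), wt Q c n) ∧
    (∀ r : ℕ, (r.factorial : ℝ) * ((∏ p ∈ (Icc 1 Q).filter Nat.Prime, (1 - 1 / (p : ℝ)))⁻¹ ^ r *
      ∑ n ∈ (range Q.factorial).filter (fun n => frH Q A n = A), wt Q c n * ((frH Q H n).card.choose r : ℝ)) ≤
      (((1 / 2 + ε) * Real.log k + C) * Real.log Q) ^ r *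
        ∑ n ∈ (range Q.factorial).filter (fun n => frH Q A n = A), wt Q c n) := by
  intro ε hε
  obtain ⟨C, hC, h1⟩ := poisson_all ε hε
  refine ⟨C, hC, fun k g B0 hk => ?_⟩
  obtain ⟨B, hB⟩ : ∃ B : ℝ, B = max B0 0 := ⟨_, rfl⟩
  have hB0 : 0 ≤ B := by rw [hB]; exact le_max_right _ _
  have hB1 : B0 ≤ B := by rw [hB]; exact le_max_left _ _
  obtain ⟨Q0, h2⟩ := h1 k g (B * (g + 1) + 1) hk
  refine ⟨Q0 + 2 ^ g, fun Q hQ A H hA hH hAH hb c hc => ?_⟩
  have hQ0 : Q0 ≤ Q := (Nat.le_add_right _ _).trans hQ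
  have hQg : 2 ^ g ≤ Q := (Nat.le_add_left _ _).trans hQ
  have hQ1 : 1 ≤ Q := le_trans Nat.one_le_two_pow hQg
  have hQr : (1 : ℝ) ≤ Q := by exact_mod_cast hQ1
  have hQB : (Q : ℝ) ^ B0 ≤ (Q : ℝ) ^ B := Real.rpow_le_rpow_of_exponent_le hQr hB1
  have hX : 0 ≤ (Q : ℝ) ^ B := Real.rpow_nonneg (by linarith) _
  have hX1 : 1 ≤ (Q : ℝ) ^ B := Real.one_le_rpow hQr hB0
  have hbig : ∀ s : ℕ, s ≤ g → (2 * (Q : ℝ) ^ B) ^ s * (Q : ℝ) ^ B ≤ (Q : ℝ) ^ (B * (g + 1) + 1) := by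
    intro s hs
    rw [mul_pow]
    have h1 : (2 : ℝ) ^ s ≤ Q := by
      have : (2 : ℝ) ^ g ≤ Q := by exact_mod_cast hQg
      exact (pow_le_pow_right₀ (by norm_num) hs).trans this
    have h2 : ((Q : ℝ) ^ B) ^ s * (Q : ℝ) ^ B ≤ (Q : ℝ) ^ (B * (g + 1)) := by
      rw [← pow_succ, Real.rpow_mul (by linarith)]
      have : ((Q : ℝ) ^ B) ^ ((g : ℝ) + 1) = ((Q : ℝ) ^ B) ^ (g + 1) := by
        rw [← Real.rpow_natCast]
        push_cast
        rfl
      rw [this]
      exact pow_le_pow_right₀ hX1 (by omega)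
    have h3 : (Q : ℝ) ^ (B * (g + 1) + 1) = Q * (Q : ℝ) ^ (B * (g + 1)) := by
      rw [Real.rpow_add (by linarith), Real.rpow_one, mul_comm]
    rw [h3, mul_assoc]
    exact mul_le_mul h1 h2 (by positivity) (by linarith)
  have hsmall : (Q : ℝ) ^ B ≤ (Q : ℝ) ^ (B * (g + 1) + 1) := by
    have := hbig 0 (Nat.zero_le _)
    simpa using this
  have hone : (1 : ℝ) ≤ (Q : ℝ) ^ (B * (g + 1) + 1) := Real.one_le_rpow hQr (by positivity)
  have hdeg : (PA A).natDegree ≤ g := by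
    rw [PA_eq]
    have := PR_degree (1 : Polynomial ℤ) 0 (by simp) (fun _ : Fin A.card => (1 : ℤ))
      (fun i => ((A.orderEmbOfFin rfl i : ℕ) : ℤ)) univ
    rw [Finset.card_univ, Fintype.card_fin] at this
    omega
  have hcoef : ∀ j, |((PA A).coeff j : ℝ)| ≤ (Q : ℝ) ^ (B * (g + 1) + 1) := by
    intro j
    rw [PA_eq]
    refine (PR_coeff (1 : Polynomial ℤ) ((Q : ℝ) ^ B) hX ?_ (fun _ : Fin A.card => (1 : ℤ))
      (fun i => ((A.orderEmbOfFin rfl i : ℕ) : ℤ)) ?_ ?_ univ j).trans ?_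
    · intro j
      rw [Polynomial.coeff_one]
      split_ifs
      · simpa using hX1
      · simpa using hX
    · intro i
      simpa using hX1
    · intro i
      have h3 := hb _ (mem_union_left H (A.orderEmbOfFin_mem rfl i))
      rw [Int.cast_natCast, abs_of_nonneg (Nat.cast_nonneg _)]
      exact h3.trans hQB
    · rw [Finset.card_univ, Fintype.card_fin]
      exact hbig _ hA
  have hne : ∀ i : Fin k, Polynomial.aeval (-((((H.orderEmbOfFin hH i : ℕ) : ℤ) : ℚ)) / (((1 : ℤ)) : ℚ)) (PA A) ≠ 0 := by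
    intro i
    unfold PA
    rw [map_prod, Finset.prod_ne_zero_iff]
    intro a ha h0
    rw [map_add, Polynomial.aeval_X, Polynomial.aeval_C] at h0
    have h1 : (a : ℚ) = ((H.orderEmbOfFin hH i : ℕ) : ℚ) := by
      simp at h0
      linarith
    have h2 : a = H.orderEmbOfFin hH i := by exact_mod_cast h1
    exact Finset.disjoint_left.1 hAH ha (h2 ▸ H.orderEmbOfFin_mem hH i)
  have h3 := h2 Q hQ0 (PA A) hdeg hcoef (fun _ : Fin k => (1 : ℤ)) (fun i => ((H.orderEmbOfFin hH i : ℕ) : ℤ))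
    (fun _ => one_ne_zero) hne (fun i j hij h => by
      rw [one_mul, one_mul] at h
      exact hij ((H.orderEmbOfFin hH).injective (by exact_mod_cast h.symm)))
    (fun i => by simpa using hone)
    (fun i => by
      have h3 := hb _ (mem_union_right A (H.orderEmbOfFin_mem hH i))
      rw [Int.cast_natCast, abs_of_nonneg (Nat.cast_nonneg _)]
      exact (h3.trans hQB).trans hsmall) c (fun n hn => hc n ((PA_gcd A Q n).1 hn))
  rw [sif_PA] at h3
  simp only [frn_frH] at h3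
  exact h3

end Pool.Agent.Run7.h962.LP
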