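import Pool.Agent.Run7.h962.LF.Lin
import Pool.Agent.Run7.h962.LF.ARP

/-! # The sharp limit of nonnegative sieve weights on the integers at which a polynomial has no small prime factors
(helper962) -/

set_option autoImplicit false

open Finset

namespace Pool.Agent.Run7.h962.LP

open Pool.Agent.N422.NW Pool.Agent.N422.NWS Pool.Agent.N422.SL Pool.Agent.Run7.h962.NW Pool.Agent.Run7.h962.LF

/-- the resultant of `P` (as a polynomial of degree `g`) and `a x + b` -/
def res (P : Polynomial ℤ) (g : ℕ) (a b : ℤ) : ℤ := ∑ j ∈ range (g + 1), P.coeff j * (-b) ^ j * a ^ (g - j)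

theorem res_eval (P : Polynomial ℤ) (g : ℕ) (a b : ℤ) (hg : P.natDegree ≤ g) (ha : a ≠ 0) :
    ((res P g a b : ℤ) : ℚ) = (a : ℚ) ^ g * Polynomial.aeval (-(b : ℚ) / a) P := by
  have haq : (a : ℚ) ≠ 0 := by exact_mod_cast ha
  rw [Polynomial.aeval_def, Polynomial.eval₂_eq_sum_range' _ (Nat.lt_succ_of_le hg)]
  unfold res
  rw [Finset.mul_sum]
  push_cast
  apply Finset.sum_congr rfl
  intro j hj
  rw [mem_range] at hj
  have e : (a : ℚ) ^ g = (a : ℚ) ^ (g - j) * (a : ℚ) ^ j := by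
    rw [← pow_add]
    congr 1
    omega
  rw [e, div_pow]
  simp only [eq_intCast]
  field_simp

theorem res_dvd (P : Polynomial ℤ) (g : ℕ) (a b x q : ℤ) (hg : P.natDegree ≤ g) (h1 : q ∣ a * x + b)
    (h2 : q ∣ P.eval x) : q ∣ res P g a b := by
  have h3 : q ∣ a ^ g * P.eval x - res P g a b := by
    rw [Polynomial.eval_eq_sum_range' (Nat.lt_succ_of_le hg)]
    unfold res
    rw [Finset.mul_sum, ← Finset.sum_sub_distrib]
    apply Finset.dvd_sum
    intro j hj
    rw [mem_range] at hj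
    have e : a ^ g = a ^ (g - j) * a ^ j := by
      rw [← pow_add]
      congr 1
      omega
    have e2 : a ^ g * (P.coeff j * x ^ j) - P.coeff j * (-b) ^ j * a ^ (g - j) =
        P.coeff j * a ^ (g - j) * ((a * x) ^ j - (-b) ^ j) := by
      rw [e]
      ring
    rw [e2]
    apply Dvd.dvd.mul_left
    refine dvd_trans ?_ (sub_dvd_pow_sub_pow _ _ _)
    rw [sub_neg_eq_add]
    exact h1
  have h4 := dvd_sub (Dvd.dvd.mul_left h2 (a ^ g)) h3
  simpa using h4

theorem rho_le (P : Polynomial ℤ) (g q : ℕ) (a b : ℤ) (hg : P.natDegree ≤ g) (hq : q.Prime)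
    (h : ¬ (q : ℤ) ∣ res P g a b) : rho P q ≤ g := by
  classical
  have : Fact q.Prime := ⟨hq⟩
  set R := P.map (Int.castRingHom (ZMod q)) with hR
  have hR0 : R ≠ 0 := by
    intro h0
    apply h
    unfold res
    apply Finset.dvd_sum
    intro j _
    have h1 : R.coeff j = 0 := by rw [h0]; simp
    rw [hR, Polynomial.coeff_map] at h1
    have h2 : (q : ℤ) ∣ P.coeff j := by
      rw [← ZMod.intCast_zmod_eq_zero_iff_dvd] 
      simpa using h1
    exact Dvd.dvd.mul_right (Dvd.dvd.mul_right h2 _) _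
  have h1 : rho P q ≤ R.roots.toFinset.card := by
    unfold rho
    apply Finset.card_le_card_of_injOn (fun y : ℕ => (y : ZMod q))
    · intro y hy
      rw [Finset.mem_coe, mem_filter, mem_range] at hy
      rw [Finset.mem_coe, Multiset.mem_toFinset, Polynomial.mem_roots hR0, Polynomial.IsRoot.def, hR]
      have h2 := (ZMod.intCast_zmod_eq_zero_iff_dvd (P.eval (y : ℤ)) q).2 hy.2
      rw [Polynomial.eval_map]
      have h3 : ((P.eval (y : ℤ) : ℤ) : ZMod q) = Polynomial.eval₂ (Int.castRingHom (ZMod q)) ((y : ℤ) : ZMod q) P := by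
        have := Polynomial.hom_eval₂ P (RingHom.id ℤ) (Int.castRingHom (ZMod q)) (y : ℤ)
        simp only [RingHom.comp_id, eq_intCast] at this
        rw [← this]
        rfl
      rw [h2] at h3
      simp only [Int.cast_natCast] at h3
      exact h3.symm
    · intro y hy y' hy' hyy
      rw [Finset.mem_coe, mem_filter, mem_range] at hy hy'
      have h2 := (ZMod.natCast_eq_natCast_iff' y y' q).1 hyy
      rwa [Nat.mod_eq_of_lt hy.1, Nat.mod_eq_of_lt hy'.1] at h2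
  refine h1.trans ((Multiset.toFinset_card_le _).trans ((Polynomial.card_roots' R).trans ?_))
  rw [hR]
  exact Polynomial.natDegree_map_le.trans hg

theorem res_bound (P : Polynomial ℤ) (g Q : ℕ) (a b : ℤ) (B : ℝ) (hB : 0 ≤ B) (hQ : g + 1 ≤ Q)
    (haB : |(a : ℝ)| ≤ (Q : ℝ) ^ B) (hbB : |(b : ℝ)| ≤ (Q : ℝ) ^ B) (hP : ∀ j, |(P.coeff j : ℝ)| ≤ (Q : ℝ) ^ B) :
    |(res P g a b : ℝ)| ≤ (Q : ℝ) ^ ((g + 1) * B + 1) := by
  have hQ1 : (1 : ℝ) ≤ Q := by exact_mod_cast (by omega : 1 ≤ Q)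
  have hQr : (0 : ℝ) < Q := by linarith
  have hX0 : 0 ≤ (Q : ℝ) ^ B := Real.rpow_nonneg hQr.le _
  have hX1 : 1 ≤ (Q : ℝ) ^ B := Real.one_le_rpow hQ1 hB
  have e1 : (Q : ℝ) ^ (((g : ℝ) + 1) * B + 1) = ((Q : ℝ) ^ B) ^ (g + 1) * Q := by
    rw [Real.rpow_add hQr, Real.rpow_one]
    congr 1
    rw [← Real.rpow_natCast, ← Real.rpow_mul hQr.le]
    congr 1
    push_cast
    ring
  rw [e1]
  unfold res
  push_cast
  refine (Finset.abs_sum_le_sum_abs _ _).trans ?_
  have h1 : ∀ j ∈ range (g + 1), |(P.coeff j : ℝ) * (-(b : ℝ)) ^ j * (a : ℝ) ^ (g - j)| ≤ ((Q : ℝ) ^ B) ^ (g + 1) := by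
    intro j hj
    rw [mem_range] at hj
    rw [abs_mul, abs_mul, abs_pow, abs_pow, abs_neg]
    have e : ((Q : ℝ) ^ B) ^ (g + 1) = (Q : ℝ) ^ B * ((Q : ℝ) ^ B) ^ j * ((Q : ℝ) ^ B) ^ (g - j) := by
      rw [mul_assoc, ← pow_add, ← pow_succ']
      congr 1
      omega
    rw [e]
    have h2 : |(b : ℝ)| ^ j ≤ ((Q : ℝ) ^ B) ^ j := pow_le_pow_left₀ (abs_nonneg _) hbB j
    have h3 : |(a : ℝ)| ^ (g - j) ≤ ((Q : ℝ) ^ B) ^ (g - j) := pow_le_pow_left₀ (abs_nonneg _) haB _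
    exact mul_le_mul (mul_le_mul (hP j) h2 (by positivity) hX0) h3 (by positivity) (by positivity)
  refine (Finset.sum_le_sum h1).trans ?_
  rw [Finset.sum_const, Finset.card_range, nsmul_eq_mul, mul_comm]
  apply mul_le_mul_of_nonneg_left _ (by positivity)
  exact_mod_cast hQ

theorem lin_poly : ∀ ε : ℝ, 0 < ε → ∃ C : ℝ, 0 ≤ C ∧ ∀ (k g : ℕ) (B : ℝ), 1 ≤ k → ∃ Q0 : ℕ, ∀ Q : ℕ, Q0 ≤ Q →
    ∀ G : Polynomial ℤ, G.natDegree ≤ g → (∀ j, |(G.coeff j : ℝ)| ≤ (Q : ℝ) ^ B) →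
    ∀ a b : Fin k → ℤ, (∀ i, a i ≠ 0) → (∀ i, res G g (a i) (b i) ≠ 0) → (∀ i j, i ≠ j → a i * b j ≠ a j * b i) →
    (∀ i, |(a i : ℝ)| ≤ (Q : ℝ) ^ B) → (∀ i, |(b i : ℝ)| ≤ (Q : ℝ) ^ B) →
    ∀ c : ℕ → ℕ → ℝ, (∀ n : ℕ, Int.gcd (G.eval (n : ℤ)) Q.factorial = 1 → 0 ≤ wt Q c n) →
    ∑ n ∈ range Q.factorial, cop G Q.factorial n * (wt Q c n *
      ((univ.filter (fun i => ∀ p ∈ range (Q + 1), p.Prime → ¬ (p : ℤ) ∣ a i * n + b i)).card : ℝ)) ≤
    ((Real.exp (-Real.eulerMascheroniConstant) / 2 + ε) * Real.log k + C) *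
      ∑ n ∈ range Q.factorial, cop G Q.factorial n * wt Q c n := by
  classical
  intro ε hε
  obtain ⟨C, hC0, hC⟩ := pss ε hε
  refine ⟨C, hC0, ?_⟩
  intro k g B0 hk
  obtain ⟨B, hB⟩ : ∃ B : ℝ, B = max B0 0 := ⟨_, rfl⟩
  have hB0 : 0 ≤ B := by rw [hB]; exact le_max_right _ _
  obtain ⟨m, n, η, q0, hm, hmn, hη, hq0, hPS⟩ := hC k hk
  obtain ⟨b', hb⟩ : ∃ b' : ℝ, b' = (Real.exp (-Real.eulerMascheroniConstant) / 2 + ε) * Real.log k + C := ⟨_, rfl⟩
  rw [← hb] at hPS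
  rw [← hb]
  have hn0 : 0 < n := by omega
  have hnr : (0 : ℝ) < n := by exact_mod_cast hn0
  obtain ⟨Q1, hQ1⟩ := t_MER m n (k * B + (k : ℝ) ^ 2 * (2 * B + 1) + k * ((g + 1) * B + 1)) η hm hmn hη
  obtain ⟨Q3, hQ3⟩ := Pool.Agent.Run7.h372.NW.t_MER2 m n (η / 2) hm hmn (half_pos hη)
  obtain ⟨Z, hZ0⟩ := exists_nat_ge (max (max ((k : ℝ) + 1) q0) (2 * (g + 1) * (1 + η) / η))
  have hZ1 : (k : ℝ) + 1 ≤ Z := (le_max_left _ _).trans ((le_max_left _ _).trans hZ0)
  have hZ2 : q0 ≤ Z := (le_max_right _ _).trans ((le_max_left _ _).trans hZ0)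
  have hZ4 : 2 * (g + 1) * (1 + η) / η ≤ Z := (le_max_right _ _).trans hZ0
  have hZ3 : (0 : ℝ) < Z := by
    have : (0 : ℝ) ≤ k := Nat.cast_nonneg k
    linarith
  obtain ⟨Y0, hYZ⟩ : ∃ Y0 : ℕ, Y0 = Z + g := ⟨_, rfl⟩
  have hYZr : (Y0 : ℝ) = Z + g := by rw [hYZ]; push_cast; ring
  have hg0 : (0 : ℝ) ≤ g := Nat.cast_nonneg g
  have hY3 : (0 : ℝ) < Y0 := by linarith
  obtain ⟨Q2, hQ2⟩ := (Filter.tendsto_atTop.1 (Real.tendsto_log_atTop.comp tendsto_natCast_atTop_atTop)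
    ((n : ℝ) * Real.log Y0 + 1)).exists_forall_of_atTop
  refine ⟨max (max (max Q1 Q3) (g + 1)) (max Q2 2), ?_⟩
  intro Q hQ' G hGd hGB' a b ha hb0 hab haB' hbB' c hw
  have hQ : max (max Q1 Q3) (max Q2 2) ≤ Q :=
    (max_le_max (le_max_left _ _) le_rfl).trans hQ'
  have hQg : g + 1 ≤ Q := ((le_max_right _ _).trans (le_max_left _ _)).trans hQ'

  have hQa : Q1 ≤ Q := (le_max_left _ _).trans ((le_max_left _ _).trans hQ)
  have hQd : Q3 ≤ Q := (le_max_right _ _).trans ((le_max_left _ _).trans hQ)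
  have hQb : Q2 ≤ Q := (le_max_left _ _).trans ((le_max_right _ _).trans hQ)
  have hQc2 : 2 ≤ Q := (le_max_right _ _).trans ((le_max_right _ _).trans hQ)
  have hQc : 1 ≤ Q := by omega
  have hQ1r : (1 : ℝ) ≤ Q := by exact_mod_cast hQc
  have hmono : (Q : ℝ) ^ B0 ≤ (Q : ℝ) ^ B := Real.rpow_le_rpow_of_exponent_le hQ1r (by rw [hB]; exact le_max_left _ _)
  have haB : ∀ i, |(a i : ℝ)| ≤ (Q : ℝ) ^ B := fun i => (haB' i).trans hmono
  have hbB : ∀ i, |(b i : ℝ)| ≤ (Q : ℝ) ^ B := fun i => (hbB' i).trans hmono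
  have hGB : ∀ j, |(G.coeff j : ℝ)| ≤ (Q : ℝ) ^ B := fun j => (hGB' j).trans hmono
  have hlogY : 0 ≤ Real.log (Y0 : ℝ) := Real.log_natCast_nonneg Y0
  have hlogQ : (n : ℝ) * Real.log Y0 + 1 ≤ Real.log Q := hQ2 Q hQb
  have hlogQ0 : 0 < Real.log Q := by
    have : 0 ≤ (n : ℝ) * Real.log Y0 := by positivity
    linarith
  have hM0 : 0 < Q.factorial := Nat.factorial_pos Q
  -- large primes
  have hbig : ∀ p : ℕ, 0 < p → (m : ℝ) * Real.log Q < n * Real.log p → Y0 < p := by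
    intro p hp0 h
    have hmr : (1 : ℝ) ≤ m := by exact_mod_cast hm
    have h5 : (n : ℝ) * Real.log Y0 < n * Real.log p := by nlinarith
    have h6 : Real.log Y0 < Real.log p := lt_of_mul_lt_mul_left h5 hnr.le
    have h7 := (Real.log_lt_log_iff hY3 (by exact_mod_cast hp0)).1 h6
    exact_mod_cast h7
  -- the bad primes
  obtain ⟨Bd, hBd⟩ : ∃ Bd : Finset ℕ, Bd = ((Icc 1 Q).filter Nat.Prime).filter (fun p => p ∣ dif a b * ∏ i, (res G g (a i) (b i)).natAbs) :=
    ⟨_, rfl⟩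
  have hBdp : ∀ p ∈ Bd, p.Prime ∧ p ∣ dif a b * ∏ i, (res G g (a i) (b i)).natAbs := fun p hp => by
    rw [hBd, mem_filter, mem_filter] at hp
    exact ⟨hp.1.2, hp.2⟩
  have hbpos : 0 < ∏ i, (res G g (a i) (b i)).natAbs := prod_pos fun i _ => Int.natAbs_pos.2 (hb0 i)
  have hblog : Real.log ((∏ i, (res G g (a i) (b i)).natAbs : ℕ) : ℝ) ≤ k * ((g + 1) * B + 1) * Real.log Q := by
    push_cast
    rw [Real.log_prod (fun i _ => by exact_mod_cast (Int.natAbs_pos.2 (hb0 i)).ne')]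
    refine (sum_le_sum fun i _ => log_natAbs (hb0 i) hQc
      (res_bound G g Q (a i) (b i) B hB0 hQg (haB i) (hbB i) hGB)).trans (le_of_eq ?_)
    rw [sum_const, card_univ, Fintype.card_fin, nsmul_eq_mul]
    ring
  have hmer := hQ1 Q hQa Bd (fun p hp => (hBdp p hp).1) (by
    refine (AB_lg (Nat.mul_pos (dif_pos ha hab) hbpos) hBdp).trans ?_
    have h1 := dif_log hB0 ha hab hQc2 haB hbB
    have h2 : (dif a b : ℝ) ≠ 0 := by exact_mod_cast (dif_pos ha hab).ne'
    have h3 : ((∏ i, (res G g (a i) (b i)).natAbs : ℕ) : ℝ) ≠ 0 := by exact_mod_cast hbpos.ne'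
    rw [Nat.cast_mul, Real.log_mul h2 h3]
    linarith)
  have hmer2 := hQ3 Q hQd
  -- the places
  obtain ⟨P, hP⟩ : ∃ P : Finset ℕ, P = ((Icc 1 Q).filter Nat.Prime).filter
    (fun p : ℕ => p ∉ Bd ∧ (m : ℝ) * Real.log Q < n * Real.log p) := ⟨_, rfl⟩
  have hP' : ∀ p ∈ P, p.Prime ∧ 1 ≤ p ∧ p ≤ Q ∧ p ∉ Bd ∧ (m : ℝ) * Real.log Q < n * Real.log p := fun p hp => by
    rw [hP, mem_filter, mem_filter, mem_Icc] at hp
    exact ⟨hp.1.2, hp.1.1.1, hp.1.1.2, hp.2.1, hp.2.2⟩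
  have hlogp : ∀ p ∈ P, Real.log p ≤ Real.log Q := fun p hp => by
    have h := hP' p hp
    exact Real.log_le_log (by exact_mod_cast h.2.1) (by exact_mod_cast h.2.2.1)
  have hspec := fun p (hp : p ∈ P) => AB_blk_spec (m := m) (n := n) (Q := Q) (p := p) hm hlogQ0
    (hP' p hp).2.2.2.2 (hlogp p hp)
  have hpY : ∀ p ∈ P, Y0 < p := fun p hp => hbig p (hP' p hp).2.1 (hP' p hp).2.2.2.2
  have hblock : ∀ j, m ≤ j → j < n → P.filter (fun p => AB_blk n Q p = j) =
      ((Icc 1 Q).filter Nat.Prime).filter (fun p => p ∉ Bd ∧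
        (j : ℝ) * Real.log Q < n * Real.log p ∧ n * Real.log p ≤ ((j : ℝ) + 1) * Real.log Q) := by
    intro j hj1 hj2
    ext p
    constructor
    · intro hp
      rw [mem_filter] at hp
      have h := hP' p hp.1
      have hs := hspec p hp.1
      rw [hp.2] at hs
      simp only [mem_filter, mem_Icc]
      exact ⟨⟨⟨h.2.1, h.2.2.1⟩, h.1⟩, h.2.2.2.1, hs.2.2.1, hs.2.2.2⟩
    · intro hp
      simp only [mem_filter, mem_Icc] at hp
      obtain ⟨⟨⟨h1, h2⟩, h5⟩, h6, h7, h8⟩ := hp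
      have hmj : (m : ℝ) ≤ j := by exact_mod_cast hj1
      rw [hP]
      simp only [mem_filter, mem_Icc]
      exact ⟨⟨⟨⟨h1, h2⟩, h5⟩, h6, by nlinarith⟩, AB_blk_unique hlogQ0 h7 h8⟩
  obtain ⟨q, hq⟩ : ∃ q : Fin P.card → ℕ, q = P.orderEmbOfFin rfl := ⟨_, rfl⟩
  have hqmem : ∀ i, q i ∈ P := fun i => by rw [hq]; exact P.orderEmbOfFin_mem rfl i
  have hqmono : StrictMono q := by rw [hq]; exact (P.orderEmbOfFin rfl).strictMono
  have himg : P = univ.image q := by
    rw [hq]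
    exact (Finset.image_orderEmbOfFin_univ P rfl).symm
  -- a prime of `P` divides no slope and no determinant
  have hnot' : ∀ i, ¬ q i ∣ dif a b * ∏ i, (res G g (a i) (b i)).natAbs := by
    intro i hd
    have h := hP' _ (hqmem i)
    apply h.2.2.2.1
    rw [hBd, mem_filter, mem_filter, mem_Icc]
    exact ⟨⟨⟨h.2.1, h.2.2.1⟩, h.1⟩, hd⟩
  have hnot : ∀ i, ¬ q i ∣ dif a b := fun i hd => hnot' i (Dvd.dvd.mul_right hd _)
  -- the shifts
  have hMP : 0 < ∏ p ∈ P, p := prod_pos fun p hp => (hP' p hp).2.1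
  have hcopP : ∀ x : Fin k, IsCoprime (a x) ((∏ p ∈ P, p : ℕ) : ℤ) := by
    intro x
    rw [Int.isCoprime_iff_gcd_eq_one, Int.gcd_eq_natAbs, Int.natAbs_natCast]
    apply Nat.Coprime.prod_right
    intro p hp
    rw [himg, mem_image] at hp
    obtain ⟨i, -, rfl⟩ := hp
    rw [Nat.coprime_comm, (hP' _ (hqmem i)).1.coprime_iff_not_dvd]
    intro hd
    exact hnot i (hd.trans (dvd_dif1 a b x))
  choose hs hhs using fun x : Fin k => crt (∏ p ∈ P, p) hMP (a x) (b x) (hcopP x)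
  have hqdvd : ∀ i, q i ∣ ∏ p ∈ P, p := fun i => dvd_prod_of_mem (fun p => p) (hqmem i)
  have hinj : ∀ (i : Fin P.card) (x : ℕ) (y y' : Fin k), q i ∣ x + hs y → q i ∣ x + hs y' → y = y' := by
    intro i x y y' hy hy'
    by_contra hne
    rw [hhs y (q i) (hqdvd i) x] at hy
    rw [hhs y' (q i) (hqdvd i) x] at hy'
    apply hnot i
    refine dvd_trans ?_ (dvd_dif2 a b y y' hne)
    rw [← Int.natCast_dvd_natCast, Int.dvd_natAbs]
    have e : a y * b y' - a y' * b y = a y * (a y' * x + b y') - a y' * (a y * x + b y) := by ring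
    rw [e]
    exact dvd_sub (Dvd.dvd.mul_left hy' _) (Dvd.dvd.mul_left hy _)
  have hresn : ∀ (i : Fin P.card) (y : Fin k), ¬ (q i : ℤ) ∣ res G g (a y) (b y) := by
    intro i y hd
    apply hnot' i
    refine Dvd.dvd.mul_left (dvd_trans ?_ (dvd_prod_of_mem (fun i => (res G g (a i) (b i)).natAbs) (mem_univ y))) _
    rw [← Int.natCast_dvd]
    exact hd
  have hzero : ∀ (i : Fin P.card) (y : Fin k) (x : ℕ), q i ∣ x + hs y → ¬ (q i : ℤ) ∣ G.eval (x : ℤ) := by
    intro i y x hd hG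
    rw [hhs y (q i) (hqdvd i) x] at hd
    exact hresn i y (res_dvd G g (a y) (b y) x (q i) hGd hd hG)
  have hrho : ∀ p ∈ P, rho G p ≤ g := by
    intro p hp
    rw [himg, mem_image] at hp
    obtain ⟨i, -, rfl⟩ := hp
    exact rho_le G g (q i) (a ⟨0, hk⟩) (b ⟨0, hk⟩) hGd (hP' _ (hqmem i)).1 (hresn i ⟨0, hk⟩)
  have hsumq : ∀ (j : ℕ) (H : ℕ → ℝ), ∑ i ∈ univ.filter (fun i => AB_blk n Q (q i) = j), H (q i) =
      ∑ p ∈ P.filter (fun p => AB_blk n Q p = j), H p := by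
    intro j H
    have e : P.filter (fun p => AB_blk n Q p = j) = (univ.filter (fun i => AB_blk n Q (q i) = j)).image q := by
      conv_lhs => rw [himg]
      rw [filter_image]
    rw [e, sum_image (fun a _ b _ hab => hqmono.injective hab)]
  have hmain := t_ARP P.card k G hs q (fun i => AB_blk n Q (q i)) n Q Q.factorial (fun d x => c d (x % d)) b'
    hqmono.injective
    (fun i => ⟨(hP' _ (hqmem i)).1, by
      have h5 := hpY _ (hqmem i)
      have h6 : k + 1 ≤ Z := by exact_mod_cast hZ1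
      have h7 := hrho _ (hqmem i)
      omega⟩) hinj hzero hM0
    (fun i => Nat.dvd_factorial (hP' _ (hqmem i)).2.1 (hP' _ (hqmem i)).2.2.1)
    (fun d hd => ⟨fun x => by simp only [Nat.add_mod_right], by
      rw [mem_Icc] at hd
      exact Nat.dvd_factorial (by omega) hd.2⟩)
    (fun x hx => hw x hx)
    (fun d hd => by
      rw [mem_Icc] at hd
      obtain ⟨T, hT⟩ : ∃ T : Finset (Fin P.card), T = univ.filter (fun i => q i ∣ d) :=
        ⟨_, rfl⟩
      rw [← hT]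
      have h5 : ∑ i ∈ T, Real.log (q i) ≤ Real.log d := by
        have h6 : ∑ i ∈ T, Real.log (q i) = ∑ p ∈ T.image q, Real.log p := by
          rw [sum_image (fun a _ b _ hab => hqmono.injective hab)]
        rw [h6]
        refine AB_lg (by omega) ?_
        intro p hp
        rw [mem_image] at hp
        obtain ⟨i, hi, rfl⟩ := hp
        rw [hT, mem_filter] at hi
        exact ⟨(hP' _ (hqmem i)).1, hi.2⟩
      have h7 : Real.log d ≤ Real.log Q :=
        Real.log_le_log (by exact_mod_cast hd.1) (by exact_mod_cast hd.2)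
      have h9 : (∑ i ∈ T, (AB_blk n Q (q i) : ℝ)) * Real.log Q ≤ n * Real.log Q := by
        rw [sum_mul]
        refine (sum_le_sum fun i _ => (hspec _ (hqmem i)).2.2.1.le).trans ?_
        rw [← mul_sum]
        exact mul_le_mul_of_nonneg_left (h5.trans h7) hnr.le
      have h10 := le_of_mul_le_mul_right h9 hlogQ0
      exact_mod_cast h10)
    (fun f hf0 hfL => hPS P.card (fun i => (q i : ℝ) - rho G (q i)) (fun i => AB_blk n Q (q i))
      (fun i => ⟨(hspec _ (hqmem i)).1, (hspec _ (hqmem i)).2.1⟩)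
      (fun i => by
        have h5 := hpY _ (hqmem i)
        have h6 : (Y0 : ℝ) + 1 ≤ q i := by exact_mod_cast h5
        have h7 : (rho G (q i) : ℝ) ≤ g := by exact_mod_cast hrho _ (hqmem i)
        linarith)
      (fun j hj1 hj2 => by
        rw [hsumq j (fun p => 1 / ((p : ℝ) - rho G p)), hblock j hj1 hj2]
        have hbig' : ∀ p ∈ ((Icc 1 Q).filter Nat.Prime).filter (fun p => p ∉ Bd ∧
            (j : ℝ) * Real.log Q < n * Real.log p ∧ n * Real.log p ≤ ((j : ℝ) + 1) * Real.log Q),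
            (Y0 : ℝ) + 1 ≤ p ∧ (rho G p : ℝ) ≤ g := by
          intro p hp
          rw [← hblock j hj1 hj2, mem_filter] at hp
          refine ⟨?_, by exact_mod_cast hrho p hp.1⟩
          exact_mod_cast hpY p hp.1
        constructor
        · refine (hmer j hj1 hj2).trans (sum_le_sum fun p hp => ?_)
          obtain ⟨h7, h7'⟩ := hbig' p hp
          have h7'' : (0 : ℝ) ≤ rho G p := Nat.cast_nonneg _
          exact one_div_le_one_div_of_le (by linarith) (by linarith)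
        · have h8 : ∀ p ∈ ((Icc 1 Q).filter Nat.Prime).filter (fun p => p ∉ Bd ∧
              (j : ℝ) * Real.log Q < n * Real.log p ∧ n * Real.log p ≤ ((j : ℝ) + 1) * Real.log Q),
              1 / ((p : ℝ) - rho G p) ≤ (1 + g / Z) * (1 / (p : ℝ)) := by
            intro p hp
            obtain ⟨h7, h7'⟩ := hbig' p hp
            have h7'' : (0 : ℝ) ≤ rho G p := Nat.cast_nonneg _
            have h9 : (0 : ℝ) < p := by linarith
            have h10 : (0 : ℝ) < (p : ℝ) - rho G p := by linarith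
            have h11 : 1 / ((p : ℝ) - rho G p) = (1 + rho G p / ((p : ℝ) - rho G p)) * (1 / (p : ℝ)) := by
              field_simp
              ring
            rw [h11]
            apply mul_le_mul_of_nonneg_right _ (by positivity)
            have : (rho G p : ℝ) / ((p : ℝ) - rho G p) ≤ g / Z :=
              div_le_div₀ hg0 h7' hZ3 (by linarith)
            linarith
          refine (sum_le_sum h8).trans ?_
          rw [← mul_sum]
          have h12 : ∑ p ∈ ((Icc 1 Q).filter Nat.Prime).filter (fun p => p ∉ Bd ∧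
              (j : ℝ) * Real.log Q < n * Real.log p ∧ n * Real.log p ≤ ((j : ℝ) + 1) * Real.log Q), 1 / (p : ℝ) ≤
              Real.log (((j : ℝ) + 1) / j) + η / 2 := by
            refine le_trans ?_ (hmer2 j hj1 hj2)
            apply sum_le_sum_of_subset_of_nonneg
            · intro p hp
              rw [mem_filter] at hp ⊢
              exact ⟨hp.1, hp.2.2⟩
            · intro p _ _
              positivity
          have hj : (1 : ℝ) ≤ j := by exact_mod_cast (by omega : 1 ≤ j)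
          have h13 : Real.log (((j : ℝ) + 1) / j) ≤ 1 := by
            have h14 : ((j : ℝ) + 1) / j = 1 + 1 / j := by field_simp
            rw [h14]
            have h15 := Real.log_le_sub_one_of_pos (show (0 : ℝ) < 1 + 1 / j by positivity)
            have h16 : 1 / (j : ℝ) ≤ 1 := by rw [div_le_one (by linarith)]; exact hj
            linarith
          have h17 : (g : ℝ) / Z * (1 + η) ≤ η / 2 := by
            rw [div_le_iff₀ hη] at hZ4
            rw [div_mul_eq_mul_div, div_le_iff₀ hZ3]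
            nlinarith
          have h18 : 0 ≤ (g : ℝ) / Z := by positivity
          calc (1 + (g : ℝ) / Z) * _ ≤ (1 + (g : ℝ) / Z) * (Real.log (((j : ℝ) + 1) / j) + η / 2) :=
                mul_le_mul_of_nonneg_left h12 (by positivity)
            _ ≤ Real.log (((j : ℝ) + 1) / j) + η / 2 + (g : ℝ) / Z * (1 + η) := by nlinarith
            _ ≤ _ := by linarith) f hf0 hfL)
  refine le_trans ?_ hmain
  apply sum_le_sum
  intro x _
  unfold cop
  split_ifs with hx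
  swap
  · simp
  rw [one_mul, one_mul]
  apply mul_le_mul_of_nonneg_left _ (hw x hx)
  have hcard : (univ.filter (fun i : Fin k => ∀ p ∈ range (Q + 1), p.Prime → ¬ (p : ℤ) ∣ a i * x + b i)).card ≤
      (univ.filter (fun y : Fin k => ∀ i, ¬ q i ∣ x + hs y)).card := by
    apply card_le_card
    intro y hy
    rw [mem_filter] at hy ⊢
    refine ⟨mem_univ _, fun i => ?_⟩
    have h6 := hP' _ (hqmem i)
    rw [hhs y (q i) (hqdvd i) x]
    exact hy.2 (q i) (mem_range.2 (by omega)) h6.1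
  exact_mod_cast hcard

theorem euler_pos (Q : ℕ) : 0 < ∏ p ∈ (Icc 1 Q).filter Nat.Prime, (1 - 1 / (p : ℝ)) := by
  apply Finset.prod_pos
  intro p hp
  rw [mem_filter] at hp
  have hp1 : (1 : ℝ) < p := by exact_mod_cast hp.2.one_lt
  have : 1 / (p : ℝ) < 1 := by rw [div_lt_one (by linarith)]; exact hp1
  linarith

/-- both parts -/
theorem poly_both : ∀ ε : ℝ, 0 < ε → ∃ C : ℝ, ∀ (k g : ℕ) (B : ℝ), 1 ≤ k → ∃ Q0 : ℕ, ∀ Q : ℕ, Q0 ≤ Q →
    ∀ P : Polynomial ℤ, P.natDegree ≤ g → (∀ j, |(P.coeff j : ℝ)| ≤ (Q : ℝ) ^ B) →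
    ∀ a b : Fin k → ℤ, (∀ i, a i ≠ 0) → (∀ i, Polynomial.aeval (-(b i : ℚ) / a i) P ≠ 0) → (∀ i j, i ≠ j → a i * b j ≠ a j * b i) →
    (∀ i, |(a i : ℝ)| ≤ (Q : ℝ) ^ B) → (∀ i, |(b i : ℝ)| ≤ (Q : ℝ) ^ B) →
    ∀ c : ℕ → ℕ → ℝ, (∀ n : ℕ, Int.gcd (P.eval (n : ℤ)) Q.factorial = 1 → 0 ≤ wt Q c n) →
    (∑ n ∈ (range Q.factorial).filter (fun n : ℕ => Int.gcd (P.eval (n : ℤ)) Q.factorial = 1), wt Q c n *
      ((univ.filter (fun i => ∀ p ∈ Icc 1 Q, p.Prime → ¬ (p : ℤ) ∣ a i * n + b i)).card : ℝ)) /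
        ((range Q.factorial).filter (fun n : ℕ => Int.gcd (P.eval (n : ℤ)) Q.factorial = 1)).card ≤
      ((Real.exp (-Real.eulerMascheroniConstant) / 2 + ε) * Real.log k + C) *
        ((∑ n ∈ (range Q.factorial).filter (fun n : ℕ => Int.gcd (P.eval (n : ℤ)) Q.factorial = 1), wt Q c n) /
          ((range Q.factorial).filter (fun n : ℕ => Int.gcd (P.eval (n : ℤ)) Q.factorial = 1)).card) ∧
    (∏ p ∈ (Icc 1 Q).filter Nat.Prime, (1 - 1 / (p : ℝ)))⁻¹ *
      ((∑ n ∈ (range Q.factorial).filter (fun n : ℕ => Int.gcd (P.eval (n : ℤ)) Q.factorial = 1), wt Q c n *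
        ((univ.filter (fun i => ∀ p ∈ Icc 1 Q, p.Prime → ¬ (p : ℤ) ∣ a i * n + b i)).card : ℝ)) /
          ((range Q.factorial).filter (fun n : ℕ => Int.gcd (P.eval (n : ℤ)) Q.factorial = 1)).card) ≤
      ((1 / 2 + ε) * Real.log k + C) * Real.log Q *
        ((∑ n ∈ (range Q.factorial).filter (fun n : ℕ => Int.gcd (P.eval (n : ℤ)) Q.factorial = 1), wt Q c n) /
          ((range Q.factorial).filter (fun n : ℕ => Int.gcd (P.eval (n : ℤ)) Q.factorial = 1)).card) := by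
  intro ε hε
  set G := Real.exp Real.eulerMascheroniConstant with hG
  have hG0 : 0 < G := Real.exp_pos _
  have hGi : Real.exp (-Real.eulerMascheroniConstant) = G⁻¹ := by rw [Real.exp_neg]
  set δ1 : ℝ := min ε (ε / (2 * (G + 1))) with hδ1
  have hδ1p : 0 < δ1 := by positivity
  set δ2 : ℝ := min 1 (G * ε) with hδ2
  have hδ2p : 0 < δ2 := by positivity
  obtain ⟨C, hC, h1⟩ := lin_poly δ1 hδ1p
  obtain ⟨Q1, h2⟩ := t_VQ.1 δ2 hδ2p
  refine ⟨C * (G + 1), fun k g B hk => ?_⟩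
  obtain ⟨Q0, h3⟩ := h1 k g B hk
  refine ⟨max Q0 Q1, fun Q hQ P hPd hPB a b ha hb hab haB hbB c hc => ?_⟩
  have hQ0 : Q0 ≤ Q := le_trans (le_max_left _ _) hQ
  have hQ1 : Q1 ≤ Q := le_trans (le_max_right _ _) hQ
  have hres : ∀ i, res P g (a i) (b i) ≠ 0 := by
    intro i h0
    have h6 := res_eval P g (a i) (b i) hPd (ha i)
    rw [h0, Int.cast_zero] at h6
    have h7 : ((a i : ℤ) : ℚ) ^ g ≠ 0 := pow_ne_zero _ (by exact_mod_cast ha i)
    exact mul_ne_zero h7 (hb i) h6.symm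
  have h4 := h3 Q hQ0 P hPd hPB a b ha hres hab haB hbB c hc
  have h5 := h2 Q hQ1
  set V := ∏ p ∈ (Icc 1 Q).filter Nat.Prime, (1 - 1 / (p : ℝ)) with hV
  have hVp : 0 < V := euler_pos Q
  have hphi : (0 : ℝ) ≤ ((range Q.factorial).filter
    (fun n : ℕ => Int.gcd (P.eval (n : ℤ)) Q.factorial = 1)).card := Nat.cast_nonneg _
  have e0 : ∀ G : ℕ → ℝ, ∑ n ∈ range Q.factorial, cop P Q.factorial n * G n =
      ∑ n ∈ (range Q.factorial).filter (fun n : ℕ => Int.gcd (P.eval (n : ℤ)) Q.factorial = 1), G n := by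
    intro G
    rw [Finset.sum_filter]
    apply Finset.sum_congr rfl
    intro n _
    unfold cop
    split_ifs <;> simp
  have hfree : ∀ n : ℕ, (univ.filter (fun i => ∀ p ∈ range (Q + 1), p.Prime → ¬ (p : ℤ) ∣ a i * n + b i)).card =
      (univ.filter (fun i => ∀ p ∈ Icc 1 Q, p.Prime → ¬ (p : ℤ) ∣ a i * n + b i)).card := by
    intro n
    congr 1
    apply Finset.filter_congr
    intro i _
    constructor
    · intro h4 p hp hpp
      rw [mem_Icc] at hp
      exact h4 p (mem_range.2 (by omega)) hpp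
    · intro h4 p hp hpp
      rw [mem_range] at hp
      exact h4 p (mem_Icc.2 ⟨hpp.one_lt.le, by omega⟩) hpp
  simp only [hfree] at h4
  rw [e0 (fun n => wt Q c n * ((univ.filter (fun i => ∀ p ∈ Icc 1 Q, p.Prime → ¬ (p : ℤ) ∣ a i * n + b i)).card : ℝ)),
    e0 (fun n => wt Q c n)] at h4
  set M := ∑ n ∈ (range Q.factorial).filter (fun n : ℕ => Int.gcd (P.eval (n : ℤ)) Q.factorial = 1), wt Q c n with hM
  set S := ∑ n ∈ (range Q.factorial).filter (fun n : ℕ => Int.gcd (P.eval (n : ℤ)) Q.factorial = 1), wt Q c n *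
    ((univ.filter (fun i => ∀ p ∈ Icc 1 Q, p.Prime → ¬ (p : ℤ) ∣ a i * n + b i)).card : ℝ) with hS
  have hM0 : 0 ≤ M := by
    rw [hM]
    apply Finset.sum_nonneg
    intro n hn
    rw [mem_filter] at hn
    exact hc n hn.2
  rw [hGi] at h4 ⊢
  have hlogk : 0 ≤ Real.log k := Real.log_nonneg (by exact_mod_cast hk)
  have hlogQ : 0 ≤ Real.log Q := Real.log_natCast_nonneg Q
  have h6 : S / ((range Q.factorial).filter (fun n : ℕ => Int.gcd (P.eval (n : ℤ)) Q.factorial = 1)).card ≤ ((G⁻¹ / 2 + δ1) * Real.log k + C) * (M / ((range Q.factorial).filter (fun n : ℕ => Int.gcd (P.eval (n : ℤ)) Q.factorial = 1)).card) := by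
    rw [← mul_div_assoc]
    exact div_le_div_of_nonneg_right h4 hphi
  have hMp : 0 ≤ M / ((range Q.factorial).filter (fun n : ℕ => Int.gcd (P.eval (n : ℤ)) Q.factorial = 1)).card := by positivity
  constructor
  · refine h6.trans (mul_le_mul_of_nonneg_right ?_ hMp)
    have h7 : (G⁻¹ / 2 + δ1) * Real.log k ≤ (G⁻¹ / 2 + ε) * Real.log k :=
      mul_le_mul_of_nonneg_right (by linarith [min_le_left ε (ε / (2 * (G + 1)))]) hlogk
    have h8 : C ≤ C * (G + 1) := by nlinarith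
    linarith
  · have hX : 0 ≤ ((G⁻¹ / 2 + δ1) * Real.log k + C) * (M / ((range Q.factorial).filter (fun n : ℕ => Int.gcd (P.eval (n : ℤ)) Q.factorial = 1)).card) := by positivity
    refine (mul_le_mul_of_nonneg_left h6 (inv_pos.2 hVp).le).trans ?_
    refine (mul_le_mul_of_nonneg_right h5 hX).trans ?_
    have h8 : (G + δ2) * ((G⁻¹ / 2 + δ1) * Real.log k + C) ≤ (1 / 2 + ε) * Real.log k + C * (G + 1) := by
      have h9 : (G + δ2) * (G⁻¹ / 2 + δ1) ≤ 1 / 2 + ε := by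
        have h10 : (G + δ2) * δ1 ≤ ε / 2 := by
          have : (G + δ2) * δ1 ≤ (G + 1) * (ε / (2 * (G + 1))) := by
            apply mul_le_mul _ (min_le_right _ _) hδ1p.le (by positivity)
            have := min_le_left 1 (G * ε)
            linarith
          refine this.trans (le_of_eq ?_)
          field_simp
        have h11 : δ2 * (G⁻¹ / 2) ≤ ε / 2 := by
          have : δ2 * (G⁻¹ / 2) ≤ (G * ε) * (G⁻¹ / 2) :=
            mul_le_mul_of_nonneg_right (min_le_right _ _) (by positivity)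
          refine this.trans (le_of_eq ?_)
          field_simp
        have h12 : G * (G⁻¹ / 2) = 1 / 2 := by field_simp
        calc (G + δ2) * (G⁻¹ / 2 + δ1) = G * (G⁻¹ / 2) + δ2 * (G⁻¹ / 2) + (G + δ2) * δ1 := by ring
          _ ≤ 1 / 2 + ε / 2 + ε / 2 := by linarith
          _ = 1 / 2 + ε := by ring
      have h13 : (G + δ2) * C ≤ C * (G + 1) := by
        rw [mul_comm]
        apply mul_le_mul_of_nonneg_left _ hC
        have := min_le_left 1 (G * ε)
        linarith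
      calc _ = (G + δ2) * (G⁻¹ / 2 + δ1) * Real.log k + (G + δ2) * C := by ring
        _ ≤ (1 / 2 + ε) * Real.log k + C * (G + 1) := add_le_add (mul_le_mul_of_nonneg_right h9 hlogk) h13
    calc _ = ((G + δ2) * ((G⁻¹ / 2 + δ1) * Real.log k + C)) * (Real.log Q * (M / ((range Q.factorial).filter (fun n : ℕ => Int.gcd (P.eval (n : ℤ)) Q.factorial = 1)).card)) := by ring
      _ ≤ ((1 / 2 + ε) * Real.log k + C * (G + 1)) * (Real.log Q * (M / ((range Q.factorial).filter (fun n : ℕ => Int.gcd (P.eval (n : ℤ)) Q.factorial = 1)).card)) :=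
          mul_le_mul_of_nonneg_right h8 (by positivity)
      _ = _ := by ring

end Pool.Agent.Run7.h962.LP
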