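import Pool.Agent.N422.NW.AR

/-! # From the product model to periodic functions on the reduced residue classes
(helper962; adapted from `Pool/Agent/N422/NW/AR.lean` of helper92). -/

set_option autoImplicit false

open Finset

namespace Pool.Agent.Run7.h962.LF

open Pool.Agent.N422.NW

/-- the indicator function of the integers prime to `M` -/
noncomputable def cop (M x : ℕ) : ℝ := if Nat.Coprime x M then 1 else 0

theorem cop_nonneg (M x : ℕ) : 0 ≤ cop M x := by
  unfold cop
  split_ifs <;> norm_num

theorem cop_per (M D : ℕ) (h : M ∣ D) : Function.Periodic (cop M) D := by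
  intro x
  unfold cop
  obtain ⟨e, rfl⟩ := h
  simp

/-- splitting off a prime -/
theorem cop_split (M q x : ℕ) (hq : q.Prime) (hM : 0 < M) (hqM : q ∣ M) :
    cop M x = (if q ∣ x then 0 else 1) * cop (ordCompl[q] M) x := by
  have h1 : Nat.Coprime x M ↔ ¬ q ∣ x ∧ Nat.Coprime x (ordCompl[q] M) := by
    have hfac : 0 < M.factorization q := hq.factorization_pos_of_dvd hM.ne' hqM
    constructor
    · intro h
      refine ⟨fun hd => ?_, Nat.Coprime.coprime_dvd_right (Nat.ordCompl_dvd M q) h⟩
      have h2 : q ∣ 1 := by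
        rw [← h]
        exact Nat.dvd_gcd hd hqM
      exact hq.one_lt.ne' (Nat.dvd_one.1 h2)
    · rintro ⟨h2, h3⟩
      rw [← Nat.ordProj_mul_ordCompl_eq_self M q]
      apply Nat.Coprime.mul_right _ h3
      apply Nat.Coprime.pow_right
      exact ((Nat.Prime.coprime_iff_not_dvd hq).2 h2).symm
  unfold cop
  by_cases h2 : q ∣ x
  · rw [if_neg (fun h => (h1.1 h).1 h2), if_pos h2, zero_mul]
  · rw [if_neg h2, one_mul]
    by_cases h3 : Nat.Coprime x (ordCompl[q] M)
    · rw [if_pos (h1.2 ⟨h2, h3⟩), if_pos h3]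
    · rw [if_neg (fun h => h3 (h1.1 h).2), if_neg h3]

section

variable {N k : ℕ} (hs : Fin k → ℕ) (q : Fin N → ℕ)

/-- the number of nonzero residues with a given state -/
theorem patU_count
    (hu : ∀ (i : Fin N) (x : ℕ) (a a' : Fin k), q i ∣ x + hs a → q i ∣ x + hs a' → a = a')
    (i : Fin N) (hq : 1 < q i) (h0 : ∀ a, ¬ q i ∣ hs a) (c : Option (Fin k)) :
    (∑ y ∈ range (q i), ((if q i ∣ y then (0 : ℝ) else 1) * (if ARpat hs q y i = c then (1 : ℝ) else 0))) =
      ((q i : ℝ) - 1) * mu1 ((q i : ℝ) - 1) c := by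
  have hq0 : (0 : ℝ) < (q i : ℝ) - 1 := by
    have : (1 : ℝ) < q i := by exact_mod_cast hq
    linarith
  have hsome : ∀ a : Fin k,
      ∑ y ∈ range (q i), ((if q i ∣ y then (0 : ℝ) else 1) * (if ARpat hs q y i = some a then (1 : ℝ) else 0)) = 1 := by
    intro a
    have h1 := ARpat_count hs q hu i (by omega) (some a)
    have h2 : ∑ y ∈ range (q i), ((if q i ∣ y then (0 : ℝ) else 1) *
        (if ARpat hs q y i = some a then (1 : ℝ) else 0)) =
        ∑ y ∈ range (q i), (if ARpat hs q y i = some a then (1 : ℝ) else 0) := by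
      apply Finset.sum_congr rfl
      intro y _
      by_cases h3 : ARpat hs q y i = some a
      · rw [ARpat_some hs q hu] at h3
        have h4 : ¬ q i ∣ y := fun h => h0 a ((Nat.dvd_add_right h).1 h3)
        rw [if_neg h4, one_mul]
      · rw [if_neg h3, mul_zero]
    rw [h2]
    unfold mu1 at h1
    simp only at h1
    have hq1 : (q i : ℝ) ≠ 0 := by
      have : (0 : ℝ) < q i := by exact_mod_cast (by omega : 0 < q i)
      exact this.ne'
    field_simp at h1
    exact h1
  cases c with
  | some a =>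
    rw [hsome a]
    unfold mu1
    simp only
    field_simp
  | none =>
    have hz : ∑ y ∈ range (q i), (if q i ∣ y then (0 : ℝ) else 1) = (q i : ℝ) - 1 := by
      have h3 : ∀ y ∈ range (q i), (if q i ∣ y then (0 : ℝ) else 1) = 1 - (if y = 0 then 1 else 0) := by
        intro y hy
        rw [mem_range] at hy
        by_cases hy0 : y = 0
        · subst hy0
          simp
        · rw [if_neg hy0, if_neg, sub_zero]
          intro hd
          exact hy0 (Nat.eq_zero_of_dvd_of_lt hd hy)
      rw [Finset.sum_congr rfl h3, Finset.sum_sub_distrib, Finset.sum_const, Finset.card_range, nsmul_eq_mul, mul_one,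
        Finset.sum_ite_eq', if_pos (mem_range.2 (by omega))]
    have htot : ∑ c : Option (Fin k), ∑ y ∈ range (q i),
        ((if q i ∣ y then (0 : ℝ) else 1) * (if ARpat hs q y i = c then (1 : ℝ) else 0)) = (q i : ℝ) - 1 := by
      rw [Finset.sum_comm, ← hz]
      apply Finset.sum_congr rfl
      intro y _
      rw [← Finset.mul_sum, Finset.sum_ite_eq]
      simp
    rw [Fintype.sum_option] at htot
    simp only [hsome] at htot
    rw [Finset.sum_const, Finset.card_univ, Fintype.card_fin, nsmul_eq_mul, mul_one] at htot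
    unfold mu1
    simp only
    rw [mul_sub, mul_div_cancel₀ _ hq0.ne']
    linarith

/-- independence on the reduced residue classes -/
theorem indepU
    (hu : ∀ (i : Fin N) (x : ℕ) (a a' : Fin k), q i ∣ x + hs a → q i ∣ x + hs a' → a = a')
    (h0 : ∀ i a, ¬ q i ∣ hs a)
    (hinj : Function.Injective q) (hp : ∀ i, (q i).Prime) (M : ℕ) (hM : 0 < M)
    (hqM : ∀ i, q i ∣ M) (γ : St N k) (T : Finset (Fin N)) (D : ℕ) (G : ℕ → ℝ)
    (hG : Function.Periodic G D) (hDM : D ∣ M) (hT : ∀ i ∈ T, ¬ q i ∣ D) :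
    ∑ x ∈ range M, cop M x * (if ∀ i ∈ T, ARpat hs q x i = γ i then G x else 0) =
      (∏ i ∈ T, mu1 ((q i : ℝ) - 1) (γ i)) * ∑ x ∈ range M, cop M x * G x := by
  classical
  induction T using Finset.induction_on with
  | empty => simp
  | insert j T hj ih =>
    have ih' := ih (fun i hi => hT i (Finset.mem_insert_of_mem hi))
    set M' : ℕ := ordCompl[q j] M with hM'
    have hcop : (q j).Coprime M' := Nat.coprime_ordCompl (hp j) hM.ne'
    have hM'M : M' ∣ M := Nat.ordCompl_dvd M (q j)
    have hdv : ∀ e : ℕ, e ∣ M → (q j).Coprime e → e ∣ M' := by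
      intro e he hc
      have h1 : e ∣ ordProj[q j] M * ordCompl[q j] M := by
        rw [Nat.ordProj_mul_ordCompl_eq_self]; exact he
      exact Nat.Coprime.dvd_of_dvd_mul_left (Nat.Coprime.pow_right _ hc.symm) h1
    have hDM' : D ∣ M' := hdv D hDM (((hp j).coprime_iff_not_dvd).mpr
      (hT j (Finset.mem_insert_self _ _)))
    have hqM' : ∀ i ∈ T, q i ∣ M' := by
      intro i hi
      apply hdv _ (hqM i)
      rw [Nat.coprime_primes (hp j) (hp i)]
      intro h
      exact hj (hinj h ▸ hi)
    have hq1 : (1 : ℝ) < q j := by exact_mod_cast (hp j).one_lt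
    -- the function of the other places
    obtain ⟨u, hu1⟩ : ∃ u : ℕ → ℝ, u = fun x => cop M' x * (if ∀ i ∈ T, ARpat hs q x i = γ i then G x else 0) :=
      ⟨_, rfl⟩
    have huper : Function.Periodic u M' := by
      intro x
      rw [hu1]
      have h1 := AR_periodic_dvd G hG hDM' x
      have h2 : (∀ i ∈ T, ARpat hs q (x + M') i = γ i) ↔ (∀ i ∈ T, ARpat hs q x i = γ i) := by
        constructor
        · intro h i hi; rw [← ARpat_per hs q hu M' i (hqM' i hi) x]; exact h i hi
        · intro h i hi; rw [ARpat_per hs q hu M' i (hqM' i hi) x]; exact h i hi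
      simp only [h1, h2, cop_per M' M' dvd_rfl x]
    have hv0 : Function.Periodic (fun x => if q j ∣ x then (0 : ℝ) else 1) (q j) := by
      intro x
      simp only [Nat.dvd_add_self_right]
    have hv1 : Function.Periodic (fun x => (if q j ∣ x then (0 : ℝ) else 1) *
        (if ARpat hs q x j = γ j then (1 : ℝ) else 0)) (q j) := by
      intro x
      simp only [Nat.dvd_add_self_right, ARpat_per hs q hu (q j) j dvd_rfl x]
    have h3 := AR_one M (q j) M' (hp j).pos hcop (hqM j) hM'M _ _ huper hv0
    have h4 := AR_one M (q j) M' (hp j).pos hcop (hqM j) hM'M _ _ huper hv1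
    have hz : ∑ y ∈ range (q j), (if q j ∣ y then (0 : ℝ) else 1) = (q j : ℝ) - 1 := by
      have h3 : ∀ y ∈ range (q j), (if q j ∣ y then (0 : ℝ) else 1) = 1 - (if y = 0 then 1 else 0) := by
        intro y hy
        rw [mem_range] at hy
        by_cases hy0 : y = 0
        · subst hy0
          simp
        · rw [if_neg hy0, if_neg, sub_zero]
          intro hd
          exact hy0 (Nat.eq_zero_of_dvd_of_lt hd hy)
      rw [Finset.sum_congr rfl h3, Finset.sum_sub_distrib, Finset.sum_const, Finset.card_range, nsmul_eq_mul, mul_one,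
        Finset.sum_ite_eq', if_pos (mem_range.2 (hp j).pos)]
    rw [hz] at h3
    rw [patU_count hs q hu j (hp j).one_lt (h0 j)] at h4
    have e3 : ∑ x ∈ range M, (if q j ∣ x then (0 : ℝ) else 1) * u x =
        (∏ i ∈ T, mu1 ((q i : ℝ) - 1) (γ i)) * ∑ x ∈ range M, cop M x * G x := by
      rw [← ih']
      apply Finset.sum_congr rfl
      intro x _
      rw [cop_split M (q j) x (hp j) hM (hqM j), hu1, mul_assoc]
    rw [e3] at h3
    rw [Finset.prod_insert hj, mul_assoc, h3]
    have e4 : ∑ x ∈ range M, cop M x * (if ∀ i ∈ insert j T, ARpat hs q x i = γ i then G x else 0) =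
        ∑ x ∈ range M, ((if q j ∣ x then (0 : ℝ) else 1) * (if ARpat hs q x j = γ j then (1 : ℝ) else 0)) * u x := by
      apply Finset.sum_congr rfl
      intro x _
      rw [cop_split M (q j) x (hp j) hM (hqM j), hu1]
      simp only [Finset.forall_mem_insert]
      by_cases h4 : ARpat hs q x j = γ j
      · simp [h4, hM', mul_assoc]
      · simp [h4]
    rw [e4, h4]
    have : (q j : ℝ) ≠ 0 := by linarith
    field_simp

end

theorem muU_pos {N k : ℕ} (q : Fin N → ℕ) (hq : ∀ i, k + 1 < q i) (γ : St N k) (S : Finset (Fin N)) :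
    0 < ∏ i ∈ S, mu1 ((q i : ℝ) - 1) (γ i) := by
  apply Finset.prod_pos
  intro i _
  have hq0 : (k : ℝ) < (q i : ℝ) - 1 := by
    have : ((k + 1 : ℕ) : ℝ) < q i := by exact_mod_cast hq i
    push_cast at this
    linarith
  have hk0 : (0 : ℝ) ≤ k := Nat.cast_nonneg k
  unfold mu1
  split
  · have : 0 < (q i : ℝ) - 1 := by linarith
    positivity
  · have : (k : ℝ) / ((q i : ℝ) - 1) < 1 := by rw [div_lt_one (by linarith)]; exact hq0
    linarith

/-- from the model to periodic functions on the reduced residue classes -/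
theorem t_ARU (N k : ℕ) (hs : Fin k → ℕ) (q ν : Fin N → ℕ) (n Q M : ℕ) (F : ℕ → ℕ → ℝ) (b : ℝ)
    (hinj : Function.Injective q) (hp : ∀ i, (q i).Prime ∧ k + 1 < q i)
    (hu : ∀ (i : Fin N) (x : ℕ) (a a' : Fin k), q i ∣ x + hs a → q i ∣ x + hs a' → a = a')
    (h0 : ∀ i a, ¬ q i ∣ hs a)
    (hM : 0 < M) (hqM : ∀ i, q i ∣ M) (hF : ∀ d ∈ Icc 1 Q, Function.Periodic (F d) d ∧ d ∣ M)
    (hW : ∀ x, Nat.Coprime x M → 0 ≤ ∑ d ∈ Icc 1 Q, F d x)
    (hν : ∀ d ∈ Icc 1 Q, ∑ i ∈ univ.filter (fun i => q i ∣ d), ν i ≤ n)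
    (hb : ∀ f : St N k → ℝ, (∀ γ, 0 ≤ f γ) → Lev ν n f →
      ∑ γ, muP (fun i => (q i : ℝ) - 1) γ * f γ * ((alive γ N).card : ℝ) ≤
        b * ∑ γ, muP (fun i => (q i : ℝ) - 1) γ * f γ) :
    ∑ x ∈ range M, cop M x * ((∑ d ∈ Icc 1 Q, F d x) *
      ((univ.filter (fun a : Fin k => ∀ i, ¬ q i ∣ x + hs a)).card : ℝ)) ≤
    b * ∑ x ∈ range M, cop M x * ∑ d ∈ Icc 1 Q, F d x := by
  classical
  set pat : ℕ → St N k := ARpat hs q with hpat
  set W : ℕ → ℝ := fun x => ∑ d ∈ Icc 1 Q, F d x with hWd
  set mu : St N k → ℝ := muP (fun i => (q i : ℝ) - 1) with hmu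
  have hmu0 : ∀ γ, 0 < mu γ := by
    intro γ
    have := muU_pos q (fun i => (hp i).2) γ univ
    exact this
  have hM0 : (0 : ℝ) < M := by exact_mod_cast hM
  -- the functions on the states
  set tr : (ℕ → ℝ) → St N k → ℝ := fun u γ =>
    1 / (M * mu γ) * ∑ x ∈ range M, cop M x * (if pat x = γ then u x else 0) with htr
  have htrW : ∀ (u : ℕ → ℝ) (Φ : St N k → ℝ),
      ∑ γ, mu γ * tr u γ * Φ γ = 1 / M * ∑ x ∈ range M, cop M x * (u x * Φ (pat x)) := by
    intro u Φ
    have h1 : ∀ γ, mu γ * tr u γ * Φ γ =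
        1 / M * ∑ x ∈ range M, (if pat x = γ then cop M x * (u x * Φ γ) else 0) := by
      intro γ
      have h2 : mu γ * tr u γ = 1 / M * ∑ x ∈ range M, cop M x * (if pat x = γ then u x else 0) := by
        simp only [htr]
        have := (hmu0 γ).ne'
        field_simp
      rw [h2, mul_assoc, Finset.sum_mul]
      congr 1
      apply Finset.sum_congr rfl
      intro x _
      split_ifs
      · ring
      · ring
    simp only [h1]
    rw [← Finset.mul_sum, Finset.sum_comm]
    congr 1
    apply Finset.sum_congr rfl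
    intro x _
    rw [Finset.sum_ite_eq]
    simp
  -- the level
  have hlev : ∀ d ∈ Icc 1 Q, ∀ γ γ' : St N k,
      (∀ i ∈ univ.filter (fun i => q i ∣ d), γ i = γ' i) → tr (F d) γ = tr (F d) γ' := by
    intro d hd
    set S : Finset (Fin N) := univ.filter (fun i => q i ∣ d) with hS
    have key : ∀ γ : St N k, tr (F d) γ = 1 / (M * ∏ i ∈ S, mu1 ((q i : ℝ) - 1) (γ i)) *
        ∑ x ∈ range M, cop M x * (if ∀ i ∈ S, pat x i = γ i then F d x else 0) := by
      intro γ
      have hper : Function.Periodic (fun x => if ∀ i ∈ S, pat x i = γ i then F d x else 0) d := by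
        intro x
        have h1 := (hF d hd).1 x
        have h0 : ∀ i ∈ S, pat (x + d) i = pat x i := by
          intro i hi
          rw [hS, Finset.mem_filter] at hi
          exact ARpat_per hs q hu d i hi.2 x
        have h2 : (∀ i ∈ S, pat (x + d) i = γ i) ↔ (∀ i ∈ S, pat x i = γ i) := by
          constructor
          · intro h i hi; rw [← h0 i hi]; exact h i hi
          · intro h i hi; rw [h0 i hi]; exact h i hi
        simp only [h1, h2]
      have h3 := indepU hs q hu h0 hinj (fun i => (hp i).1) M hM hqM γ (univ \ S) d _ hper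
        (hF d hd).2 (by
          intro i hi
          rw [Finset.mem_sdiff, hS, Finset.mem_filter] at hi
          intro h
          exact hi.2 ⟨Finset.mem_univ _, h⟩)
      have h4 : ∑ x ∈ range M, cop M x * (if pat x = γ then F d x else 0) =
          ∑ x ∈ range M, cop M x * (if ∀ i ∈ univ \ S, ARpat hs q x i = γ i then
            (if ∀ i ∈ S, pat x i = γ i then F d x else 0) else 0) := by
        apply Finset.sum_congr rfl
        intro x _
        congr 1
        by_cases h : pat x = γ
        · rw [if_pos h, if_pos (fun i _ => congrFun h i), if_pos (fun i _ => congrFun h i)]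
        · rw [if_neg h]
          by_cases h5 : ∀ i ∈ univ \ S, ARpat hs q x i = γ i
          · rw [if_pos h5, if_neg]
            intro h6
            apply h
            funext i
            by_cases hi : i ∈ S
            · exact h6 i hi
            · exact h5 i (Finset.mem_sdiff.mpr ⟨Finset.mem_univ _, hi⟩)
          · rw [if_neg h5]
      have h5 : mu γ = (∏ i ∈ univ \ S, mu1 ((q i : ℝ) - 1) (γ i)) * ∏ i ∈ S, mu1 ((q i : ℝ) - 1) (γ i) := by
        rw [Finset.prod_sdiff (Finset.subset_univ S)]
        rfl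
      have h6 := muU_pos q (fun i => (hp i).2) γ S
      have h7 := muU_pos q (fun i => (hp i).2) γ (univ \ S)
      simp only [htr]
      rw [h4, h3, h5]
      field_simp
    intro γ γ' hγ
    rw [key γ, key γ']
    have h1 : ∏ i ∈ S, mu1 ((q i : ℝ) - 1) (γ i) = ∏ i ∈ S, mu1 ((q i : ℝ) - 1) (γ' i) :=
      Finset.prod_congr rfl (fun i hi => by rw [hγ i hi])
    have h2 : ∀ x, (∀ i ∈ S, pat x i = γ i) ↔ (∀ i ∈ S, pat x i = γ' i) := by
      intro x
      constructor
      · intro h i hi; rw [← hγ i hi]; exact h i hi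
      · intro h i hi; rw [hγ i hi]; exact h i hi
    rw [h1]
    simp only [h2]
  have hWsum : ∀ γ, tr W γ = ∑ y : Fin Q, tr (F (y + 1)) γ := by
    intro γ
    have h1 : ∀ g : ℕ → ℝ, ∑ y : Fin Q, g (y + 1) = ∑ d ∈ Icc 1 Q, g d := by
      intro g
      rw [Fin.sum_univ_eq_sum_range (fun y => g (y + 1)) Q, Finset.range_eq_Ico,
        Finset.sum_Ico_add' g 0 Q 1]
      apply Finset.sum_congr _ (fun _ _ => rfl)
      ext d
      simp only [Finset.mem_Ico, Finset.mem_Icc]
      omega
    rw [h1 (fun d => tr (F d) γ)]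
    simp only [htr]
    rw [← Finset.mul_sum, Finset.sum_comm]
    congr 1
    apply Finset.sum_congr rfl
    intro x _
    rw [← Finset.mul_sum]
    split_ifs
    · rfl
    · simp
  have hmain := hb (tr W) (by
    intro γ
    simp only [htr]
    apply mul_nonneg
    · have := hmu0 γ; positivity
    · apply Finset.sum_nonneg
      intro x _
      unfold cop
      split_ifs with h1 h2
      · rw [one_mul]; exact hW x h1
      · simp
      · simp
      · simp) ⟨Q, fun y => univ.filter (fun i => q i ∣ (y + 1 : ℕ)), fun y => tr (F (y + 1)), by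
        intro y
        exact hν (y + 1) (Finset.mem_Icc.mpr ⟨by omega, by omega⟩), by
        intro y γ γ' h
        exact hlev (y + 1) (Finset.mem_Icc.mpr ⟨by omega, by omega⟩) γ γ' h, hWsum⟩
  have e1 := htrW W (fun γ => ((alive γ N).card : ℝ))
  have e2 := htrW W (fun _ => 1)
  simp only [mul_one] at e2
  have e3 : ∀ x, (alive (pat x) N) = univ.filter (fun a : Fin k => ∀ i, ¬ q i ∣ x + hs a) := by
    intro x
    unfold alive
    ext a
    simp only [Finset.mem_filter, Finset.mem_univ, true_and]
    constructor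
    · intro h i hd
      exact h i i.2 ((ARpat_some hs q hu x i a).mpr hd)
    · intro h i _ hd
      exact h i ((ARpat_some hs q hu x i a).mp hd)
  rw [e1, e2] at hmain
  have hmain' := mul_le_mul_of_nonneg_left hmain hM0.le
  have e4 : (M : ℝ) * (1 / M * ∑ x ∈ range M, cop M x * (W x * ((alive (pat x) N).card : ℝ))) =
      ∑ x ∈ range M, cop M x * (W x * ((alive (pat x) N).card : ℝ)) := by
    field_simp
  have e5 : (M : ℝ) * (b * (1 / M * ∑ x ∈ range M, cop M x * W x)) = b * ∑ x ∈ range M, cop M x * W x := by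
    field_simp
  rw [e4, e5] at hmain'
  refine le_trans (le_of_eq ?_) hmain'
  apply Finset.sum_congr rfl
  intro x _
  rw [e3 x]

end Pool.Agent.Run7.h962.LF
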