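import Pool.Agent.Run7.h962.NW.Pr

/-! # The sharp limit of nonnegative sieve weights for linear forms: numbers without small prime factors
(helper962; the proof follows `Pool/Agent/Run7/h91/NW/FIN.lean` of helper91). -/

set_option autoImplicit false

open Finset

namespace Pool.Agent.Run7.h962.LF

open Pool.Agent.N422.NW Pool.Agent.N422.NWS Pool.Agent.N422.SL Pool.Agent.Run7.h962.NW

/-- a shift which agrees with the linear form at the divisors of `M` -/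
theorem crt (M : ℕ) (hM : 0 < M) (a b : ℤ) (hab : IsCoprime a (M : ℤ)) :
    ∃ h : ℕ, ∀ q : ℕ, q ∣ M → ∀ x : ℕ, q ∣ x + h ↔ (q : ℤ) ∣ a * x + b := by
  obtain ⟨u, v, huv⟩ := hab
  have hM' : (M : ℤ) ≠ 0 := by exact_mod_cast hM.ne'
  obtain ⟨h, hh⟩ : ∃ h : ℕ, (h : ℤ) = (b * u) % M := ⟨((b * u) % M).toNat, Int.toNat_of_nonneg (Int.emod_nonneg _ hM')⟩
  refine ⟨h, fun q hq x => ?_⟩
  have hqM : (q : ℤ) ∣ M := by exact_mod_cast hq
  have hcop : IsCoprime (q : ℤ) a := by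
    have : IsCoprime a (M : ℤ) := ⟨u, v, huv⟩
    exact (this.of_isCoprime_of_dvd_right hqM).symm
  have h1 : (M : ℤ) ∣ b * u - h := by
    rw [hh]
    exact Int.dvd_self_sub_emod
  have h2 : (q : ℤ) ∣ (a * x + b) - a * (x + h) := by
    have e : (a * x + b) - a * (x + h) = a * (b * u - h) + b * v * M := by linear_combination (-b) * huv
    rw [e]
    exact dvd_add (Dvd.dvd.mul_left (hqM.trans h1) _) (Dvd.dvd.mul_left hqM _)
  have h3 : q ∣ x + h ↔ (q : ℤ) ∣ (x + h : ℤ) := by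
    have : ((x + h : ℕ) : ℤ) = (x + h : ℤ) := by push_cast; ring
    rw [← this, Int.natCast_dvd_natCast]
  rw [h3]
  constructor
  · intro h4
    have h5 := dvd_add h2 (Dvd.dvd.mul_left h4 a)
    simpa using h5
  · intro h4
    have h5 := dvd_sub h4 h2
    have h6 : (q : ℤ) ∣ a * (x + h) := by simpa using h5
    exact hcop.dvd_of_dvd_mul_left h6

/-- the product of the slopes and of the determinants -/
def dif {k : ℕ} (a b : Fin k → ℤ) : ℕ :=
  (∏ i, (a i).natAbs) * ∏ z ∈ univ.filter (fun z : Fin k × Fin k => z.1 ≠ z.2), (a z.1 * b z.2 - a z.2 * b z.1).natAbs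

theorem dif_pos {k : ℕ} {a b : Fin k → ℤ} (ha : ∀ i, a i ≠ 0) (hab : ∀ i j, i ≠ j → a i * b j ≠ a j * b i) :
    0 < dif a b := by
  unfold dif
  refine Nat.mul_pos (prod_pos fun i _ => Int.natAbs_pos.2 (ha i)) (prod_pos fun z hz => ?_)
  rw [mem_filter] at hz
  exact Int.natAbs_pos.2 (sub_ne_zero.2 (hab _ _ hz.2))

theorem dvd_dif1 {k : ℕ} (a b : Fin k → ℤ) (i : Fin k) : (a i).natAbs ∣ dif a b :=
  Dvd.dvd.mul_right (dvd_prod_of_mem _ (mem_univ i)) _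

theorem dvd_dif2 {k : ℕ} (a b : Fin k → ℤ) (i j : Fin k) (hij : i ≠ j) :
    (a i * b j - a j * b i).natAbs ∣ dif a b :=
  Dvd.dvd.mul_left (dvd_prod_of_mem (fun z : Fin k × Fin k => (a z.1 * b z.2 - a z.2 * b z.1).natAbs)
    (mem_filter.2 ⟨mem_univ (i, j), hij⟩)) _

theorem log_natAbs {x : ℤ} {Q : ℕ} {T : ℝ} (hx : x ≠ 0) (hQ : 1 ≤ Q) (h : |(x : ℝ)| ≤ (Q : ℝ) ^ T) :
    Real.log (x.natAbs : ℝ) ≤ T * Real.log Q := by
  have hQr : (0 : ℝ) < Q := by exact_mod_cast hQ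
  rw [← Real.log_rpow hQr]
  apply Real.log_le_log
  · exact_mod_cast Int.natAbs_pos.2 hx
  · rw [Nat.cast_natAbs]
    exact_mod_cast h

theorem dif_log {k : ℕ} {a b : Fin k → ℤ} {Q : ℕ} {B : ℝ} (hB : 0 ≤ B) (ha : ∀ i, a i ≠ 0)
    (hab : ∀ i j, i ≠ j → a i * b j ≠ a j * b i) (hQ : 2 ≤ Q) (haB : ∀ i, |(a i : ℝ)| ≤ (Q : ℝ) ^ B)
    (hbB : ∀ i, |(b i : ℝ)| ≤ (Q : ℝ) ^ B) :
    Real.log (dif a b) ≤ (k * B + (k : ℝ) ^ 2 * (2 * B + 1)) * Real.log Q := by
  have hQr : (0 : ℝ) < Q := by exact_mod_cast (by omega : 0 < Q)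
  have hQ2 : (2 : ℝ) ≤ Q := by exact_mod_cast hQ
  have hlogQ0 : 0 ≤ Real.log Q := Real.log_natCast_nonneg Q
  unfold dif
  push_cast
  have hne1 : ∀ i ∈ (univ : Finset (Fin k)), ((a i).natAbs : ℝ) ≠ 0 := fun i _ => by
    exact_mod_cast (Int.natAbs_pos.2 (ha i)).ne'
  have hne2 : ∀ z ∈ univ.filter (fun z : Fin k × Fin k => z.1 ≠ z.2),
      ((a z.1 * b z.2 - a z.2 * b z.1).natAbs : ℝ) ≠ 0 := by
    intro z hz
    rw [mem_filter] at hz
    exact_mod_cast (Int.natAbs_pos.2 (sub_ne_zero.2 (hab _ _ hz.2))).ne'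
  have h1 : ∀ i ∈ (univ : Finset (Fin k)), Real.log ((a i).natAbs : ℝ) ≤ B * Real.log Q := fun i _ =>
    log_natAbs (ha i) (by omega) (haB i)
  have h2 : ∀ z ∈ univ.filter (fun z : Fin k × Fin k => z.1 ≠ z.2),
      Real.log ((a z.1 * b z.2 - a z.2 * b z.1).natAbs : ℝ) ≤ (2 * B + 1) * Real.log Q := by
    intro z hz
    rw [mem_filter] at hz
    apply log_natAbs (sub_ne_zero.2 (hab _ _ hz.2)) (by omega)
    push_cast
    have hp : (Q : ℝ) ^ (2 * B + 1) = (Q : ℝ) ^ B * (Q : ℝ) ^ B * Q := by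
      rw [Real.rpow_add hQr, Real.rpow_one, two_mul, Real.rpow_add hQr]
    rw [hp]
    have hpos : 0 ≤ (Q : ℝ) ^ B := Real.rpow_nonneg hQr.le _
    have h3 : |(a z.1 : ℝ) * b z.2| ≤ (Q : ℝ) ^ B * (Q : ℝ) ^ B := by
      rw [abs_mul]
      exact mul_le_mul (haB _) (hbB _) (abs_nonneg _) hpos
    have h4 : |(a z.2 : ℝ) * b z.1| ≤ (Q : ℝ) ^ B * (Q : ℝ) ^ B := by
      rw [abs_mul]
      exact mul_le_mul (haB _) (hbB _) (abs_nonneg _) hpos
    have h5 := abs_sub (a z.1 * b z.2 : ℝ) (a z.2 * b z.1)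
    have h6 : 0 ≤ (Q : ℝ) ^ B * (Q : ℝ) ^ B := mul_nonneg hpos hpos
    nlinarith
  rw [Real.log_mul (Finset.prod_ne_zero_iff.2 hne1) (Finset.prod_ne_zero_iff.2 hne2), Real.log_prod hne1,
    Real.log_prod hne2]
  have h3 : ∑ i, Real.log ((a i).natAbs : ℝ) ≤ k * B * Real.log Q := by
    refine (sum_le_sum h1).trans (le_of_eq ?_)
    rw [sum_const, card_univ, Fintype.card_fin, nsmul_eq_mul]
    ring
  have h4 : ∑ z ∈ univ.filter (fun z : Fin k × Fin k => z.1 ≠ z.2),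
      Real.log ((a z.1 * b z.2 - a z.2 * b z.1).natAbs : ℝ) ≤ (k : ℝ) ^ 2 * (2 * B + 1) * Real.log Q := by
    refine (sum_le_sum h2).trans ?_
    rw [sum_const, nsmul_eq_mul, mul_assoc]
    apply mul_le_mul_of_nonneg_right _ (by positivity)
    have h6 : (univ.filter (fun z : Fin k × Fin k => z.1 ≠ z.2)).card ≤ k ^ 2 := by
      refine (card_filter_le _ _).trans ?_
      rw [card_univ, Fintype.card_prod, Fintype.card_fin, sq]
    exact_mod_cast h6
  linarith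

theorem lin_free : ∀ ε : ℝ, 0 < ε → ∃ C : ℝ, 0 ≤ C ∧ ∀ (k : ℕ) (B : ℝ), 1 ≤ k → ∃ Q0 : ℕ, ∀ Q : ℕ, Q0 ≤ Q →
    ∀ a b : Fin k → ℤ, (∀ i, a i ≠ 0) → (∀ i j, i ≠ j → a i * b j ≠ a j * b i) →
    (∀ i, |(a i : ℝ)| ≤ (Q : ℝ) ^ B) → (∀ i, |(b i : ℝ)| ≤ (Q : ℝ) ^ B) → ∀ c : ℕ → ℕ → ℝ, (∀ n, 0 ≤ wt Q c n) →
    ∑ n ∈ range Q.factorial, wt Q c n *
      ((univ.filter (fun i => ∀ p ∈ range (Q + 1), p.Prime → ¬ (p : ℤ) ∣ a i * n + b i)).card : ℝ) ≤
    ((Real.exp (-Real.eulerMascheroniConstant) / 2 + ε) * Real.log k + C) * ∑ n ∈ range Q.factorial, wt Q c n := by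
  classical
  intro ε hε
  obtain ⟨C, hC0, hC⟩ := pss ε hε
  refine ⟨C, hC0, ?_⟩
  intro k B0 hk
  obtain ⟨B, hB⟩ : ∃ B : ℝ, B = max B0 0 := ⟨_, rfl⟩
  have hB0 : 0 ≤ B := by rw [hB]; exact le_max_right _ _
  obtain ⟨m, n, η, q0, hm, hmn, hη, hq0, hPS⟩ := hC k hk
  obtain ⟨b', hb⟩ : ∃ b' : ℝ, b' = (Real.exp (-Real.eulerMascheroniConstant) / 2 + ε) * Real.log k + C := ⟨_, rfl⟩
  rw [← hb] at hPS
  rw [← hb]
  have hn0 : 0 < n := by omega
  have hnr : (0 : ℝ) < n := by exact_mod_cast hn0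
  obtain ⟨Q1, hQ1⟩ := t_MER m n (k * B + (k : ℝ) ^ 2 * (2 * B + 1)) η hm hmn hη
  obtain ⟨Q3, hQ3⟩ := Pool.Agent.Run7.h372.NW.t_MER2 m n η hm hmn hη
  obtain ⟨Y0, hY0⟩ := exists_nat_ge (max (k : ℝ) q0)
  have hY1 : (k : ℝ) ≤ Y0 := (le_max_left _ _).trans hY0
  have hY2 : q0 ≤ Y0 := (le_max_right _ _).trans hY0
  have hY3 : (0 : ℝ) < Y0 := by linarith
  obtain ⟨Q2, hQ2⟩ := (Filter.tendsto_atTop.1 (Real.tendsto_log_atTop.comp tendsto_natCast_atTop_atTop)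
    ((n : ℝ) * Real.log Y0 + 1)).exists_forall_of_atTop
  refine ⟨max (max Q1 Q3) (max Q2 2), ?_⟩
  intro Q hQ a b ha hab haB' hbB' c hw
  have hQa : Q1 ≤ Q := (le_max_left _ _).trans ((le_max_left _ _).trans hQ)
  have hQd : Q3 ≤ Q := (le_max_right _ _).trans ((le_max_left _ _).trans hQ)
  have hQb : Q2 ≤ Q := (le_max_left _ _).trans ((le_max_right _ _).trans hQ)
  have hQc2 : 2 ≤ Q := (le_max_right _ _).trans ((le_max_right _ _).trans hQ)
  have hQc : 1 ≤ Q := by omega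
  have hQ1r : (1 : ℝ) ≤ Q := by exact_mod_cast hQc
  have hmono : (Q : ℝ) ^ B0 ≤ (Q : ℝ) ^ B := Real.rpow_le_rpow_of_exponent_le hQ1r (by rw [hB]; exact le_max_left _ _)
  have haB : ∀ i, |(a i : ℝ)| ≤ (Q : ℝ) ^ B := fun i => (haB' i).trans hmono
  have hbB : ∀ i, |(b i : ℝ)| ≤ (Q : ℝ) ^ B := fun i => (hbB' i).trans hmono
  have hlogY : 0 ≤ Real.log (Y0 : ℝ) := Real.log_natCast_nonneg Y0
  have hlogQ : (n : ℝ) * Real.log Y0 + 1 ≤ Real.log Q := hQ2 Q hQb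
  have hlogQ0 : 0 < Real.log Q := by
    have : 0 ≤ (n : ℝ) * Real.log Y0 := by positivity
    linarith
  have hM0 : 0 < Q.factorial := Nat.factorial_pos Q
  -- large primes
  have hbig : ∀ p : ℕ, 0 < p → (m : ℝ) * Real.log Q < n * Real.log p → Y0 < p := by
    intro p hp0 h
    have hmr : (1 : ℝ) ≤ m := by exact_mod_cast hm
    have h5 : (n : ℝ) * Real.log Y0 < n * Real.log p := by nlinarith
    have h6 : Real.log Y0 < Real.log p := lt_of_mul_lt_mul_left h5 hnr.le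
    have h7 := (Real.log_lt_log_iff hY3 (by exact_mod_cast hp0)).1 h6
    exact_mod_cast h7
  -- the bad primes
  obtain ⟨Bd, hBd⟩ : ∃ Bd : Finset ℕ, Bd = ((Icc 1 Q).filter Nat.Prime).filter (fun p => p ∣ dif a b) := ⟨_, rfl⟩
  have hBdp : ∀ p ∈ Bd, p.Prime ∧ p ∣ dif a b := fun p hp => by
    rw [hBd, mem_filter, mem_filter] at hp
    exact ⟨hp.1.2, hp.2⟩
  have hmer := hQ1 Q hQa Bd (fun p hp => (hBdp p hp).1)
    ((AB_lg (dif_pos ha hab) hBdp).trans (dif_log hB0 ha hab hQc2 haB hbB))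
  have hmer2 := hQ3 Q hQd
  -- the places
  obtain ⟨P, hP⟩ : ∃ P : Finset ℕ, P = ((Icc 1 Q).filter Nat.Prime).filter
    (fun p : ℕ => p ∉ Bd ∧ (m : ℝ) * Real.log Q < n * Real.log p) := ⟨_, rfl⟩
  have hP' : ∀ p ∈ P, p.Prime ∧ 1 ≤ p ∧ p ≤ Q ∧ p ∉ Bd ∧ (m : ℝ) * Real.log Q < n * Real.log p := fun p hp => by
    rw [hP, mem_filter, mem_filter, mem_Icc] at hp
    exact ⟨hp.1.2, hp.1.1.1, hp.1.1.2, hp.2.1, hp.2.2⟩
  have hlogp : ∀ p ∈ P, Real.log p ≤ Real.log Q := fun p hp => by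
    have h := hP' p hp
    exact Real.log_le_log (by exact_mod_cast h.2.1) (by exact_mod_cast h.2.2.1)
  have hspec := fun p (hp : p ∈ P) => AB_blk_spec (m := m) (n := n) (Q := Q) (p := p) hm hlogQ0
    (hP' p hp).2.2.2.2 (hlogp p hp)
  have hpY : ∀ p ∈ P, Y0 < p := fun p hp => hbig p (hP' p hp).2.1 (hP' p hp).2.2.2.2
  have hblock : ∀ j, m ≤ j → j < n → P.filter (fun p => AB_blk n Q p = j) =
      ((Icc 1 Q).filter Nat.Prime).filter (fun p => p ∉ Bd ∧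
        (j : ℝ) * Real.log Q < n * Real.log p ∧ n * Real.log p ≤ ((j : ℝ) + 1) * Real.log Q) := by
    intro j hj1 hj2
    ext p
    constructor
    · intro hp
      rw [mem_filter] at hp
      have h := hP' p hp.1
      have hs := hspec p hp.1
      rw [hp.2] at hs
      simp only [mem_filter, mem_Icc]
      exact ⟨⟨⟨h.2.1, h.2.2.1⟩, h.1⟩, h.2.2.2.1, hs.2.2.1, hs.2.2.2⟩
    · intro hp
      simp only [mem_filter, mem_Icc] at hp
      obtain ⟨⟨⟨h1, h2⟩, h5⟩, h6, h7, h8⟩ := hp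
      have hmj : (m : ℝ) ≤ j := by exact_mod_cast hj1
      rw [hP]
      simp only [mem_filter, mem_Icc]
      exact ⟨⟨⟨⟨h1, h2⟩, h5⟩, h6, by nlinarith⟩, AB_blk_unique hlogQ0 h7 h8⟩
  obtain ⟨q, hq⟩ : ∃ q : Fin P.card → ℕ, q = P.orderEmbOfFin rfl := ⟨_, rfl⟩
  have hqmem : ∀ i, q i ∈ P := fun i => by rw [hq]; exact P.orderEmbOfFin_mem rfl i
  have hqmono : StrictMono q := by rw [hq]; exact (P.orderEmbOfFin rfl).strictMono
  have himg : P = univ.image q := by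
    rw [hq]
    exact (Finset.image_orderEmbOfFin_univ P rfl).symm
  -- a prime of `P` divides no slope and no determinant
  have hnot : ∀ i, ¬ q i ∣ dif a b := by
    intro i hd
    have h := hP' _ (hqmem i)
    apply h.2.2.2.1
    rw [hBd, mem_filter, mem_filter, mem_Icc]
    exact ⟨⟨⟨h.2.1, h.2.2.1⟩, h.1⟩, hd⟩
  -- the shifts
  have hMP : 0 < ∏ p ∈ P, p := prod_pos fun p hp => (hP' p hp).2.1
  have hcopP : ∀ x : Fin k, IsCoprime (a x) ((∏ p ∈ P, p : ℕ) : ℤ) := by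
    intro x
    rw [Int.isCoprime_iff_gcd_eq_one, Int.gcd_eq_natAbs, Int.natAbs_natCast]
    apply Nat.Coprime.prod_right
    intro p hp
    rw [himg, mem_image] at hp
    obtain ⟨i, -, rfl⟩ := hp
    rw [Nat.coprime_comm, (hP' _ (hqmem i)).1.coprime_iff_not_dvd]
    intro hd
    exact hnot i (hd.trans (dvd_dif1 a b x))
  choose hs hhs using fun x : Fin k => crt (∏ p ∈ P, p) hMP (a x) (b x) (hcopP x)
  have hqdvd : ∀ i, q i ∣ ∏ p ∈ P, p := fun i => dvd_prod_of_mem (fun p => p) (hqmem i)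
  have hinj : ∀ (i : Fin P.card) (x : ℕ) (y y' : Fin k), q i ∣ x + hs y → q i ∣ x + hs y' → y = y' := by
    intro i x y y' hy hy'
    by_contra hne
    rw [hhs y (q i) (hqdvd i) x] at hy
    rw [hhs y' (q i) (hqdvd i) x] at hy'
    apply hnot i
    refine dvd_trans ?_ (dvd_dif2 a b y y' hne)
    rw [← Int.natCast_dvd_natCast, Int.dvd_natAbs]
    have e : a y * b y' - a y' * b y = a y * (a y' * x + b y') - a y' * (a y * x + b y) := by ring
    rw [e]
    exact dvd_sub (Dvd.dvd.mul_left hy' _) (Dvd.dvd.mul_left hy _)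
  have hsumq : ∀ (j : ℕ) (G : ℕ → ℝ), ∑ i ∈ univ.filter (fun i => AB_blk n Q (q i) = j), G (q i) =
      ∑ p ∈ P.filter (fun p => AB_blk n Q p = j), G p := by
    intro j G
    have e : P.filter (fun p => AB_blk n Q p = j) = (univ.filter (fun i => AB_blk n Q (q i) = j)).image q := by
      conv_lhs => rw [himg]
      rw [filter_image]
    rw [e, sum_image (fun a _ b _ hab => hqmono.injective hab)]
  have hmain := t_AR P.card k hs q (fun i => AB_blk n Q (q i)) n Q Q.factorial (fun d x => c d (x % d)) b'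
    hqmono.injective
    (fun i => ⟨(hP' _ (hqmem i)).1, by
      have h5 := hpY _ (hqmem i)
      have h6 : k ≤ Y0 := by exact_mod_cast hY1
      omega⟩) hinj hM0
    (fun i => Nat.dvd_factorial (hP' _ (hqmem i)).2.1 (hP' _ (hqmem i)).2.2.1)
    (fun d hd => ⟨fun x => by simp only [Nat.add_mod_right], by
      rw [mem_Icc] at hd
      exact Nat.dvd_factorial (by omega) hd.2⟩)
    (fun x => hw x)
    (fun d hd => by
      rw [mem_Icc] at hd
      obtain ⟨T, hT⟩ : ∃ T : Finset (Fin P.card), T = univ.filter (fun i => q i ∣ d) :=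
        ⟨_, rfl⟩
      rw [← hT]
      have h5 : ∑ i ∈ T, Real.log (q i) ≤ Real.log d := by
        have h6 : ∑ i ∈ T, Real.log (q i) = ∑ p ∈ T.image q, Real.log p := by
          rw [sum_image (fun a _ b _ hab => hqmono.injective hab)]
        rw [h6]
        refine AB_lg (by omega) ?_
        intro p hp
        rw [mem_image] at hp
        obtain ⟨i, hi, rfl⟩ := hp
        rw [hT, mem_filter] at hi
        exact ⟨(hP' _ (hqmem i)).1, hi.2⟩
      have h7 : Real.log d ≤ Real.log Q :=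
        Real.log_le_log (by exact_mod_cast hd.1) (by exact_mod_cast hd.2)
      have h9 : (∑ i ∈ T, (AB_blk n Q (q i) : ℝ)) * Real.log Q ≤ n * Real.log Q := by
        rw [sum_mul]
        refine (sum_le_sum fun i _ => (hspec _ (hqmem i)).2.2.1.le).trans ?_
        rw [← mul_sum]
        exact mul_le_mul_of_nonneg_left (h5.trans h7) hnr.le
      have h10 := le_of_mul_le_mul_right h9 hlogQ0
      exact_mod_cast h10)
    (fun f hf0 hfL => hPS P.card (fun i => (q i : ℝ)) (fun i => AB_blk n Q (q i))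
      (fun i => ⟨(hspec _ (hqmem i)).1, (hspec _ (hqmem i)).2.1⟩)
      (fun i => by
        have h5 := hpY _ (hqmem i)
        have h6 : (Y0 : ℝ) < q i := by exact_mod_cast h5
        linarith)
      (fun j hj1 hj2 => by
        rw [hsumq j (fun p => 1 / (p : ℝ)), hblock j hj1 hj2]
        refine ⟨hmer j hj1 hj2, le_trans ?_ (hmer2 j hj1 hj2)⟩
        apply sum_le_sum_of_subset_of_nonneg
        · intro p hp
          rw [mem_filter] at hp ⊢
          exact ⟨hp.1, hp.2.2⟩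
        · intro p _ _
          positivity) f hf0 hfL)
  refine le_trans ?_ hmain
  apply sum_le_sum
  intro x _
  apply mul_le_mul_of_nonneg_left _ (hw x)
  have hcard : (univ.filter (fun i : Fin k => ∀ p ∈ range (Q + 1), p.Prime → ¬ (p : ℤ) ∣ a i * x + b i)).card ≤
      (univ.filter (fun y : Fin k => ∀ i, ¬ q i ∣ x + hs y)).card := by
    apply card_le_card
    intro y hy
    rw [mem_filter] at hy ⊢
    refine ⟨mem_univ _, fun i => ?_⟩
    have h6 := hP' _ (hqmem i)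
    rw [hhs y (q i) (hqdvd i) x]
    exact hy.2 (q i) (mem_range.2 (by omega)) h6.1
  exact_mod_cast hcard

end Pool.Agent.Run7.h962.LF
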