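import Pool.Agent.Run7.h962.LF.Gen

/-! # All factorial moments: nonnegative weights of level `Q` see at most a Poisson number of values without small prime
factors (helper962) -/

set_option autoImplicit false

open Finset

namespace Pool.Agent.Run7.h962.LP

open Pool.Agent.N422.NW Pool.Agent.N422.NWS Pool.Agent.N422.SL Pool.Agent.Run7.h962.NW Pool.Agent.Run7.h962.LF

/-- the forms without prime factors up to `Q` at `n` -/
def fr (Q : ℕ) {k : ℕ} (a b : Fin k → ℤ) (n : ℕ) : Finset (Fin k) :=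
  univ.filter (fun i => ∀ p ∈ range (Q + 1), p.Prime → ¬ (p : ℤ) ∣ a i * n + b i)

/-- `P` times the forms in `R` -/
noncomputable def PR (P : Polynomial ℤ) {k : ℕ} (a b : Fin k → ℤ) (R : Finset (Fin k)) : Polynomial ℤ :=
  P * ∏ i ∈ R, (Polynomial.C (a i) * Polynomial.X + Polynomial.C (b i))

theorem PR_degree (P : Polynomial ℤ) (g : ℕ) (hP : P.natDegree ≤ g) {k : ℕ} (a b : Fin k → ℤ) (R : Finset (Fin k)) :
    (PR P a b R).natDegree ≤ g + R.card := by
  unfold PR
  refine (Polynomial.natDegree_mul_le).trans (Nat.add_le_add hP ?_)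
  refine (Polynomial.natDegree_prod_le _ _).trans ?_
  refine (Finset.sum_le_sum (fun i _ => Polynomial.natDegree_linear_le)).trans ?_
  simp

theorem PR_coeff (P : Polynomial ℤ) (X : ℝ) (hX : 0 ≤ X) (hP : ∀ j, |(P.coeff j : ℝ)| ≤ X) {k : ℕ} (a b : Fin k → ℤ)
    (ha : ∀ i, |(a i : ℝ)| ≤ X) (hb : ∀ i, |(b i : ℝ)| ≤ X) (R : Finset (Fin k)) :
    ∀ j, |((PR P a b R).coeff j : ℝ)| ≤ (2 * X) ^ R.card * X := by
  classical
  induction R using Finset.induction_on with
  | empty =>
    intro j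
    simp only [PR, Finset.prod_empty, mul_one, Finset.card_empty, pow_zero, one_mul]
    exact hP j
  | insert i R hi ih =>
    intro j
    have e : PR P a b (insert i R) = (PR P a b R * Polynomial.X) * Polynomial.C (a i) + PR P a b R * Polynomial.C (b i) := by
      unfold PR
      rw [Finset.prod_insert hi]
      ring
    rw [e, Polynomial.coeff_add, Polynomial.coeff_mul_C, Polynomial.coeff_mul_C, Finset.card_insert_of_notMem hi]
    have h0 : 0 ≤ (2 * X) ^ R.card * X := by positivity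
    have h1 : |(((PR P a b R * Polynomial.X).coeff j : ℤ) : ℝ)| ≤ (2 * X) ^ R.card * X := by
      cases j with
      | zero => simpa using h0
      | succ j => rw [Polynomial.coeff_mul_X]; exact ih j
    push_cast
    refine (abs_add_le _ _).trans ?_
    rw [abs_mul, abs_mul]
    have h2 : |(((PR P a b R * Polynomial.X).coeff j : ℤ) : ℝ)| * |(a i : ℝ)| ≤ ((2 * X) ^ R.card * X) * X :=
      mul_le_mul h1 (ha i) (abs_nonneg _) h0
    have h3 : |(((PR P a b R).coeff j : ℤ) : ℝ)| * |(b i : ℝ)| ≤ ((2 * X) ^ R.card * X) * X :=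
      mul_le_mul (ih j) (hb i) (abs_nonneg _) h0
    calc _ ≤ ((2 * X) ^ R.card * X) * X + ((2 * X) ^ R.card * X) * X := add_le_add h2 h3
      _ = (2 * X) ^ (R.card + 1) * X := by ring

theorem PR_eval (P : Polynomial ℤ) {k : ℕ} (a b : Fin k → ℤ) (R : Finset (Fin k)) (x : ℤ) :
    (PR P a b R).eval x = P.eval x * ∏ i ∈ R, (a i * x + b i) := by
  unfold PR
  rw [Polynomial.eval_mul, Polynomial.eval_prod]
  congr 1
  apply Finset.prod_congr rfl
  intro i _
  simp

theorem gcd_iff (Q : ℕ) (y : ℤ) : Int.gcd y (Q.factorial : ℕ) = 1 ↔ ∀ p ∈ range (Q + 1), p.Prime → ¬ (p : ℤ) ∣ y := by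
  rw [Int.gcd_eq_natAbs, Int.natAbs_natCast]
  constructor
  · intro h p hp hpp hd
    rw [mem_range] at hp
    have h1 : p ∣ y.natAbs := Int.natCast_dvd.1 hd
    have h2 : p ∣ Q.factorial := Nat.dvd_factorial hpp.pos (by omega)
    have := Nat.dvd_gcd h1 h2
    rw [h] at this
    exact hpp.one_lt.ne' (Nat.dvd_one.1 this)
  · intro h
    by_contra hne
    obtain ⟨p, hp, hd⟩ := Nat.exists_prime_and_dvd hne
    have h1 : p ∣ y.natAbs := hd.trans (Nat.gcd_dvd_left _ _)
    have h2 : p ∣ Q.factorial := hd.trans (Nat.gcd_dvd_right _ _)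
    have h3 : p ≤ Q := (hp.dvd_factorial).1 h2
    exact h p (mem_range.2 (by omega)) hp (Int.natCast_dvd.2 h1)

theorem gcd_mul_iff (Q : ℕ) (y z : ℤ) :
    Int.gcd (y * z) (Q.factorial : ℕ) = 1 ↔ Int.gcd y (Q.factorial : ℕ) = 1 ∧ Int.gcd z (Q.factorial : ℕ) = 1 := by
  simp only [Int.gcd_eq_natAbs, Int.natAbs_natCast, Int.natAbs_mul]
  exact Nat.coprime_mul_iff_left

theorem gcd_prod_iff (Q : ℕ) {k : ℕ} (a b : Fin k → ℤ) (R : Finset (Fin k)) (n : ℕ) :
    Int.gcd (∏ i ∈ R, (a i * (n : ℤ) + b i)) (Q.factorial : ℕ) = 1 ↔ R ⊆ fr Q a b n := by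
  classical
  induction R using Finset.induction_on with
  | empty => simp
  | insert i R hi ih =>
    rw [Finset.prod_insert hi, gcd_mul_iff, ih, Finset.insert_subset_iff, gcd_iff]
    unfold fr
    simp only [mem_filter, mem_univ, true_and]

theorem cop_PR (P : Polynomial ℤ) (Q : ℕ) {k : ℕ} (a b : Fin k → ℤ) (R : Finset (Fin k)) (n : ℕ) :
    cop (PR P a b R) Q.factorial n = cop P Q.factorial n * (if R ⊆ fr Q a b n then 1 else 0) := by
  classical
  unfold cop
  rw [PR_eval]
  by_cases h1 : Int.gcd (P.eval (n : ℤ)) (Q.factorial : ℕ) = 1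
  · by_cases h2 : R ⊆ fr Q a b n
    · rw [if_pos ((gcd_mul_iff _ _ _).2 ⟨h1, (gcd_prod_iff Q a b R n).2 h2⟩), if_pos h1, if_pos h2, mul_one]
    · rw [if_neg (fun h => h2 ((gcd_prod_iff Q a b R n).1 ((gcd_mul_iff _ _ _).1 h).2)), if_neg h2, mul_zero]
  · rw [if_neg (fun h => h1 ((gcd_mul_iff _ _ _).1 h).1), if_neg h1, zero_mul]

/-- the counting identity -/
theorem count_id {k : ℕ} (S : Finset (Fin k)) (r : ℕ) :
    ∑ R ∈ powersetCard r (univ : Finset (Fin k)), (if R ⊆ S then (1 : ℝ) else 0) * ((S \ R).card : ℝ) =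
      ((r : ℝ) + 1) * (S.card.choose (r + 1) : ℝ) := by
  classical
  have e : ∑ R ∈ powersetCard r (univ : Finset (Fin k)), (if R ⊆ S then (1 : ℝ) else 0) * ((S \ R).card : ℝ) =
      ∑ R ∈ powersetCard r S, ((S.card - r : ℕ) : ℝ) := by
    have h1 : powersetCard r S = (powersetCard r (univ : Finset (Fin k))).filter (fun R => R ⊆ S) := by
      ext R
      simp only [mem_powersetCard, mem_filter, subset_univ, true_and]
      tauto
    rw [h1, Finset.sum_filter]
    apply Finset.sum_congr rfl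
    intro R hR
    rw [mem_powersetCard] at hR
    by_cases h : R ⊆ S
    · rw [if_pos h, if_pos h, one_mul, Finset.card_sdiff_of_subset h, hR.2]
    · rw [if_neg h, if_neg h, zero_mul]
  rw [e, Finset.sum_const, Finset.card_powersetCard, nsmul_eq_mul]
  have h2 := Nat.choose_succ_right_eq S.card r
  have h3 : ((S.card.choose (r + 1) : ℕ) : ℝ) * ((r : ℝ) + 1) = (S.card.choose r : ℝ) * ((S.card - r : ℕ) : ℝ) := by
    exact_mod_cast h2
  rw [← h3, mul_comm]

theorem choose_id {k : ℕ} (S : Finset (Fin k)) (r : ℕ) :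
    ∑ R ∈ powersetCard r (univ : Finset (Fin k)), (if R ⊆ S then (1 : ℝ) else 0) = (S.card.choose r : ℝ) := by
  classical
  rw [← Finset.card_powersetCard, ← Finset.sum_filter, Finset.sum_const, nsmul_eq_mul, mul_one]
  congr 2
  ext R
  simp only [mem_powersetCard, mem_filter, subset_univ, true_and]
  tauto

/-- **all factorial moments** -/
theorem poisson : ∀ ε : ℝ, 0 < ε → ∃ C : ℝ, 0 ≤ C ∧ ∀ (k g : ℕ) (B : ℝ), ∃ Q0 : ℕ, ∀ Q : ℕ, Q0 ≤ Q →
    ∀ P : Polynomial ℤ, P.natDegree ≤ g → (∀ j, |(P.coeff j : ℝ)| ≤ (Q : ℝ) ^ B) →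
    ∀ a b : Fin k → ℤ, (∀ i, a i ≠ 0) → (∀ i, Polynomial.aeval (-(b i : ℚ) / a i) P ≠ 0) →
    (∀ i j, i ≠ j → a i * b j ≠ a j * b i) →
    (∀ i, |(a i : ℝ)| ≤ (Q : ℝ) ^ B) → (∀ i, |(b i : ℝ)| ≤ (Q : ℝ) ^ B) →
    ∀ c : ℕ → ℕ → ℝ, (∀ n : ℕ, Int.gcd (P.eval (n : ℤ)) Q.factorial = 1 → 0 ≤ wt Q c n) → ∀ r : ℕ,
    ((r : ℝ) + 1) * ∑ n ∈ range Q.factorial, cop P Q.factorial n * (wt Q c n * ((fr Q a b n).card.choose (r + 1) : ℝ)) ≤
      ((Real.exp (-Real.eulerMascheroniConstant) / 2 + ε) * Real.log k + C) *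
        ∑ n ∈ range Q.factorial, cop P Q.factorial n * (wt Q c n * ((fr Q a b n).card.choose r : ℝ)) := by
  classical
  intro ε hε
  obtain ⟨C, hC0, hC⟩ := lin_poly ε hε
  refine ⟨C, hC0, fun k g B0 => ?_⟩
  obtain ⟨B, hB⟩ : ∃ B : ℝ, B = max B0 0 := ⟨_, rfl⟩
  have hB0 : 0 ≤ B := by rw [hB]; exact le_max_right _ _
  have hB1 : B0 ≤ B := by rw [hB]; exact le_max_left _ _
  choose! Qf hQf using fun (r : ℕ) (h : 1 ≤ k - r) => hC (k - r) (g + r) (B * (k + 1) + 1) h
  refine ⟨((range (k + 1)).sup Qf) + 2 ^ k, fun Q hQ P hPd hPB a b ha hP0 hab haB hbB c hc r => ?_⟩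
  have hQk : 2 ^ k ≤ Q := (Nat.le_add_left _ _).trans hQ
  have hQ1 : 1 ≤ Q := le_trans Nat.one_le_two_pow hQk
  have hQr : (1 : ℝ) ≤ Q := by exact_mod_cast hQ1
  have hQB : (Q : ℝ) ^ B0 ≤ (Q : ℝ) ^ B := Real.rpow_le_rpow_of_exponent_le hQr hB1
  have hX : 0 ≤ (Q : ℝ) ^ B := Real.rpow_nonneg (by linarith) _
  have hX1 : 1 ≤ (Q : ℝ) ^ B := Real.one_le_rpow hQr hB0
  have hbig : ∀ s : ℕ, s ≤ k → (2 * (Q : ℝ) ^ B) ^ s * (Q : ℝ) ^ B ≤ (Q : ℝ) ^ (B * (k + 1) + 1) := by
    intro s hs
    rw [mul_pow]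
    have h1 : (2 : ℝ) ^ s ≤ Q := by
      have : (2 : ℝ) ^ k ≤ Q := by exact_mod_cast hQk
      exact (pow_le_pow_right₀ (by norm_num) hs).trans this
    have h2 : ((Q : ℝ) ^ B) ^ s * (Q : ℝ) ^ B ≤ (Q : ℝ) ^ (B * (k + 1)) := by
      rw [← pow_succ, Real.rpow_mul (by linarith)]
      have : ((Q : ℝ) ^ B) ^ ((k : ℝ) + 1) = ((Q : ℝ) ^ B) ^ (k + 1) := by
        rw [← Real.rpow_natCast]
        push_cast
        rfl
      rw [this]
      exact pow_le_pow_right₀ hX1 (by omega)
    have h3 : (Q : ℝ) ^ (B * (k + 1) + 1) = Q * (Q : ℝ) ^ (B * (k + 1)) := by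
      rw [Real.rpow_add (by linarith), Real.rpow_one, mul_comm]
    rw [h3, mul_assoc]
    exact mul_le_mul h1 h2 (by positivity) (by linarith)
  have hsmall : (Q : ℝ) ^ B ≤ (Q : ℝ) ^ (B * (k + 1) + 1) := by
    have := hbig 0 (Nat.zero_le _)
    simpa using this
  by_cases hr : k ≤ r
  · -- both sides: the left side is zero
    have h1 : ∀ n, (fr Q a b n).card.choose (r + 1) = 0 := by
      intro n
      apply Nat.choose_eq_zero_of_lt
      have : (fr Q a b n).card ≤ k := by simpa using Finset.card_le_univ (fr Q a b n)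
      omega
    simp only [h1, Nat.cast_zero, mul_zero, Finset.sum_const_zero]
    apply mul_nonneg
    · have := Real.log_natCast_nonneg k
      positivity
    · apply Finset.sum_nonneg
      intro n _
      unfold cop
      split_ifs with h
      · have := hc n h
        positivity
      · simp
  push Not at hr
  have hr1 : 1 ≤ k - r := by omega
  have hQr0 : Qf r ≤ Q := by
    have h1 : Qf r ≤ (range (k + 1)).sup Qf := Finset.le_sup (f := Qf) (mem_range.2 (by omega))
    exact h1.trans ((Nat.le_add_right _ _).trans hQ)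
  have hstep : ∀ R ∈ powersetCard r (univ : Finset (Fin k)),
      ∑ n ∈ range Q.factorial, cop P Q.factorial n * ((if R ⊆ fr Q a b n then (1 : ℝ) else 0) *
        (wt Q c n * ((fr Q a b n \ R).card : ℝ))) ≤
      ((Real.exp (-Real.eulerMascheroniConstant) / 2 + ε) * Real.log k + C) *
        ∑ n ∈ range Q.factorial, cop P Q.factorial n * ((if R ⊆ fr Q a b n then (1 : ℝ) else 0) * wt Q c n) := by
    intro R hR
    rw [mem_powersetCard] at hR
    have hcard : Rᶜ.card = k - r := by
      rw [Finset.card_compl, hR.2, Fintype.card_fin]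
    obtain ⟨e, he⟩ : ∃ e : Fin (k - r) ↪o Fin k, e = Rᶜ.orderEmbOfFin hcard := ⟨_, rfl⟩
    have hmem : ∀ i, e i ∉ R := by
      intro i
      have := Rᶜ.orderEmbOfFin_mem hcard i
      rw [← he] at this
      exact Finset.mem_compl.1 this
    have hsurj : ∀ j, j ∉ R → ∃ i, e i = j := by
      intro j hj
      have h1 : j ∈ Set.range (Rᶜ.orderEmbOfFin hcard) := by
        rw [Finset.range_orderEmbOfFin]
        exact Finset.mem_coe.2 (Finset.mem_compl.2 hj)
      rw [← he] at h1
      exact h1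
    have hdeg := PR_degree P g hPd a b R
    rw [hR.2] at hdeg
    have hcoef : ∀ j, |((PR P a b R).coeff j : ℝ)| ≤ (Q : ℝ) ^ (B * (k + 1) + 1) := by
      intro j
      refine (PR_coeff P ((Q : ℝ) ^ B) hX (fun j => (hPB j).trans hQB) a b (fun i => (haB i).trans hQB)
        (fun i => (hbB i).trans hQB) R j).trans ?_
      rw [hR.2]
      exact hbig r hr.le
    have hres : ∀ i, res (PR P a b R) (g + r) (a (e i)) (b (e i)) ≠ 0 := by
      intro i h0
      have h6 := res_eval (PR P a b R) (g + r) (a (e i)) (b (e i)) hdeg (ha _)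
      rw [h0, Int.cast_zero] at h6
      have h7 : ((a (e i) : ℤ) : ℚ) ^ (g + r) ≠ 0 := pow_ne_zero _ (by exact_mod_cast ha _)
      have haq : ((a (e i) : ℤ) : ℚ) ≠ 0 := by exact_mod_cast ha _
      apply mul_ne_zero h7 _ h6.symm
      unfold PR
      rw [map_mul, map_prod]
      apply mul_ne_zero (hP0 _)
      rw [Finset.prod_ne_zero_iff]
      intro j hj h8
      have h8' : (a j : ℚ) * (-(b (e i) : ℚ) / a (e i)) + b j = 0 := by
        rw [map_add, map_mul, Polynomial.aeval_C, Polynomial.aeval_C, Polynomial.aeval_X] at h8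
        simpa using h8
      have hne : j ≠ e i := fun h => hmem i (h ▸ hj)
      apply hab j (e i) hne
      have h9 : (a j : ℚ) * b (e i) = a (e i) * b j := by
        field_simp at h8'
        linarith
      exact_mod_cast h9
    have h5 := hQf r hr1 Q hQr0 (PR P a b R) hdeg hcoef (fun i => a (e i)) (fun i => b (e i)) (fun i => ha _) hres
      (fun i j hij => hab _ _ (fun h => hij (e.injective h))) (fun i => ((haB _).trans hQB).trans hsmall)
      (fun i => ((hbB _).trans hQB).trans hsmall) c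
      (fun n hn => hc n (by
        rw [PR_eval, gcd_mul_iff] at hn
        exact hn.1))
    have hcnt : ∀ n : ℕ, (univ.filter (fun i : Fin (k - r) => ∀ p ∈ range (Q + 1), p.Prime →
        ¬ (p : ℤ) ∣ a (e i) * n + b (e i))).card = (fr Q a b n \ R).card := by
      intro n
      apply Finset.card_bij (fun i _ => e i)
      · intro i hi
        rw [mem_filter] at hi
        rw [mem_sdiff]
        refine ⟨?_, hmem i⟩
        unfold fr
        rw [mem_filter]
        exact ⟨mem_univ _, hi.2⟩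
      · intro i _ j _ hij
        exact e.injective hij
      · intro j hj
        rw [mem_sdiff] at hj
        obtain ⟨i, hi⟩ := hsurj j hj.2
        refine ⟨i, ?_, hi⟩
        have h8 := hj.1
        unfold fr at h8
        rw [mem_filter] at h8
        rw [mem_filter]
        refine ⟨mem_univ _, ?_⟩
        rw [hi]
        exact h8.2
    simp only [hcnt] at h5
    have hlog : Real.log ((k - r : ℕ) : ℝ) ≤ Real.log k :=
      Real.log_le_log (by exact_mod_cast hr1) (by exact_mod_cast Nat.sub_le _ _)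
    have hnn : 0 ≤ ∑ n ∈ range Q.factorial, cop (PR P a b R) Q.factorial n * wt Q c n := by
      apply Finset.sum_nonneg
      intro n _
      unfold cop
      split_ifs with h
      · rw [one_mul]
        apply hc n
        rw [PR_eval, gcd_mul_iff] at h
        exact h.1
      · simp
    have hG : 0 ≤ Real.exp (-Real.eulerMascheroniConstant) / 2 + ε := by positivity
    have h6 := h5.trans (mul_le_mul_of_nonneg_right (add_le_add_left (mul_le_mul_of_nonneg_left hlog hG) C) hnn)
    refine le_trans (le_of_eq ?_) (h6.trans (le_of_eq ?_))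
    · apply Finset.sum_congr rfl
      intro n _
      rw [cop_PR]
      ring
    · congr 1
      apply Finset.sum_congr rfl
      intro n _
      rw [cop_PR]
      ring
  have hsum := Finset.sum_le_sum hstep
  rw [← Finset.mul_sum] at hsum
  have e1 : ∑ R ∈ powersetCard r (univ : Finset (Fin k)), ∑ n ∈ range Q.factorial,
      cop P Q.factorial n * ((if R ⊆ fr Q a b n then (1 : ℝ) else 0) * (wt Q c n * ((fr Q a b n \ R).card : ℝ))) =
      ((r : ℝ) + 1) * ∑ n ∈ range Q.factorial, cop P Q.factorial n *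
        (wt Q c n * ((fr Q a b n).card.choose (r + 1) : ℝ)) := by
    rw [Finset.sum_comm, Finset.mul_sum]
    apply Finset.sum_congr rfl
    intro n _
    have h7 := count_id (fr Q a b n) r
    calc _ = cop P Q.factorial n * wt Q c n * ∑ R ∈ powersetCard r (univ : Finset (Fin k)),
          (if R ⊆ fr Q a b n then (1 : ℝ) else 0) * ((fr Q a b n \ R).card : ℝ) := by
          rw [Finset.mul_sum]
          apply Finset.sum_congr rfl
          intro R _
          ring
      _ = _ := by rw [h7]; ring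
  have e2 : ∑ R ∈ powersetCard r (univ : Finset (Fin k)), ∑ n ∈ range Q.factorial,
      cop P Q.factorial n * ((if R ⊆ fr Q a b n then (1 : ℝ) else 0) * wt Q c n) =
      ∑ n ∈ range Q.factorial, cop P Q.factorial n * (wt Q c n * ((fr Q a b n).card.choose r : ℝ)) := by
    rw [Finset.sum_comm]
    apply Finset.sum_congr rfl
    intro n _
    have h7 := choose_id (fr Q a b n) r
    calc _ = cop P Q.factorial n * wt Q c n * ∑ R ∈ powersetCard r (univ : Finset (Fin k)),
          (if R ⊆ fr Q a b n then (1 : ℝ) else 0) := by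
          rw [Finset.mul_sum]
          apply Finset.sum_congr rfl
          intro R _
          ring
      _ = _ := by rw [h7]; ring
  rw [e1, e2] at hsum
  exact hsum

end Pool.Agent.Run7.h962.LP
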