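import Pool.Agent.Run7.h962.LF.Lin

/-! # The expected number of primes among the values of linear forms (helper962) -/

set_option autoImplicit false

open Finset

namespace Pool.Agent.Run7.h962.LF

open Pool.Agent.N422.NW Pool.Agent.N422.NWS Pool.Agent.N422.SL Pool.Agent.Run7.h962.NW

/-- the integers `n < M` in a residue class for which `A n + b` is prime to `M` -/
lemma card_lin (M d A b r : ℕ) (hM : 0 < M) (hA : 0 < A) (hd : d ∣ M) (hAb : Nat.Coprime b A) :
    ((range M).filter (fun n => n % d = r % d ∧ Nat.Coprime (A * n + b) M)).card =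
      ((range (A * M)).filter (fun m => m % (A * d) = (A * r + b) % (A * d) ∧ Nat.Coprime m (A * M))).card := by
  have hd0 : 0 < d := Nat.pos_of_dvd_of_pos hd hM
  have hper : Function.Periodic (fun m => m % (A * d) = (A * r + b) % (A * d) ∧ Nat.Coprime m (A * M)) (A * M) := by
    intro m
    simp only [eq_iff_iff]
    have e1 : (m + A * M) % (A * d) = m % (A * d) := by
      obtain ⟨e, rfl⟩ := hd
      rw [← mul_assoc, Nat.add_mul_mod_self_left]
    rw [e1]
    simp
  have h1 := Nat.filter_Ico_card_eq_of_periodic b (A * M) _ hper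
  rw [Nat.count_eq_card_filter_range] at h1
  rw [← h1]
  have hcopA : ∀ n, Nat.Coprime (A * n + b) A := by
    intro n
    rw [Nat.coprime_mul_left_add_left]
    exact hAb
  apply Finset.card_bij (fun n _ => A * n + b)
  · intro n hn
    rw [mem_filter, mem_range] at hn
    rw [mem_filter, mem_Ico]
    refine ⟨⟨by omega, ?_⟩, ?_, ?_⟩
    · have : A * n < A * M := (Nat.mul_lt_mul_left hA).2 hn.1
      omega
    · have h2 : n ≡ r [MOD d] := hn.2.1
      exact Nat.ModEq.add_right b (Nat.ModEq.mul_left' A h2)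
    · exact Nat.Coprime.mul_right (hcopA n) hn.2.2
  · intro n _ n' _ h
    have : A * n = A * n' := by omega
    exact Nat.eq_of_mul_eq_mul_left hA this
  · intro m hm
    rw [mem_filter, mem_Ico] at hm
    obtain ⟨⟨hm1, hm2⟩, hm3, hm4⟩ := hm
    have h2 : m ≡ A * r + b [MOD A * d] := hm3
    have h3 : m ≡ b [MOD A] := by
      have h4 : m ≡ A * r + b [MOD A] := h2.of_mul_right d
      have h5 : A * r + b ≡ b [MOD A] := by
        unfold Nat.ModEq
        rw [Nat.mul_add_mod]
      exact h4.trans h5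
    have h6 : A ∣ m - b := (Nat.modEq_iff_dvd' hm1).1 h3.symm
    obtain ⟨n, hn⟩ := h6
    have h7 : m = A * n + b := by omega
    refine ⟨n, ?_, h7.symm⟩
    rw [mem_filter, mem_range]
    refine ⟨?_, ?_, ?_⟩
    · have : A * n < A * M := by omega
      exact Nat.lt_of_mul_lt_mul_left this
    · have h8 : A * n + b ≡ A * r + b [MOD A * d] := by rw [← h7]; exact h2
      have h9 := Nat.ModEq.add_right_cancel' b h8
      exact Nat.ModEq.mul_left_cancel' hA.ne' h9
    · rw [← h7]
      exact Nat.Coprime.coprime_mul_left_right hm4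

/-- the sum of a function of `n mod d` over the `n` with `A n + b` coprime to `M` -/
lemma sum_lin (M d A b : ℕ) (hM : 0 < M) (hA : 0 < A) (hd : d ∣ M) (hAb : Nat.Coprime b A) (F : ℕ → ℝ) :
    ∑ n ∈ (range M).filter (fun n => Nat.Coprime (A * n + b) M), F (n % d) =
      (Nat.totient (A * M) : ℝ) / Nat.totient (A * d) *
        ∑ r ∈ (range d).filter (fun r => Nat.Coprime (A * r + b) d), F r := by
  have hd0 : 0 < d := Nat.pos_of_dvd_of_pos hd hM
  have hphi : (Nat.totient (A * d) : ℝ) ≠ 0 := by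
    exact_mod_cast (Nat.totient_pos.2 (Nat.mul_pos hA hd0)).ne'
  have h1 : ∑ n ∈ (range M).filter (fun n => Nat.Coprime (A * n + b) M), F (n % d) =
      ∑ r ∈ range d, ∑ n ∈ ((range M).filter (fun n => Nat.Coprime (A * n + b) M)).filter (fun n => n % d = r),
        F (n % d) := by
    symm
    apply Finset.sum_fiberwise_of_maps_to
    intro n _
    exact mem_range.2 (Nat.mod_lt _ hd0)
  rw [h1, Finset.sum_filter, Finset.mul_sum]
  apply Finset.sum_congr rfl
  intro r hr
  rw [mem_range] at hr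
  have h2 : ∑ n ∈ ((range M).filter (fun n => Nat.Coprime (A * n + b) M)).filter (fun n => n % d = r), F (n % d) =
      (((range M).filter (fun n => n % d = r % d ∧ Nat.Coprime (A * n + b) M)).card : ℝ) * F r := by
    rw [Finset.filter_filter]
    have e3 : (range M).filter (fun n => Nat.Coprime (A * n + b) M ∧ n % d = r) =
        (range M).filter (fun n => n % d = r % d ∧ Nat.Coprime (A * n + b) M) := by
      apply Finset.filter_congr
      intro n _
      rw [Nat.mod_eq_of_lt hr]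
      tauto
    rw [e3]
    rw [Finset.sum_congr rfl (g := fun _ => F r)]
    · rw [Finset.sum_const, nsmul_eq_mul]
    · intro n hn
      rw [mem_filter, Nat.mod_eq_of_lt hr] at hn
      rw [hn.2.1]
  have hAd : A * d ∣ A * M := mul_dvd_mul_left A hd
  have hAM : 0 < A * M := Nat.mul_pos hA hM
  rw [h2, card_lin M d A b r hM hA hd hAb]
  have hcA : Nat.Coprime (A * r + b) A := by
    rw [Nat.coprime_mul_left_add_left]
    exact hAb
  split_ifs with hc
  · have h3 := card_fib (A * M) (A * d) (A * r + b) hAM hAd (Nat.Coprime.mul_right hcA hc)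
    have h4 : (((range (A * M)).filter (fun m => m % (A * d) = (A * r + b) % (A * d) ∧
        Nat.Coprime m (A * M))).card : ℝ) * Nat.totient (A * d) = Nat.totient (A * M) := by exact_mod_cast h3
    rw [eq_comm, ← h4]
    field_simp
  · rw [card_fib0 (A * M) (A * d) (A * r + b) hAd (fun h => hc (Nat.Coprime.coprime_mul_left_right h))]
    simp

/-- a natural form with the same divisors -/
lemma nat_form (M : ℕ) (hM : 0 < M) (a b : ℤ) (ha : a ≠ 0) (hab : IsCoprime a b) :
    ∃ b' : ℕ, Nat.Coprime b' a.natAbs ∧ ∀ d : ℕ, d ∣ M → ∀ n : ℕ,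
      Nat.gcd (a.natAbs * n + b') d = Int.gcd (a * n + b) d := by
  have hA : 0 < a.natAbs := Int.natAbs_pos.2 ha
  -- the sign
  obtain ⟨s, hs1, hs2⟩ : ∃ s : ℤ, IsUnit s ∧ s * a = a.natAbs := by
    rcases lt_or_gt_of_ne ha with h | h
    · exact ⟨-1, by simp, by rw [Int.ofNat_natAbs_of_nonpos h.le]; ring⟩
    · exact ⟨1, by simp, by rw [Int.natAbs_of_nonneg h.le]; ring⟩
  have hAM : ((a.natAbs * M : ℕ) : ℤ) ≠ 0 := by
    exact_mod_cast (Nat.mul_pos hA hM).ne'
  obtain ⟨b', hb'⟩ : ∃ b' : ℕ, (b' : ℤ) = (s * b) % ((a.natAbs * M : ℕ) : ℤ) :=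
    ⟨((s * b) % ((a.natAbs * M : ℕ) : ℤ)).toNat, Int.toNat_of_nonneg (Int.emod_nonneg _ hAM)⟩
  have hdiv : ((a.natAbs * M : ℕ) : ℤ) ∣ s * b - b' := by
    rw [hb']
    exact Int.dvd_self_sub_emod
  refine ⟨b', ?_, fun d hd n => ?_⟩
  · rw [← Nat.isCoprime_iff_coprime]
    have h1 : ((a.natAbs : ℕ) : ℤ) ∣ s * b - b' := dvd_trans (by push_cast; exact Dvd.intro _ rfl) hdiv
    obtain ⟨e, he⟩ := h1
    have h2 : (b' : ℤ) = s * b + a.natAbs * (-e) := by linear_combination -he
    rw [h2, IsCoprime.add_mul_left_left_iff, ← hs2]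
    have h3 : IsCoprime (s * b) (s * a) ↔ IsCoprime b a := by
      rw [isCoprime_mul_unit_left hs1]
    rw [h3]
    exact hab.symm
  · have h1 : (d : ℤ) ∣ s * b - b' := dvd_trans (by push_cast; exact Dvd.dvd.mul_left (by exact_mod_cast hd) _) hdiv
    obtain ⟨e, he⟩ := h1
    have h2 : ((a.natAbs * n + b' : ℕ) : ℤ) = s * (a * n + b) + d * (-e) := by
      push_cast
      rw [← Int.natCast_natAbs, ← hs2]
      linear_combination -he
    rw [← Int.gcd_natCast_natCast, h2, Int.gcd_add_mul_left_left]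
    obtain ⟨u, rfl⟩ := hs1
    rcases Int.units_eq_one_or u with h | h
    · rw [h, Units.val_one, one_mul]
    · rw [h, Units.val_neg, Units.val_one, neg_one_mul, Int.neg_gcd]

/-- the expected value of the mean of `w(n) Λ(|a n + b|)` -/
noncomputable def ex (Q : ℕ) (c : ℕ → ℕ → ℝ) (a b : ℤ) : ℝ :=
  ∑ d ∈ Icc 1 Q, (a.natAbs : ℝ) / Nat.totient (a.natAbs * d) *
    ∑ r ∈ (range d).filter (fun r : ℕ => Int.gcd (a * r + b) d = 1), c d r

lemma surv_lin (Q : ℕ) (c : ℕ → ℕ → ℝ) (a b : ℤ) (ha : a ≠ 0) (hab : IsCoprime a b) :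
    ∑ n ∈ (range Q.factorial).filter (fun n : ℕ => ∀ p ∈ range (Q + 1), p.Prime → ¬ (p : ℤ) ∣ a * n + b), wt Q c n =
      (Nat.totient (a.natAbs * Q.factorial) : ℝ) / a.natAbs * ex Q c a b := by
  obtain ⟨b', hb1, hb2⟩ := nat_form Q.factorial Q.factorial_pos a b ha hab
  have hA : 0 < a.natAbs := Int.natAbs_pos.2 ha
  have hAr : (a.natAbs : ℝ) ≠ 0 := by exact_mod_cast hA.ne'
  have e1 : (range Q.factorial).filter (fun n : ℕ => ∀ p ∈ range (Q + 1), p.Prime → ¬ (p : ℤ) ∣ a * n + b) =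
      (range Q.factorial).filter (fun n => Nat.Coprime (a.natAbs * n + b') Q.factorial) := by
    apply Finset.filter_congr
    intro n _
    rw [cop_iff]
    have h1 : ∀ p ∈ range (Q + 1), p.Prime → ((p : ℤ) ∣ a * n + b ↔ p ∣ a.natAbs * n + b') := by
      intro p hp hpp
      rw [mem_range] at hp
      have h2 := hb2 p ((Nat.Prime.dvd_factorial hpp).2 (by omega)) n
      constructor
      · intro h3
        have h4 : Int.gcd (a * n + b) p = p := by
          rw [Int.gcd_eq_natAbs, Int.natAbs_natCast]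
          exact Nat.gcd_eq_right (Int.natCast_dvd.1 h3)
        rw [h4] at h2
        exact Nat.gcd_eq_right_iff_dvd.1 h2
      · intro h3
        have h4 : Nat.gcd (a.natAbs * n + b') p = p := Nat.gcd_eq_right h3
        rw [h4] at h2
        have h5 : (Int.gcd (a * n + b) p : ℤ) ∣ a * n + b := Int.gcd_dvd_left _ _
        rw [← h2] at h5
        exact h5
    constructor
    · intro h p hp hpp hd
      exact h p hp hpp ((h1 p hp hpp).2 hd)
    · intro h p hp hpp hd
      exact h p hp hpp ((h1 p hp hpp).1 hd)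
  rw [e1]
  unfold wt ex
  rw [Finset.sum_comm, Finset.mul_sum]
  apply Finset.sum_congr rfl
  intro d hd
  rw [mem_Icc] at hd
  have hdvd := Nat.dvd_factorial hd.1 hd.2
  rw [sum_lin Q.factorial d a.natAbs b' Q.factorial_pos hA hdvd hb1 (fun r => c d r)]
  have e2 : (range d).filter (fun r : ℕ => Int.gcd (a * r + b) d = 1) =
      (range d).filter (fun r => Nat.Coprime (a.natAbs * r + b') d) := by
    apply Finset.filter_congr
    intro r _
    rw [Nat.Coprime, hb2 d hdvd r]
  rw [e2]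
  field_simp

/-- the density of the integers prime to `A Q!` -/
lemma tot_lower (Q A : ℕ) (B : ℝ) (hQ : 2 ≤ Q) (hA : 0 < A) (hAB : (A : ℝ) ≤ (Q : ℝ) ^ B) (T : ℕ) (hT : B ≤ T) :
    (A * Q.factorial : ℝ) * ((∏ p ∈ (Icc 1 Q).filter Nat.Prime, (1 - 1 / (p : ℝ))) * (1 - T / Q)) ≤
      (Nat.totient (A * Q.factorial) : ℝ) := by
  have hQr : (0 : ℝ) < Q := by exact_mod_cast (by omega : 0 < Q)
  have hQ1 : (1 : ℝ) < Q := by exact_mod_cast (by omega : 1 < Q)
  have h1 := Nat.totient_eq_mul_prod_factors (A * Q.factorial)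
  have hne : A * Q.factorial ≠ 0 := (Nat.mul_pos hA Q.factorial_pos).ne'
  set S := A.primeFactors.filter (fun p => Q < p) with hS
  have h2 : (A * Q.factorial).primeFactors = (Icc 1 Q).filter Nat.Prime ∪ S := by
    ext p
    rw [Nat.mem_primeFactors, mem_union, mem_filter, mem_Icc, hS, mem_filter, Nat.mem_primeFactors]
    constructor
    · rintro ⟨h3, h4, _⟩
      by_cases hp : p ≤ Q
      · exact Or.inl ⟨⟨h3.one_lt.le, hp⟩, h3⟩
      · right
        rcases (Nat.Prime.dvd_mul h3).1 h4 with h5 | h5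
        · exact ⟨⟨h3, h5, hA.ne'⟩, by omega⟩
        · exact absurd ((Nat.Prime.dvd_factorial h3).1 h5) hp
    · rintro (⟨⟨h3, h4⟩, h5⟩ | ⟨⟨h3, h4, _⟩, h5⟩)
      · exact ⟨h5, Dvd.dvd.mul_left ((Nat.Prime.dvd_factorial h5).2 h4) _, hne⟩
      · exact ⟨h3, Dvd.dvd.mul_right h4 _, hne⟩
  have hdisj : Disjoint ((Icc 1 Q).filter Nat.Prime) S := by
    rw [Finset.disjoint_left]
    intro p hp hp'
    rw [mem_filter, mem_Icc] at hp
    rw [hS, mem_filter] at hp'
    omega
  rw [h2, Finset.prod_union hdisj] at h1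
  have h3 : ((Nat.totient (A * Q.factorial) : ℚ) : ℝ) = (((A * Q.factorial : ℕ) : ℚ) *
      ((∏ p ∈ (Icc 1 Q).filter Nat.Prime, (1 - (p : ℚ)⁻¹)) * ∏ p ∈ S, (1 - (p : ℚ)⁻¹)) : ℚ) := by rw [h1]
  push_cast at h3
  rw [h3]
  have hV0 : 0 ≤ ∏ p ∈ (Icc 1 Q).filter Nat.Prime, (1 - 1 / (p : ℝ)) := by
    apply Finset.prod_nonneg
    intro p hp
    rw [mem_filter] at hp
    have hp1 : (1 : ℝ) < p := by exact_mod_cast hp.2.one_lt
    have : 1 / (p : ℝ) < 1 := by rw [div_lt_one (by linarith)]; exact hp1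
    linarith
  have hcard : S.card ≤ T := by
    have h4 : (Q : ℝ) ^ (S.card : ℝ) ≤ (Q : ℝ) ^ B := by
      refine le_trans ?_ hAB
      rw [Real.rpow_natCast]
      have h5 : ∏ p ∈ S, p ∣ A := dvd_trans (Finset.prod_dvd_prod_of_subset _ _ _ (filter_subset _ _))
        (Nat.prod_primeFactors_dvd A)
      have h6 : Q ^ S.card ≤ ∏ p ∈ S, p := by
        rw [← Finset.prod_const]
        apply Finset.prod_le_prod'
        intro p hp
        rw [hS, mem_filter] at hp
        exact hp.2.le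
      exact_mod_cast h6.trans (Nat.le_of_dvd hA h5)
    have h7 : (S.card : ℝ) ≤ B := (Real.rpow_le_rpow_left_iff hQ1).1 h4
    exact_mod_cast h7.trans hT
  have hprodS : 1 - (T : ℝ) / Q ≤ ∏ p ∈ S, (1 - ((p : ℝ))⁻¹) := by
    have hq : 0 ≤ 1 - 1 / (Q : ℝ) ∧ 1 - 1 / (Q : ℝ) ≤ 1 := by
      have : 1 / (Q : ℝ) < 1 := by rw [div_lt_one (by linarith)]; exact hQ1
      have : 0 < 1 / (Q : ℝ) := by positivity
      constructor <;> linarith
    calc 1 - (T : ℝ) / Q = 1 + (T : ℝ) * (-(1 / Q)) := by ring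
      _ ≤ (1 + -(1 / (Q : ℝ))) ^ T := by
          apply one_add_mul_le_pow
          linarith [hq.1]
      _ = (1 - 1 / (Q : ℝ)) ^ T := by ring
      _ ≤ (1 - 1 / (Q : ℝ)) ^ S.card := pow_le_pow_of_le_one hq.1 hq.2 hcard
      _ = ∏ p ∈ S, (1 - 1 / (Q : ℝ)) := by rw [Finset.prod_const]
      _ ≤ _ := by
          apply Finset.prod_le_prod (fun _ _ => hq.1)
          intro p hp
          rw [hS, mem_filter] at hp
          have hp1 : (Q : ℝ) < p := by exact_mod_cast hp.2
          rw [← one_div]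
          have := one_div_le_one_div_of_le hQr hp1.le
          linarith
  have e3 : ∏ p ∈ (Icc 1 Q).filter Nat.Prime, (1 - ((p : ℝ))⁻¹) =
      ∏ p ∈ (Icc 1 Q).filter Nat.Prime, (1 - 1 / (p : ℝ)) := by
    apply Finset.prod_congr rfl
    intro p _
    rw [one_div]
  rw [e3]
  apply mul_le_mul_of_nonneg_left _ (by positivity)
  exact mul_le_mul_of_nonneg_left hprodS hV0

end Pool.Agent.Run7.h962.LF
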