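import Pool.Agent.Run7.h962.LF.Lin
import Pool.Agent.Run7.h962.LF.ARU

/-! # The sharp limit of nonnegative sieve weights along the integers prime to `Q!` (helper962) -/

set_option autoImplicit false

open Finset

namespace Pool.Agent.Run7.h962.LF

open Pool.Agent.N422.NW Pool.Agent.N422.NWS Pool.Agent.N422.SL Pool.Agent.Run7.h962.NW

theorem lin_units : ∀ ε : ℝ, 0 < ε → ∃ C : ℝ, 0 ≤ C ∧ ∀ (k : ℕ) (B : ℝ), 1 ≤ k → ∃ Q0 : ℕ, ∀ Q : ℕ, Q0 ≤ Q →
    ∀ a b : Fin k → ℤ, (∀ i, a i ≠ 0) → (∀ i, b i ≠ 0) → (∀ i j, i ≠ j → a i * b j ≠ a j * b i) →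
    (∀ i, |(a i : ℝ)| ≤ (Q : ℝ) ^ B) → (∀ i, |(b i : ℝ)| ≤ (Q : ℝ) ^ B) →
    ∀ c : ℕ → ℕ → ℝ, (∀ n, Nat.Coprime n Q.factorial → 0 ≤ wt Q c n) →
    ∑ n ∈ range Q.factorial, cop Q.factorial n * (wt Q c n *
      ((univ.filter (fun i => ∀ p ∈ range (Q + 1), p.Prime → ¬ (p : ℤ) ∣ a i * n + b i)).card : ℝ)) ≤
    ((Real.exp (-Real.eulerMascheroniConstant) / 2 + ε) * Real.log k + C) *
      ∑ n ∈ range Q.factorial, cop Q.factorial n * wt Q c n := by
  classical
  intro ε hε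
  obtain ⟨C, hC0, hC⟩ := pss ε hε
  refine ⟨C, hC0, ?_⟩
  intro k B0 hk
  obtain ⟨B, hB⟩ : ∃ B : ℝ, B = max B0 0 := ⟨_, rfl⟩
  have hB0 : 0 ≤ B := by rw [hB]; exact le_max_right _ _
  obtain ⟨m, n, η, q0, hm, hmn, hη, hq0, hPS⟩ := hC k hk
  obtain ⟨b', hb⟩ : ∃ b' : ℝ, b' = (Real.exp (-Real.eulerMascheroniConstant) / 2 + ε) * Real.log k + C := ⟨_, rfl⟩
  rw [← hb] at hPS
  rw [← hb]
  have hn0 : 0 < n := by omega
  have hnr : (0 : ℝ) < n := by exact_mod_cast hn0
  obtain ⟨Q1, hQ1⟩ := t_MER m n (k * B + (k : ℝ) ^ 2 * (2 * B + 1) + k * B) η hm hmn hη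
  obtain ⟨Q3, hQ3⟩ := Pool.Agent.Run7.h372.NW.t_MER2 m n (η / 2) hm hmn (half_pos hη)
  obtain ⟨Y0, hY0⟩ := exists_nat_ge (max (max ((k : ℝ) + 1) q0) (2 * (1 + η) / η))
  have hY1 : (k : ℝ) + 1 ≤ Y0 := (le_max_left _ _).trans ((le_max_left _ _).trans hY0)
  have hY2 : q0 ≤ Y0 := (le_max_right _ _).trans ((le_max_left _ _).trans hY0)
  have hY4 : 2 * (1 + η) / η ≤ Y0 := (le_max_right _ _).trans hY0
  have hY3 : (0 : ℝ) < Y0 := by linarith
  obtain ⟨Q2, hQ2⟩ := (Filter.tendsto_atTop.1 (Real.tendsto_log_atTop.comp tendsto_natCast_atTop_atTop)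
    ((n : ℝ) * Real.log Y0 + 1)).exists_forall_of_atTop
  refine ⟨max (max Q1 Q3) (max Q2 2), ?_⟩
  intro Q hQ a b ha hb0 hab haB' hbB' c hw
  have hQa : Q1 ≤ Q := (le_max_left _ _).trans ((le_max_left _ _).trans hQ)
  have hQd : Q3 ≤ Q := (le_max_right _ _).trans ((le_max_left _ _).trans hQ)
  have hQb : Q2 ≤ Q := (le_max_left _ _).trans ((le_max_right _ _).trans hQ)
  have hQc2 : 2 ≤ Q := (le_max_right _ _).trans ((le_max_right _ _).trans hQ)
  have hQc : 1 ≤ Q := by omega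
  have hQ1r : (1 : ℝ) ≤ Q := by exact_mod_cast hQc
  have hmono : (Q : ℝ) ^ B0 ≤ (Q : ℝ) ^ B := Real.rpow_le_rpow_of_exponent_le hQ1r (by rw [hB]; exact le_max_left _ _)
  have haB : ∀ i, |(a i : ℝ)| ≤ (Q : ℝ) ^ B := fun i => (haB' i).trans hmono
  have hbB : ∀ i, |(b i : ℝ)| ≤ (Q : ℝ) ^ B := fun i => (hbB' i).trans hmono
  have hlogY : 0 ≤ Real.log (Y0 : ℝ) := Real.log_natCast_nonneg Y0
  have hlogQ : (n : ℝ) * Real.log Y0 + 1 ≤ Real.log Q := hQ2 Q hQb
  have hlogQ0 : 0 < Real.log Q := by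
    have : 0 ≤ (n : ℝ) * Real.log Y0 := by positivity
    linarith
  have hM0 : 0 < Q.factorial := Nat.factorial_pos Q
  -- large primes
  have hbig : ∀ p : ℕ, 0 < p → (m : ℝ) * Real.log Q < n * Real.log p → Y0 < p := by
    intro p hp0 h
    have hmr : (1 : ℝ) ≤ m := by exact_mod_cast hm
    have h5 : (n : ℝ) * Real.log Y0 < n * Real.log p := by nlinarith
    have h6 : Real.log Y0 < Real.log p := lt_of_mul_lt_mul_left h5 hnr.le
    have h7 := (Real.log_lt_log_iff hY3 (by exact_mod_cast hp0)).1 h6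
    exact_mod_cast h7
  -- the bad primes
  obtain ⟨Bd, hBd⟩ : ∃ Bd : Finset ℕ, Bd = ((Icc 1 Q).filter Nat.Prime).filter (fun p => p ∣ dif a b * ∏ i, (b i).natAbs) :=
    ⟨_, rfl⟩
  have hBdp : ∀ p ∈ Bd, p.Prime ∧ p ∣ dif a b * ∏ i, (b i).natAbs := fun p hp => by
    rw [hBd, mem_filter, mem_filter] at hp
    exact ⟨hp.1.2, hp.2⟩
  have hbpos : 0 < ∏ i, (b i).natAbs := prod_pos fun i _ => Int.natAbs_pos.2 (hb0 i)
  have hblog : Real.log ((∏ i, (b i).natAbs : ℕ) : ℝ) ≤ k * B * Real.log Q := by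
    push_cast
    rw [Real.log_prod (fun i _ => by exact_mod_cast (Int.natAbs_pos.2 (hb0 i)).ne')]
    refine (sum_le_sum fun i _ => log_natAbs (hb0 i) hQc (hbB i)).trans (le_of_eq ?_)
    rw [sum_const, card_univ, Fintype.card_fin, nsmul_eq_mul]
    ring
  have hmer := hQ1 Q hQa Bd (fun p hp => (hBdp p hp).1) (by
    refine (AB_lg (Nat.mul_pos (dif_pos ha hab) hbpos) hBdp).trans ?_
    have h1 := dif_log hB0 ha hab hQc2 haB hbB
    have h2 : (dif a b : ℝ) ≠ 0 := by exact_mod_cast (dif_pos ha hab).ne'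
    have h3 : ((∏ i, (b i).natAbs : ℕ) : ℝ) ≠ 0 := by exact_mod_cast hbpos.ne'
    rw [Nat.cast_mul, Real.log_mul h2 h3]
    linarith)
  have hmer2 := hQ3 Q hQd
  -- the places
  obtain ⟨P, hP⟩ : ∃ P : Finset ℕ, P = ((Icc 1 Q).filter Nat.Prime).filter
    (fun p : ℕ => p ∉ Bd ∧ (m : ℝ) * Real.log Q < n * Real.log p) := ⟨_, rfl⟩
  have hP' : ∀ p ∈ P, p.Prime ∧ 1 ≤ p ∧ p ≤ Q ∧ p ∉ Bd ∧ (m : ℝ) * Real.log Q < n * Real.log p := fun p hp => by
    rw [hP, mem_filter, mem_filter, mem_Icc] at hp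
    exact ⟨hp.1.2, hp.1.1.1, hp.1.1.2, hp.2.1, hp.2.2⟩
  have hlogp : ∀ p ∈ P, Real.log p ≤ Real.log Q := fun p hp => by
    have h := hP' p hp
    exact Real.log_le_log (by exact_mod_cast h.2.1) (by exact_mod_cast h.2.2.1)
  have hspec := fun p (hp : p ∈ P) => AB_blk_spec (m := m) (n := n) (Q := Q) (p := p) hm hlogQ0
    (hP' p hp).2.2.2.2 (hlogp p hp)
  have hpY : ∀ p ∈ P, Y0 < p := fun p hp => hbig p (hP' p hp).2.1 (hP' p hp).2.2.2.2
  have hblock : ∀ j, m ≤ j → j < n → P.filter (fun p => AB_blk n Q p = j) =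
      ((Icc 1 Q).filter Nat.Prime).filter (fun p => p ∉ Bd ∧
        (j : ℝ) * Real.log Q < n * Real.log p ∧ n * Real.log p ≤ ((j : ℝ) + 1) * Real.log Q) := by
    intro j hj1 hj2
    ext p
    constructor
    · intro hp
      rw [mem_filter] at hp
      have h := hP' p hp.1
      have hs := hspec p hp.1
      rw [hp.2] at hs
      simp only [mem_filter, mem_Icc]
      exact ⟨⟨⟨h.2.1, h.2.2.1⟩, h.1⟩, h.2.2.2.1, hs.2.2.1, hs.2.2.2⟩
    · intro hp
      simp only [mem_filter, mem_Icc] at hp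
      obtain ⟨⟨⟨h1, h2⟩, h5⟩, h6, h7, h8⟩ := hp
      have hmj : (m : ℝ) ≤ j := by exact_mod_cast hj1
      rw [hP]
      simp only [mem_filter, mem_Icc]
      exact ⟨⟨⟨⟨h1, h2⟩, h5⟩, h6, by nlinarith⟩, AB_blk_unique hlogQ0 h7 h8⟩
  obtain ⟨q, hq⟩ : ∃ q : Fin P.card → ℕ, q = P.orderEmbOfFin rfl := ⟨_, rfl⟩
  have hqmem : ∀ i, q i ∈ P := fun i => by rw [hq]; exact P.orderEmbOfFin_mem rfl i
  have hqmono : StrictMono q := by rw [hq]; exact (P.orderEmbOfFin rfl).strictMono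
  have himg : P = univ.image q := by
    rw [hq]
    exact (Finset.image_orderEmbOfFin_univ P rfl).symm
  -- a prime of `P` divides no slope and no determinant
  have hnot' : ∀ i, ¬ q i ∣ dif a b * ∏ i, (b i).natAbs := by
    intro i hd
    have h := hP' _ (hqmem i)
    apply h.2.2.2.1
    rw [hBd, mem_filter, mem_filter, mem_Icc]
    exact ⟨⟨⟨h.2.1, h.2.2.1⟩, h.1⟩, hd⟩
  have hnot : ∀ i, ¬ q i ∣ dif a b := fun i hd => hnot' i (Dvd.dvd.mul_right hd _)
  -- the shifts
  have hMP : 0 < ∏ p ∈ P, p := prod_pos fun p hp => (hP' p hp).2.1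
  have hcopP : ∀ x : Fin k, IsCoprime (a x) ((∏ p ∈ P, p : ℕ) : ℤ) := by
    intro x
    rw [Int.isCoprime_iff_gcd_eq_one, Int.gcd_eq_natAbs, Int.natAbs_natCast]
    apply Nat.Coprime.prod_right
    intro p hp
    rw [himg, mem_image] at hp
    obtain ⟨i, -, rfl⟩ := hp
    rw [Nat.coprime_comm, (hP' _ (hqmem i)).1.coprime_iff_not_dvd]
    intro hd
    exact hnot i (hd.trans (dvd_dif1 a b x))
  choose hs hhs using fun x : Fin k => crt (∏ p ∈ P, p) hMP (a x) (b x) (hcopP x)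
  have hqdvd : ∀ i, q i ∣ ∏ p ∈ P, p := fun i => dvd_prod_of_mem (fun p => p) (hqmem i)
  have hinj : ∀ (i : Fin P.card) (x : ℕ) (y y' : Fin k), q i ∣ x + hs y → q i ∣ x + hs y' → y = y' := by
    intro i x y y' hy hy'
    by_contra hne
    rw [hhs y (q i) (hqdvd i) x] at hy
    rw [hhs y' (q i) (hqdvd i) x] at hy'
    apply hnot i
    refine dvd_trans ?_ (dvd_dif2 a b y y' hne)
    rw [← Int.natCast_dvd_natCast, Int.dvd_natAbs]
    have e : a y * b y' - a y' * b y = a y * (a y' * x + b y') - a y' * (a y * x + b y) := by ring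
    rw [e]
    exact dvd_sub (Dvd.dvd.mul_left hy' _) (Dvd.dvd.mul_left hy _)
  have hzero : ∀ (i : Fin P.card) (y : Fin k), ¬ q i ∣ hs y := by
    intro i y hd
    have h1 := hhs y (q i) (hqdvd i) 0
    rw [zero_add] at h1
    have h2 := h1.1 hd
    apply hnot' i
    refine Dvd.dvd.mul_left (dvd_trans ?_ (dvd_prod_of_mem (fun i => (b i).natAbs) (mem_univ y))) _
    rw [← Int.natCast_dvd]
    simpa using h2
  have hsumq : ∀ (j : ℕ) (G : ℕ → ℝ), ∑ i ∈ univ.filter (fun i => AB_blk n Q (q i) = j), G (q i) =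
      ∑ p ∈ P.filter (fun p => AB_blk n Q p = j), G p := by
    intro j G
    have e : P.filter (fun p => AB_blk n Q p = j) = (univ.filter (fun i => AB_blk n Q (q i) = j)).image q := by
      conv_lhs => rw [himg]
      rw [filter_image]
    rw [e, sum_image (fun a _ b _ hab => hqmono.injective hab)]
  have hmain := t_ARU P.card k hs q (fun i => AB_blk n Q (q i)) n Q Q.factorial (fun d x => c d (x % d)) b'
    hqmono.injective
    (fun i => ⟨(hP' _ (hqmem i)).1, by
      have h5 := hpY _ (hqmem i)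
      have h6 : k + 1 ≤ Y0 := by exact_mod_cast hY1
      omega⟩) hinj hzero hM0
    (fun i => Nat.dvd_factorial (hP' _ (hqmem i)).2.1 (hP' _ (hqmem i)).2.2.1)
    (fun d hd => ⟨fun x => by simp only [Nat.add_mod_right], by
      rw [mem_Icc] at hd
      exact Nat.dvd_factorial (by omega) hd.2⟩)
    (fun x hx => hw x hx)
    (fun d hd => by
      rw [mem_Icc] at hd
      obtain ⟨T, hT⟩ : ∃ T : Finset (Fin P.card), T = univ.filter (fun i => q i ∣ d) :=
        ⟨_, rfl⟩
      rw [← hT]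
      have h5 : ∑ i ∈ T, Real.log (q i) ≤ Real.log d := by
        have h6 : ∑ i ∈ T, Real.log (q i) = ∑ p ∈ T.image q, Real.log p := by
          rw [sum_image (fun a _ b _ hab => hqmono.injective hab)]
        rw [h6]
        refine AB_lg (by omega) ?_
        intro p hp
        rw [mem_image] at hp
        obtain ⟨i, hi, rfl⟩ := hp
        rw [hT, mem_filter] at hi
        exact ⟨(hP' _ (hqmem i)).1, hi.2⟩
      have h7 : Real.log d ≤ Real.log Q :=
        Real.log_le_log (by exact_mod_cast hd.1) (by exact_mod_cast hd.2)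
      have h9 : (∑ i ∈ T, (AB_blk n Q (q i) : ℝ)) * Real.log Q ≤ n * Real.log Q := by
        rw [sum_mul]
        refine (sum_le_sum fun i _ => (hspec _ (hqmem i)).2.2.1.le).trans ?_
        rw [← mul_sum]
        exact mul_le_mul_of_nonneg_left (h5.trans h7) hnr.le
      have h10 := le_of_mul_le_mul_right h9 hlogQ0
      exact_mod_cast h10)
    (fun f hf0 hfL => hPS P.card (fun i => (q i : ℝ) - 1) (fun i => AB_blk n Q (q i))
      (fun i => ⟨(hspec _ (hqmem i)).1, (hspec _ (hqmem i)).2.1⟩)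
      (fun i => by
        have h5 := hpY _ (hqmem i)
        have h6 : (Y0 : ℝ) + 1 ≤ q i := by exact_mod_cast h5
        linarith)
      (fun j hj1 hj2 => by
        rw [hsumq j (fun p => 1 / ((p : ℝ) - 1)), hblock j hj1 hj2]
        have hbig' : ∀ p ∈ ((Icc 1 Q).filter Nat.Prime).filter (fun p => p ∉ Bd ∧
            (j : ℝ) * Real.log Q < n * Real.log p ∧ n * Real.log p ≤ ((j : ℝ) + 1) * Real.log Q),
            (Y0 : ℝ) + 1 ≤ p := by
          intro p hp
          rw [← hblock j hj1 hj2, mem_filter] at hp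
          exact_mod_cast hpY p hp.1
        constructor
        · refine (hmer j hj1 hj2).trans (sum_le_sum fun p hp => ?_)
          have h7 := hbig' p hp
          exact one_div_le_one_div_of_le (by linarith) (by linarith)
        · have h8 : ∀ p ∈ ((Icc 1 Q).filter Nat.Prime).filter (fun p => p ∉ Bd ∧
              (j : ℝ) * Real.log Q < n * Real.log p ∧ n * Real.log p ≤ ((j : ℝ) + 1) * Real.log Q),
              1 / ((p : ℝ) - 1) ≤ (1 + 1 / Y0) * (1 / (p : ℝ)) := by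
            intro p hp
            have h7 := hbig' p hp
            have h9 : (0 : ℝ) < p := by linarith
            have h10 : (0 : ℝ) < (p : ℝ) - 1 := by linarith
            have h11 : 1 / ((p : ℝ) - 1) = (1 + 1 / ((p : ℝ) - 1)) * (1 / (p : ℝ)) := by
              field_simp
              ring
            rw [h11]
            apply mul_le_mul_of_nonneg_right _ (by positivity)
            have := one_div_le_one_div_of_le hY3 (by linarith : (Y0 : ℝ) ≤ (p : ℝ) - 1)
            linarith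
          refine (sum_le_sum h8).trans ?_
          rw [← mul_sum]
          have h12 : ∑ p ∈ ((Icc 1 Q).filter Nat.Prime).filter (fun p => p ∉ Bd ∧
              (j : ℝ) * Real.log Q < n * Real.log p ∧ n * Real.log p ≤ ((j : ℝ) + 1) * Real.log Q), 1 / (p : ℝ) ≤
              Real.log (((j : ℝ) + 1) / j) + η / 2 := by
            refine le_trans ?_ (hmer2 j hj1 hj2)
            apply sum_le_sum_of_subset_of_nonneg
            · intro p hp
              rw [mem_filter] at hp ⊢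
              exact ⟨hp.1, hp.2.2⟩
            · intro p _ _
              positivity
          have hj : (1 : ℝ) ≤ j := by exact_mod_cast (by omega : 1 ≤ j)
          have h13 : Real.log (((j : ℝ) + 1) / j) ≤ 1 := by
            have h14 : ((j : ℝ) + 1) / j = 1 + 1 / j := by field_simp
            rw [h14]
            have h15 := Real.log_le_sub_one_of_pos (show (0 : ℝ) < 1 + 1 / j by positivity)
            have h16 : 1 / (j : ℝ) ≤ 1 := by rw [div_le_one (by linarith)]; exact hj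
            linarith
          have h17 : 1 / (Y0 : ℝ) * (1 + η) ≤ η / 2 := by
            rw [div_le_iff₀ hη] at hY4
            rw [div_mul_eq_mul_div, div_le_iff₀ hY3]
            linarith
          have h18 : 0 < 1 / (Y0 : ℝ) := by positivity
          calc (1 + 1 / (Y0 : ℝ)) * _ ≤ (1 + 1 / (Y0 : ℝ)) * (Real.log (((j : ℝ) + 1) / j) + η / 2) :=
                mul_le_mul_of_nonneg_left h12 (by positivity)
            _ ≤ Real.log (((j : ℝ) + 1) / j) + η / 2 + 1 / (Y0 : ℝ) * (1 + η) := by nlinarith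
            _ ≤ _ := by linarith) f hf0 hfL)
  refine le_trans ?_ hmain
  apply sum_le_sum
  intro x _
  unfold cop
  split_ifs with hx
  swap
  · simp
  rw [one_mul, one_mul]
  apply mul_le_mul_of_nonneg_left _ (hw x hx)
  have hcard : (univ.filter (fun i : Fin k => ∀ p ∈ range (Q + 1), p.Prime → ¬ (p : ℤ) ∣ a i * x + b i)).card ≤
      (univ.filter (fun y : Fin k => ∀ i, ¬ q i ∣ x + hs y)).card := by
    apply card_le_card
    intro y hy
    rw [mem_filter] at hy ⊢
    refine ⟨mem_univ _, fun i => ?_⟩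
    have h6 := hP' _ (hqmem i)
    rw [hhs y (q i) (hqdvd i) x]
    exact hy.2 (q i) (mem_range.2 (by omega)) h6.1
  exact_mod_cast hcard

theorem euler_pos (Q : ℕ) : 0 < ∏ p ∈ (Icc 1 Q).filter Nat.Prime, (1 - 1 / (p : ℝ)) := by
  apply Finset.prod_pos
  intro p hp
  rw [mem_filter] at hp
  have hp1 : (1 : ℝ) < p := by exact_mod_cast hp.2.one_lt
  have : 1 / (p : ℝ) < 1 := by rw [div_lt_one (by linarith)]; exact hp1
  linarith

/-- both parts -/
theorem units_both : ∀ ε : ℝ, 0 < ε → ∃ C : ℝ, ∀ (k : ℕ) (B : ℝ), 1 ≤ k → ∃ Q0 : ℕ, ∀ Q : ℕ, Q0 ≤ Q →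
    ∀ a b : Fin k → ℤ, (∀ i, a i ≠ 0) → (∀ i, b i ≠ 0) → (∀ i j, i ≠ j → a i * b j ≠ a j * b i) →
    (∀ i, |(a i : ℝ)| ≤ (Q : ℝ) ^ B) → (∀ i, |(b i : ℝ)| ≤ (Q : ℝ) ^ B) →
    ∀ c : ℕ → ℕ → ℝ, (∀ n, Nat.Coprime n Q.factorial → 0 ≤ wt Q c n) →
    (∑ n ∈ (range Q.factorial).filter (fun n => Nat.Coprime n Q.factorial), wt Q c n *
      ((univ.filter (fun i => ∀ p ∈ Icc 1 Q, p.Prime → ¬ (p : ℤ) ∣ a i * n + b i)).card : ℝ)) /
        Nat.totient Q.factorial ≤
      ((Real.exp (-Real.eulerMascheroniConstant) / 2 + ε) * Real.log k + C) *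
        ((∑ n ∈ (range Q.factorial).filter (fun n => Nat.Coprime n Q.factorial), wt Q c n) /
          Nat.totient Q.factorial) ∧
    (∏ p ∈ (Icc 1 Q).filter Nat.Prime, (1 - 1 / (p : ℝ)))⁻¹ *
      ((∑ n ∈ (range Q.factorial).filter (fun n => Nat.Coprime n Q.factorial), wt Q c n *
        ((univ.filter (fun i => ∀ p ∈ Icc 1 Q, p.Prime → ¬ (p : ℤ) ∣ a i * n + b i)).card : ℝ)) /
          Nat.totient Q.factorial) ≤
      ((1 / 2 + ε) * Real.log k + C) * Real.log Q *
        ((∑ n ∈ (range Q.factorial).filter (fun n => Nat.Coprime n Q.factorial), wt Q c n) /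
          Nat.totient Q.factorial) := by
  intro ε hε
  set G := Real.exp Real.eulerMascheroniConstant with hG
  have hG0 : 0 < G := Real.exp_pos _
  have hGi : Real.exp (-Real.eulerMascheroniConstant) = G⁻¹ := by rw [Real.exp_neg]
  set δ1 : ℝ := min ε (ε / (2 * (G + 1))) with hδ1
  have hδ1p : 0 < δ1 := by positivity
  set δ2 : ℝ := min 1 (G * ε) with hδ2
  have hδ2p : 0 < δ2 := by positivity
  obtain ⟨C, hC, h1⟩ := lin_units δ1 hδ1p
  obtain ⟨Q1, h2⟩ := t_VQ.1 δ2 hδ2p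
  refine ⟨C * (G + 1), fun k B hk => ?_⟩
  obtain ⟨Q0, h3⟩ := h1 k B hk
  refine ⟨max Q0 Q1, fun Q hQ a b ha hb hab haB hbB c hc => ?_⟩
  have hQ0 : Q0 ≤ Q := le_trans (le_max_left _ _) hQ
  have hQ1 : Q1 ≤ Q := le_trans (le_max_right _ _) hQ
  have h4 := h3 Q hQ0 a b ha hb hab haB hbB c hc
  have h5 := h2 Q hQ1
  set V := ∏ p ∈ (Icc 1 Q).filter Nat.Prime, (1 - 1 / (p : ℝ)) with hV
  have hVp : 0 < V := euler_pos Q
  have hphi : (0 : ℝ) < Nat.totient Q.factorial := by exact_mod_cast Nat.totient_pos.2 Q.factorial_pos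
  have e0 : ∀ G : ℕ → ℝ, ∑ n ∈ range Q.factorial, cop Q.factorial n * G n =
      ∑ n ∈ (range Q.factorial).filter (fun n => Nat.Coprime n Q.factorial), G n := by
    intro G
    rw [Finset.sum_filter]
    apply Finset.sum_congr rfl
    intro n _
    unfold cop
    split_ifs <;> simp
  have hfree : ∀ n : ℕ, (univ.filter (fun i => ∀ p ∈ range (Q + 1), p.Prime → ¬ (p : ℤ) ∣ a i * n + b i)).card =
      (univ.filter (fun i => ∀ p ∈ Icc 1 Q, p.Prime → ¬ (p : ℤ) ∣ a i * n + b i)).card := by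
    intro n
    congr 1
    apply Finset.filter_congr
    intro i _
    constructor
    · intro h4 p hp hpp
      rw [mem_Icc] at hp
      exact h4 p (mem_range.2 (by omega)) hpp
    · intro h4 p hp hpp
      rw [mem_range] at hp
      exact h4 p (mem_Icc.2 ⟨hpp.one_lt.le, by omega⟩) hpp
  simp only [hfree] at h4
  rw [e0 (fun n => wt Q c n * ((univ.filter (fun i => ∀ p ∈ Icc 1 Q, p.Prime → ¬ (p : ℤ) ∣ a i * n + b i)).card : ℝ)),
    e0 (fun n => wt Q c n)] at h4
  set M := ∑ n ∈ (range Q.factorial).filter (fun n => Nat.Coprime n Q.factorial), wt Q c n with hM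
  set S := ∑ n ∈ (range Q.factorial).filter (fun n => Nat.Coprime n Q.factorial), wt Q c n *
    ((univ.filter (fun i => ∀ p ∈ Icc 1 Q, p.Prime → ¬ (p : ℤ) ∣ a i * n + b i)).card : ℝ) with hS
  have hM0 : 0 ≤ M := by
    rw [hM]
    apply Finset.sum_nonneg
    intro n hn
    rw [mem_filter] at hn
    exact hc n hn.2
  rw [hGi] at h4 ⊢
  have hlogk : 0 ≤ Real.log k := Real.log_nonneg (by exact_mod_cast hk)
  have hlogQ : 0 ≤ Real.log Q := Real.log_natCast_nonneg Q
  have h6 : S / Nat.totient Q.factorial ≤ ((G⁻¹ / 2 + δ1) * Real.log k + C) * (M / Nat.totient Q.factorial) := by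
    rw [← mul_div_assoc]
    exact div_le_div_of_nonneg_right h4 hphi.le
  have hMp : 0 ≤ M / Nat.totient Q.factorial := by positivity
  constructor
  · refine h6.trans (mul_le_mul_of_nonneg_right ?_ hMp)
    have h7 : (G⁻¹ / 2 + δ1) * Real.log k ≤ (G⁻¹ / 2 + ε) * Real.log k :=
      mul_le_mul_of_nonneg_right (by linarith [min_le_left ε (ε / (2 * (G + 1)))]) hlogk
    have h8 : C ≤ C * (G + 1) := by nlinarith
    linarith
  · have hX : 0 ≤ ((G⁻¹ / 2 + δ1) * Real.log k + C) * (M / Nat.totient Q.factorial) := by positivity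
    refine (mul_le_mul_of_nonneg_left h6 (inv_pos.2 hVp).le).trans ?_
    refine (mul_le_mul_of_nonneg_right h5 hX).trans ?_
    have h8 : (G + δ2) * ((G⁻¹ / 2 + δ1) * Real.log k + C) ≤ (1 / 2 + ε) * Real.log k + C * (G + 1) := by
      have h9 : (G + δ2) * (G⁻¹ / 2 + δ1) ≤ 1 / 2 + ε := by
        have h10 : (G + δ2) * δ1 ≤ ε / 2 := by
          have : (G + δ2) * δ1 ≤ (G + 1) * (ε / (2 * (G + 1))) := by
            apply mul_le_mul _ (min_le_right _ _) hδ1p.le (by positivity)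
            have := min_le_left 1 (G * ε)
            linarith
          refine this.trans (le_of_eq ?_)
          field_simp
        have h11 : δ2 * (G⁻¹ / 2) ≤ ε / 2 := by
          have : δ2 * (G⁻¹ / 2) ≤ (G * ε) * (G⁻¹ / 2) :=
            mul_le_mul_of_nonneg_right (min_le_right _ _) (by positivity)
          refine this.trans (le_of_eq ?_)
          field_simp
        have h12 : G * (G⁻¹ / 2) = 1 / 2 := by field_simp
        calc (G + δ2) * (G⁻¹ / 2 + δ1) = G * (G⁻¹ / 2) + δ2 * (G⁻¹ / 2) + (G + δ2) * δ1 := by ring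
          _ ≤ 1 / 2 + ε / 2 + ε / 2 := by linarith
          _ = 1 / 2 + ε := by ring
      have h13 : (G + δ2) * C ≤ C * (G + 1) := by
        rw [mul_comm]
        apply mul_le_mul_of_nonneg_left _ hC
        have := min_le_left 1 (G * ε)
        linarith
      calc _ = (G + δ2) * (G⁻¹ / 2 + δ1) * Real.log k + (G + δ2) * C := by ring
        _ ≤ (1 / 2 + ε) * Real.log k + C * (G + 1) := add_le_add (mul_le_mul_of_nonneg_right h9 hlogk) h13
    calc _ = ((G + δ2) * ((G⁻¹ / 2 + δ1) * Real.log k + C)) * (Real.log Q * (M / Nat.totient Q.factorial)) := by ring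
      _ ≤ ((1 / 2 + ε) * Real.log k + C * (G + 1)) * (Real.log Q * (M / Nat.totient Q.factorial)) :=
          mul_le_mul_of_nonneg_right h8 (by positivity)
      _ = _ := by ring

end Pool.Agent.Run7.h962.LF
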